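import Pool.Agent.Y331.PH.Main

/-!
# The example is compact and connected
-/

set_option autoImplicit false

open scoped Topology ComplexConjugate Manifold ContDiff
open Set Filter

namespace Pool.Agent.Y331.PH

open Dat

theorem compactSpace_SS : CompactSpace SS.Pt := by
  refine ⟨?_⟩
  have h1 : (univ : Set SS.Pt) = SS.p '' KK := by
    symm
    rw [eq_univ_iff_forall]
    intro q
    obtain ⟨x, hx, rfl⟩ := SS.exists_rep q
    obtain ⟨y, hy, hr⟩ := KK_cover x hx
    exact ⟨y, hy, (SS.p_eq_of_rel hr).symm⟩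
  rw [h1]
  exact isCompact_KK.image_of_continuousOn (SS.continuousOn_p.mono KK_sub)

theorem countable_lat {J : Type} [Fintype J] (T : (J → ℂ) →ₗ[ℂ] (J → ℂ)) :
    (lat T : Set (J → ℂ)).Countable := by
  have hc : Countable GaussianInt := by
    have : Function.Injective fun g : GaussianInt => (g.re, g.im) := by
      intro a b h
      rw [Prod.mk.injEq] at h
      exact Zsqrtd.ext h.1 h.2
    exact this.countable
  have hc2 : Countable (J → GaussianInt) := inferInstance
  refine (countable_range fun g : J → GaussianInt => T fun i => GaussianInt.toComplex (g i)).mono ?_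
  rintro _ ⟨a, ha, rfl⟩
  choose g hg using ha
  refine ⟨g, ?_⟩
  simp only
  congr 1
  funext i
  exact hg i

theorem isConnected_compl_L : IsConnected ((dat.L : Set V3)ᶜ) := by
  have h1 : 1 < Module.rank ℝ V3 := by
    have h2 : Module.finrank ℝ V3 = 6 := by
      rw [Module.finrank_pi_fintype]
      simp
    have h3 : Module.Finite ℝ V3 := inferInstance
    rw [← Module.finrank_eq_rank, h2]
    norm_num
  exact ((countable_lat T1).isPathConnected_compl_of_one_lt_rank h1).isConnected

theorem isConnected_ne : IsConnected ({0}ᶜ : Set ℂ) := by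
  have h1 : 1 < Module.rank ℝ ℂ := by
    rw [Complex.rank_real_complex]
    norm_num
  exact (isPathConnected_compl_singleton_of_one_lt_rank h1 0).isConnected

/-- the parameters. -/
def PA : Set (V3 × ℂ × WW) := ((dat.L : Set V3)ᶜ) ×ˢ (({0}ᶜ : Set ℂ) ×ˢ (univ : Set WW))

theorem isConnected_PA : IsConnected PA :=
  isConnected_compl_L.prod (isConnected_ne.prod isConnected_univ)

theorem Phi_PA {z : V3 × ℂ × WW} (hz : z ∈ PA) : Phi z ∈ SS.U := by
  obtain ⟨x, s, w⟩ := z
  obtain ⟨hx, hs, -⟩ := hz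
  have hx' : x ∉ dat.L := hx
  have hs' : s ≠ 0 := hs
  constructor
  · intro h0
    have h1 : (s ^ 3)⁻¹ • x = 0 := h0
    have h2 := (smul_eq_zero.1 h1).resolve_left (inv_ne_zero (pow_ne_zero 3 hs'))
    exact hx' (by rw [h2]; exact dat.L.zero_mem)
  · intro t ht htL
    exfalso
    have ht' : t ^ 2 = s ^ 2 := ht
    have htL' : t ^ 3 • (s ^ 3)⁻¹ • x ∈ dat.L := htL
    rcases sq_eq_sq_iff_eq_or_eq_neg.1 ht' with h | h
    · rw [h, smul_smul, mul_inv_cancel₀ (pow_ne_zero 3 hs'), one_smul] at htL'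
      exact hx' htL'
    · have : t ^ 3 * (s ^ 3)⁻¹ = -1 := by
        rw [h]
        field_simp
      rw [smul_smul, this, neg_one_smul] at htL'
      exact hx' (by simpa using dat.L.neg_mem htL')

theorem mem_image {b : EE} (hb : b ∈ SS.U) (hu : b.2.1 ≠ 0) :
    SS.p b ∈ (fun z => SS.p (Phi z)) '' PA := by
  obtain ⟨s, hs⟩ := exists_sq b.2.1
  have hs0 : s ≠ 0 := by
    rintro rfl
    apply hu
    rw [← hs]
    simp
  refine ⟨(s ^ 3 • b.1, s, b.2.2), ⟨fun h => hs0 (hb.2 s hs h), hs0, mem_univ _⟩, ?_⟩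
  have : Phi (s ^ 3 • b.1, s, b.2.2) = b := by
    unfold Phi
    refine Prod.ext ?_ (Prod.ext hs rfl)
    simp only
    rw [smul_smul, inv_mul_cancel₀ (pow_ne_zero 3 hs0), one_smul]
  simp only [this]

theorem connectedSpace_SS : ConnectedSpace SS.Pt := by
  have h1 : IsConnected ((fun z => SS.p (Phi z)) '' PA) := by
    apply isConnected_PA.image
    refine SS.continuousOn_p.comp (continuousOn_Phi.mono ?_) fun z hz => Phi_PA hz
    rintro ⟨x, s, w⟩ ⟨-, hs, -⟩
    exact hs
  have h2 : closure ((fun z => SS.p (Phi z)) '' PA) = univ := by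
    rw [eq_univ_iff_forall]
    intro q
    obtain ⟨b, hb, rfl⟩ := SS.exists_rep q
    have hcl : b ∈ closure {b : EE | b ∈ SS.U ∧ b.2.1 ≠ 0} := by
      rcases ne_or_eq b.2.1 0 with hu | hu
      · exact subset_closure ⟨hb, hu⟩
      · have hc : Continuous fun t : ℂ => ((b.1, t, b.2.2) : EE) := by fun_prop
        have ht : Tendsto (fun t : ℂ => ((b.1, t, b.2.2) : EE)) (𝓝[≠] 0) (𝓝 b) := by
          have := hc.tendsto 0
          have e : ((b.1, (0 : ℂ), b.2.2) : EE) = b := Prod.ext rfl (Prod.ext hu.symm rfl)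
          rw [e] at this
          exact this.mono_left nhdsWithin_le_nhds
        apply mem_closure_of_tendsto ht
        filter_upwards [ht.eventually (SS.isOpen.mem_nhds hb), self_mem_nhdsWithin] with t h1 h2
        exact ⟨h1, h2⟩
    have h3 := (SS.continuousAt_p hb).continuousWithinAt.mem_closure_image hcl
    refine closure_mono ?_ h3
    rintro _ ⟨b', ⟨hb', hu'⟩, rfl⟩
    exact mem_image hb' hu'
  have h3 : IsConnected (univ : Set SS.Pt) := by
    rw [← h2]
    exact h1.closure
  exact connectedSpace_iff_univ.2 h3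

end Pool.Agent.Y331.PH
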