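import Mathlib

/-!
# Existence of Riemannian metrics
-/

set_option autoImplicit false

open scoped Manifold ContDiff Topology Bundle
open Set

namespace Pool.Agent.Y331.PH

variable {E : Type} [NormedAddCommGroup E] [NormedSpace ℝ E] [FiniteDimensional ℝ E]

/-- a scalar product on a finite dimensional space. -/
theorem exists_inner : ∃ β : E →L[ℝ] E →L[ℝ] ℝ, (∀ v w, β v w = β w v) ∧ ∀ v, v ≠ 0 → 0 < β v v := by
  have e := (ContinuousLinearEquiv.ofFinrankEq (𝕜 := ℝ) (E := E)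
    (F := EuclideanSpace ℝ (Fin (Module.finrank ℝ E))) (by simp))
  refine ⟨((innerSL ℝ).bilinearComp e.toContinuousLinearMap e.toContinuousLinearMap),
    fun v w => ?_, fun v hv => ?_⟩
  · simp only [ContinuousLinearMap.bilinearComp_apply, innerSL_apply_apply]
    exact real_inner_comm _ _
  · simp only [ContinuousLinearMap.bilinearComp_apply, innerSL_apply_apply]
    rw [real_inner_self_eq_norm_sq]
    have : e v ≠ 0 := by simpa using hv
    have := norm_pos_iff.2 this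
    positivity

/-- the pull back of a bilinear form. -/
noncomputable def pull (β : E →L[ℝ] E →L[ℝ] ℝ) (D : E →L[ℝ] E) : E →L[ℝ] E →L[ℝ] ℝ :=
  β.bilinearComp D D

theorem isVonNBounded_aux (g : E →L[ℝ] E →L[ℝ] ℝ) (hg : ∀ v, v ≠ 0 → 0 < g v v) :
    Bornology.IsVonNBounded ℝ {v : E | g v v < 1} := by
  have : ProperSpace E := FiniteDimensional.proper ℝ E
  have hc : ContinuousOn (fun v : E => g v v) (Metric.sphere (0 : E) 1) := by
    have : Continuous fun v : E => g v v := by fun_prop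
    exact this.continuousOn
  obtain ⟨c, hc0, hc1⟩ := (isCompact_sphere (0 : E) 1).exists_forall_le' hc (a := 0) (fun v hv =>
    hg v (by rintro rfl; simp at hv))
  rw [NormedSpace.isVonNBounded_iff, isBounded_iff_forall_norm_le]
  refine ⟨√(1 / c), fun v hv => ?_⟩
  apply Real.le_sqrt_of_sq_le
  rcases eq_or_ne v 0 with rfl | h0
  · simp
    positivity
  · have hn : 0 < ‖v‖ := norm_pos_iff.2 h0
    have h1 := hc1 (‖v‖⁻¹ • v) (by simp [norm_smul, hn.ne'])
    have h2 : g (‖v‖⁻¹ • v) (‖v‖⁻¹ • v) = (‖v‖⁻¹) ^ 2 * g v v := by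
      simp only [map_smul, smul_apply, smul_eq_mul]
      ring
    rw [h2] at h1
    have hv' : g v v < 1 := hv
    rw [le_div_iff₀ hc0]
    have h3 : c * ‖v‖ ^ 2 ≤ g v v := by
      calc c * ‖v‖ ^ 2 ≤ ((‖v‖⁻¹) ^ 2 * g v v) * ‖v‖ ^ 2 := by gcongr
        _ = g v v := by field_simp
    linarith

variable (M : Type) [TopologicalSpace M] [ChartedSpace E M] [IsManifold 𝓘(ℝ, E) ∞ M]
  [SigmaCompactSpace M] [T2Space M] [IsManifold 𝓘(ℝ, E) 1 M]

theorem exists_metric : Nonempty (Bundle.ContMDiffRiemannianMetric 𝓘(ℝ, E) ∞ E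
    (TangentSpace 𝓘(ℝ, E) : M → Type)) := by
  obtain ⟨β, hβ, hβ2⟩ := exists_inner (E := E)
  let t : ∀ x : M, Set (TangentSpace 𝓘(ℝ, E) x →L[ℝ] TangentSpace 𝓘(ℝ, E) x →L[ℝ] ℝ) := fun x =>
    {g | (∀ v w, g v w = g w v) ∧ ∀ v, v ≠ 0 → 0 < g v v}
  have hconv : ∀ x, Convex ℝ (t x) := by
    rintro x g ⟨h1, h2⟩ g' ⟨h1', h2'⟩ a b ha hb hab
    refine ⟨fun v w => ?_, fun v hv => ?_⟩
    · simp only [add_apply, smul_apply]
      rw [h1 v w, h1' v w]
    · simp only [add_apply, smul_apply, smul_eq_mul]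
      have p1 := h2 v hv
      have p2 := h2' v hv
      rcases ha.eq_or_lt with rfl | ha'
      · have : b = 1 := by linarith
        rw [this]
        linarith
      · have := mul_pos ha' p1
        have := mul_nonneg hb p2.le
        linarith
  have hloc : ∀ x₀ : M, ∃ U ∈ 𝓝 x₀, ∃ (s_loc : (x : M) → (TangentSpace 𝓘(ℝ, E) x →L[ℝ]
      TangentSpace 𝓘(ℝ, E) x →L[ℝ] ℝ)),
      (ContMDiffOn 𝓘(ℝ, E) (𝓘(ℝ, E).prod 𝓘(ℝ, E →L[ℝ] E →L[ℝ] ℝ)) ∞
        (fun x => Bundle.TotalSpace.mk' (E →L[ℝ] E →L[ℝ] ℝ) x (s_loc x)) U) ∧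
        ∀ y ∈ U, s_loc y ∈ t y := by
    intro x₀
    set e := trivializationAt E (TangentSpace 𝓘(ℝ, E) : M → Type) x₀ with he
    let sl : (x : M) → (TangentSpace 𝓘(ℝ, E) x →L[ℝ] TangentSpace 𝓘(ℝ, E) x →L[ℝ] ℝ) := fun x =>
      pull (E := E) β (e.continuousLinearMapAt ℝ x)
    have hsl : ∀ x v w, sl x v w = β (e.continuousLinearMapAt ℝ x v) (e.continuousLinearMapAt ℝ x w) :=
      fun x v w => rfl
    refine ⟨e.baseSet, e.open_baseSet.mem_nhds (FiberBundle.mem_baseSet_trivializationAt' x₀),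
      sl, ?_, ?_⟩
    · set e' := trivializationAt (E →L[ℝ] E →L[ℝ] ℝ) (fun x : M => TangentSpace 𝓘(ℝ, E) x →L[ℝ]
        TangentSpace 𝓘(ℝ, E) x →L[ℝ] ℝ) x₀ with he'
      have hb : e'.baseSet = e.baseSet := by
        simp [he', he]
      rw [← hb]
      refine (Bundle.Trivialization.contMDiffOn_section_baseSet_iff (IB := 𝓘(ℝ, E)) (n := ∞)
        (F := E →L[ℝ] E →L[ℝ] ℝ) (E := fun x : M => TangentSpace 𝓘(ℝ, E) x →L[ℝ]
        TangentSpace 𝓘(ℝ, E) x →L[ℝ] ℝ) (s := sl) e').2 ?_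
      refine (contMDiffOn_const (c := β)).congr fun x hx => ?_
      rw [hb] at hx
      rw [he', hom_trivializationAt_apply]
      ext v w
      have h1 : ∀ u : E, e.continuousLinearMapAt ℝ x (e.symmL ℝ x u) = u := fun u =>
        e.continuousLinearMapAt_symmL (R := ℝ) hx u
      simp only [ContinuousLinearMap.inCoordinates, ContinuousLinearMap.comp_apply]
      have hx2 : x ∈ (trivializationAt (E →L[ℝ] ℝ) (fun x : M => TangentSpace 𝓘(ℝ, E) x →L[ℝ] ℝ)
          x₀).baseSet := by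
        simpa [he] using hx
      rw [Bundle.Trivialization.continuousLinearMapAt_apply, Bundle.Trivialization.linearMapAt_apply,
        if_pos hx2, hom_trivializationAt_apply]
      simp only [ContinuousLinearMap.inCoordinates, ContinuousLinearMap.comp_apply]
      have h2 : ∀ (y : ℝ), (Bundle.Trivialization.continuousLinearMapAt ℝ (trivializationAt ℝ
          (fun _ : M => ℝ) x₀) x) y = y := fun y => by
        simp
      refine (h2 _).trans ?_
      rw [hsl, h1, h1]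
    · intro y hy
      refine ⟨fun v w => hβ _ _, fun v hv => ?_⟩
      apply hβ2
      intro h0
      apply hv
      have h1 := e.symmL_continuousLinearMapAt (R := ℝ) hy v
      have h2 : e.continuousLinearMapAt ℝ y v = 0 := h0
      rw [h2, map_zero] at h1
      exact h1.symm
  obtain ⟨s, hs⟩ := exists_contMDiffSection_forall_mem_convex_of_local (n := ⊤) 𝓘(ℝ, E)
    (F_fiber := E →L[ℝ] E →L[ℝ] ℝ)
    (fun x : M => TangentSpace 𝓘(ℝ, E) x →L[ℝ] TangentSpace 𝓘(ℝ, E) x →L[ℝ] ℝ) t hconv hloc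
  exact ⟨⟨fun x => s x, fun x => (hs x).1, fun x => (hs x).2,
    fun x => isVonNBounded_aux (E := E) (s x) (hs x).2, s.contMDiff⟩⟩

/-- the squared length is smooth on the tangent bundle. -/
theorem contMDiff_sq (g : Bundle.ContMDiffRiemannianMetric 𝓘(ℝ, E) ∞ E
    (TangentSpace 𝓘(ℝ, E) : M → Type)) :
    ContMDiff 𝓘(ℝ, E).tangent 𝓘(ℝ, ℝ) ∞
      (fun v : TangentBundle 𝓘(ℝ, E) M => g.inner v.1 v.2 v.2) := by
  intro v
  have h1 : ContMDiffAt 𝓘(ℝ, E).tangent 𝓘(ℝ, E) ∞ (fun v : TangentBundle 𝓘(ℝ, E) M => v.1) v :=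
    (Bundle.contMDiff_proj (TangentSpace 𝓘(ℝ, E) : M → Type)).contMDiffAt
  have h2 := g.contMDiff.contMDiffAt.comp v h1
  have h3 : ContMDiffAt 𝓘(ℝ, E).tangent (𝓘(ℝ, E).prod 𝓘(ℝ, E)) ∞
      (fun v : TangentBundle 𝓘(ℝ, E) M => (Bundle.TotalSpace.mk' E v.1 v.2 :
        TangentBundle 𝓘(ℝ, E) M)) v := contMDiffAt_id
  have h4 := ContMDiffAt.clm_bundle_apply₂ (F₁ := E) (F₂ := E) (F₃ := ℝ)
    (E₃ := Bundle.Trivial M ℝ) h2 h3 h3
  rw [Bundle.contMDiffAt_totalSpace] at h4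
  exact h4.2

end Pool.Agent.Y331.PH
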