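import Pool.Agent.Y331.PH.Deck

/-!
# Compactness of the quotient
-/

set_option autoImplicit false

open scoped Topology ComplexConjugate
open Set Filter

namespace Pool.Agent.Y331.PH

/-- the coordinates `(x, s, w)`. -/
noncomputable def Phi (z : V3 × ℂ × WW) : EE := ((z.2.1 ^ 3)⁻¹ • z.1, z.2.1 ^ 2, z.2.2)

theorem continuousOn_Phi : ContinuousOn Phi {z | z.2.1 ≠ 0} := by
  have h1 : ContinuousOn (fun z : V3 × ℂ × WW => (z.2.1 ^ 3)⁻¹) {z | z.2.1 ≠ 0} := by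
    apply ContinuousOn.inv₀
    · fun_prop
    · intro z hz
      exact pow_ne_zero 3 hz
  have h2 : ContinuousOn (fun z : V3 × ℂ × WW => (z.2.1 ^ 3)⁻¹ • z.1) {z | z.2.1 ≠ 0} :=
    h1.smul continuousOn_fst
  have h3 : ContinuousOn (fun z : V3 × ℂ × WW => z.2.1 ^ 2) {z | z.2.1 ≠ 0} := by fun_prop
  have h4 : ContinuousOn (fun z : V3 × ℂ × WW => z.2.2) {z | z.2.1 ≠ 0} := by fun_prop
  exact h2.prodMk (h3.prodMk h4)

namespace Dat

variable (D : Dat)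

/-- the part of the base away from the lattice. -/
def A1 : Set V3 := {x | ‖x‖ ≤ D.R ∧ ∀ l ∈ D.L, D.r / 4 ≤ ‖x - l‖}
/-- an annulus. -/
def A2 : Set ℂ := {s | 1 ≤ ‖s‖ ∧ ‖s‖ ≤ 2}
/-- a ball in the fibre. -/
def A3 : Set WW := {w | ‖w‖ ≤ D.R}

/-- the first compact set. -/
def K1 : Set EE := Phi '' (D.A1 ×ˢ (A2 ×ˢ D.A3))

/-- the second compact set. -/
def K2 : Set EE := {b | (1 ≤ ‖b.1‖ ∧ ‖b.1‖ ≤ 8) ∧ ‖b.2.1‖ ^ 3 * ‖b.1‖ ^ 2 ≤ (D.r / 4) ^ 2 ∧
  ‖b.2.2‖ ≤ D.R}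

variable {D}

theorem isCompact_A1 : IsCompact D.A1 := by
  have h : D.A1 = Metric.closedBall 0 D.R ∩ ⋂ l ∈ D.L, {x | D.r / 4 ≤ ‖x - l‖} := by
    ext x
    simp [A1]
  rw [h]
  apply (isCompact_closedBall 0 D.R).inter_right
  refine isClosed_biInter fun l _ => ?_
  exact isClosed_le continuous_const (by fun_prop)

theorem isCompact_A2 : IsCompact A2 := by
  have h : A2 = Metric.closedBall (0 : ℂ) 2 ∩ {s | 1 ≤ ‖s‖} := by
    ext s
    simp only [A2, mem_inter_iff, mem_closedBall_zero_iff, mem_ofPred_eq]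
    tauto
  rw [h]
  exact (isCompact_closedBall 0 2).inter_right (isClosed_le continuous_const continuous_norm)

theorem isCompact_A3 : IsCompact D.A3 := by
  have h : D.A3 = Metric.closedBall 0 D.R := by
    ext x
    simp [A3]
  rw [h]
  exact isCompact_closedBall 0 D.R

theorem isCompact_K1 : IsCompact D.K1 := by
  apply (isCompact_A1.prod (isCompact_A2.prod isCompact_A3)).image_of_continuousOn
  refine continuousOn_Phi.mono ?_
  rintro ⟨x, s, w⟩ ⟨_, hs, _⟩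
  have h1 : 1 ≤ ‖s‖ := hs.1
  intro h0
  have h0' : s = 0 := h0
  rw [h0', norm_zero] at h1
  linarith

theorem isCompact_K2 : IsCompact D.K2 := by
  have h : D.K2 = (Metric.closedBall (0 : V3) 8 ×ˢ (Metric.closedBall (0 : ℂ) (1 + (D.r / 4) ^ 2) ×ˢ
      Metric.closedBall (0 : WW) D.R)) ∩ D.K2 := by
    refine (inter_eq_right.2 ?_).symm
    rintro ⟨v, u, w⟩ ⟨⟨h1, h2⟩, h3, h4⟩
    simp only at h1 h2 h3 h4
    refine ⟨by simpa using h2, ?_, by simpa using h4⟩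
    rw [mem_closedBall_zero_iff]
    simp only
    have h5 : ‖u‖ ^ 3 ≤ ‖u‖ ^ 3 * ‖v‖ ^ 2 := by
      have : 1 ≤ ‖v‖ ^ 2 := one_le_pow₀ h1
      have h6 : 0 ≤ ‖u‖ ^ 3 := by positivity
      nlinarith
    by_contra hcon
    push Not at hcon
    have h7 : 1 < ‖u‖ := by nlinarith [sq_nonneg (D.r / 4)]
    have h8 : ‖u‖ ≤ ‖u‖ ^ 3 := le_self_pow₀ h7.le (by norm_num)
    linarith
  rw [h]
  apply ((isCompact_closedBall 0 8).prod ((isCompact_closedBall 0 _).prod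
    (isCompact_closedBall 0 D.R))).inter_right
  have e : D.K2 = ({b : EE | 1 ≤ ‖b.1‖} ∩ {b : EE | ‖b.1‖ ≤ 8}) ∩
      ({b : EE | ‖b.2.1‖ ^ 3 * ‖b.1‖ ^ 2 ≤ (D.r / 4) ^ 2} ∩ {b : EE | ‖b.2.2‖ ≤ D.R}) := by
    ext b
    simp only [K2, mem_inter_iff, mem_ofPred_eq]
  rw [e]
  apply IsClosed.inter
  · exact (isClosed_le continuous_const (by fun_prop)).inter (isClosed_le (by fun_prop)
      continuous_const)
  · exact (isClosed_le (by fun_prop) continuous_const).inter (isClosed_le (by fun_prop)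
      continuous_const)

theorem K1_sub : D.K1 ⊆ D.U := by
  rintro _ ⟨⟨x, s, w⟩, ⟨hx, hs, -⟩, rfl⟩
  have hr := D.r_pos
  have hs1 : 1 ≤ ‖s‖ := hs.1
  have hs0 : s ≠ 0 := by
    intro h0
    rw [h0, norm_zero] at hs1
    linarith
  have hx2 : ∀ l ∈ D.L, D.r / 4 ≤ ‖x - l‖ := hx.2
  have hx0 : x ∉ D.L := fun h => by
    have := hx2 x h
    rw [sub_self, norm_zero] at this
    linarith
  constructor
  · intro h0
    have h1 : (s ^ 3)⁻¹ • x = 0 := h0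
    have h2 := (smul_eq_zero.1 h1).resolve_left (inv_ne_zero (pow_ne_zero 3 hs0))
    exact hx0 (by rw [h2]; exact D.L.zero_mem)
  · intro t ht htL
    exfalso
    have ht' : t ^ 2 = s ^ 2 := ht
    have htL' : t ^ 3 • (s ^ 3)⁻¹ • x ∈ D.L := htL
    rcases sq_eq_sq_iff_eq_or_eq_neg.1 ht' with h | h
    · rw [h, smul_smul, mul_inv_cancel₀ (pow_ne_zero 3 hs0), one_smul] at htL'
      exact hx0 htL'
    · have : t ^ 3 * (s ^ 3)⁻¹ = -1 := by
        rw [h]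
        field_simp
      rw [smul_smul, this, neg_one_smul] at htL'
      exact hx0 (by simpa using D.L.neg_mem htL')

theorem norm_cube (s : ℂ) (v : V3) : ‖s ^ 3 • v‖ ^ 2 = ‖s ^ 2‖ ^ 3 * ‖v‖ ^ 2 := by
  rw [norm_smul, norm_pow, norm_pow]
  ring

theorem K2_sub : D.K2 ⊆ D.U := by
  rintro b ⟨⟨h1, h2⟩, h3, h4⟩
  have hr := D.r_pos
  have hb0 : b.1 ≠ 0 := by
    intro h0
    rw [h0, norm_zero] at h1
    linarith
  refine ⟨hb0, fun s hs hsL => ?_⟩
  have h5 : ‖s ^ 3 • b.1‖ ^ 2 ≤ (D.r / 4) ^ 2 := by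
    rw [norm_cube, hs]
    exact h3
  have h6 : ‖s ^ 3 • b.1‖ ≤ D.r / 4 := by
    exact (sq_le_sq₀ (norm_nonneg _) (by positivity)).1 h5
  have h7 := D.L_sep _ hsL (by linarith)
  have h8 := (smul_eq_zero.1 h7).resolve_right hb0
  simpa using h8

theorem two_zpow_cube (n : ℤ) : ‖(2 : ℂ) ^ n‖ ^ 3 = (8 : ℝ) ^ n := by
  rw [norm_zpow, Complex.norm_two, ← zpow_natCast, ← zpow_mul, mul_comm, zpow_mul]
  norm_num

theorem cover {b : EE} (hb : b ∈ D.U) : ∃ b' ∈ D.K1 ∪ D.K2, D.rel b b' := by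
  have hr := D.r_pos
  obtain ⟨s, hs⟩ := exists_sq b.2.1
  -- the case near the lattice, in general
  have near : ∀ l ∈ D.L, (s = 0 → l = 0) → b.1 + (s ^ 3)⁻¹ • l ≠ 0 →
      ‖s ^ 3 • (b.1 + (s ^ 3)⁻¹ • l)‖ ≤ D.r / 4 → ∃ b' ∈ D.K1 ∪ D.K2, D.rel b b' := by
    intro l hl hz hne hle
    obtain ⟨n, hn⟩ := exists_mem_Ico_zpow (x := ‖b.1 + (s ^ 3)⁻¹ • l‖) (norm_pos_iff.2 hne)
      (y := (8 : ℝ)) (by norm_num)
    obtain ⟨k, hk, hkR⟩ := D.Lam_cov (b.2.2 - bet (s ^ 3 • b.1) l)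
    set b' : EE := ((((2 : ℂ) ^ n) ^ 3)⁻¹ • (b.1 + (s ^ 3)⁻¹ • l), ((2 : ℂ) ^ n) ^ 2 * b.2.1,
      b.2.2 - bet (s ^ 3 • b.1) l + k) with hb'
    have hR : Rl b b' s n l k := ⟨hs, hz, rfl, rfl, rfl⟩
    refine ⟨b', Or.inr ⟨?_, ?_, hkR⟩, hb, s, n, l, hl, k, hk, hR⟩
    · have h8 : (0 : ℝ) < 8 ^ n := by positivity
      have hnorm : ‖b'.1‖ = (8 ^ n)⁻¹ * ‖b.1 + (s ^ 3)⁻¹ • l‖ := by
        rw [hb']
        simp only
        rw [norm_smul, norm_inv, norm_pow, two_zpow_cube]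
      rw [hnorm]
      constructor
      · rw [le_inv_mul_iff₀ h8, mul_one]
        exact hn.1
      · rw [inv_mul_le_iff₀ h8]
        have := hn.2
        rw [zpow_add_one₀ (by norm_num)] at this
        linarith
    · have hx : ((2 : ℂ) ^ n * s) ^ 3 • b'.1 = s ^ 3 • (b.1 + (s ^ 3)⁻¹ • l) := by
        rw [hb']
        simp only
        rw [smul_smul]
        congr 1
        have := two_zpow_ne n
        field_simp
      have h1 := norm_cube ((2 : ℂ) ^ n * s) b'.1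
      rw [hR.sq', hx] at h1
      rw [← h1]
      exact pow_le_pow_left₀ (norm_nonneg _) hle 2
  rcases eq_or_ne s 0 with hs0 | hs0
  · refine near 0 D.L.zero_mem (fun _ => rfl) ?_ ?_
    · simpa using hb.1
    · rw [hs0]
      simp only [ne_eq, OfNat.ofNat_ne_zero, not_false_eq_true, zero_pow, zero_smul, norm_zero]
      positivity
  · by_cases hfar : ∀ l ∈ D.L, D.r / 4 ≤ ‖s ^ 3 • b.1 - l‖
    · obtain ⟨l, hl, hlR⟩ := D.L_cov (s ^ 3 • b.1)
      obtain ⟨m, hm⟩ := exists_mem_Ico_zpow (x := ‖s‖) (norm_pos_iff.2 hs0)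
        (y := (2 : ℝ)) (by norm_num)
      obtain ⟨k, hk, hkR⟩ := D.Lam_cov (b.2.2 - bet (s ^ 3 • b.1) l)
      set b' : EE := ((((2 : ℂ) ^ (-m)) ^ 3)⁻¹ • (b.1 + (s ^ 3)⁻¹ • l), ((2 : ℂ) ^ (-m)) ^ 2 * b.2.1,
        b.2.2 - bet (s ^ 3 • b.1) l + k) with hb'
      have hR : Rl b b' s (-m) l k := ⟨hs, fun h => (hs0 h).elim, rfl, rfl, rfl⟩
      refine ⟨b', Or.inl ?_, hb, s, -m, l, hl, k, hk, hR⟩
      refine ⟨(s ^ 3 • b.1 + l, (2 : ℂ) ^ (-m) * s, b.2.2 - bet (s ^ 3 • b.1) l + k),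
        ⟨⟨hlR, fun l' hl' => ?_⟩, ⟨?_, ?_⟩, hkR⟩, ?_⟩
      · have := hfar (l' - l) (D.L.sub_mem hl' hl)
        have e : s ^ 3 • b.1 + l - l' = s ^ 3 • b.1 - (l' - l) := by abel
        simp only
        rw [e]
        exact this
      · simp only
        have h2 : (0 : ℝ) < 2 ^ m := by positivity
        rw [norm_mul, norm_zpow, Complex.norm_two, zpow_neg, le_inv_mul_iff₀ h2, mul_one]
        exact hm.1
      · simp only
        have h2 : (0 : ℝ) < 2 ^ m := by positivity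
        rw [norm_mul, norm_zpow, Complex.norm_two, zpow_neg, inv_mul_le_iff₀ h2]
        have := hm.2
        rw [zpow_add_one₀ (by norm_num)] at this
        exact this.le
      · have h2 := two_zpow_ne (-m)
        refine Prod.ext ?_ (Prod.ext ?_ ?_)
        · simp only [Phi, hb']
          rw [mul_pow, mul_inv, mul_smul, smul_add, smul_smul (s ^ 3)⁻¹,
            inv_mul_cancel₀ (pow_ne_zero 3 hs0), one_smul]
        · simp only [Phi, hb']
          rw [← hs]; ring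
        · rfl
    · push Not at hfar
      obtain ⟨l, hl, hlr⟩ := hfar
      have e : s ^ 3 • (b.1 + (s ^ 3)⁻¹ • (-l)) = s ^ 3 • b.1 - l := by
        rw [smul_add, smul_smul, mul_inv_cancel₀ (pow_ne_zero 3 hs0), one_smul]
        abel
      refine near (-l) (D.L.neg_mem hl) (fun h => (hs0 h).elim) ?_ ?_
      · intro h0
        rw [h0, smul_zero] at e
        have : s ^ 3 • b.1 ∈ D.L := by
          rw [← sub_eq_zero.1 e.symm] at hl
          exact hl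
        exact hs0 (hb.2 s hs this)
      · rw [e]
        exact hlr.le

end Dat

end Pool.Agent.Y331.PH
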