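import Pool.Agent.Y331.PH.Nrm
import Pool.Agent.Y331.PH.Cover

/-!
# Comparison of the adapted norm with the norm of the model space
-/

set_option autoImplicit false

open scoped Topology ComplexConjugate
open Set Filter

namespace Pool.Agent.Y331.PH

theorem norm_bet_le (x y : V3) : ‖bet x y‖ ≤ ‖x‖ * ‖y‖ := by
  rw [pi_norm_le_iff_of_nonneg (by positivity)]
  rintro (⟨i, j⟩ | i)
  · rw [bet_inl, norm_mul, RCLike.norm_conj]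
    exact mul_le_mul (norm_le_pi_norm x i) (norm_le_pi_norm y j) (norm_nonneg _) (norm_nonneg _)
  · rw [bet_inr, norm_zero]
    positivity

namespace Dat

variable {D : Dat} {K : ℝ}

/-- comparability of the base part. -/
def Good (D : Dat) (K a : ℝ) (b : EE) : Prop := ∀ w : EE, ‖w.1‖ ≤ a * Nb D K b w ∧
  ‖w.2.1‖ ≤ a * Nb D K b w ∧ Nb D K b w ≤ a * (‖w.1‖ + ‖w.2.1‖)

theorem Nb_nonneg (hK : 0 ≤ K) (b w : EE) : 0 ≤ Nb D K b w := Ns_nonneg hK _ _ _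

theorem Good.mono {a a' : ℝ} {b : EE} (hK : 0 ≤ K) (h : Good D K a b) (haa : a ≤ a') :
    Good D K a' b := by
  intro w
  obtain ⟨h1, h2, h3⟩ := h w
  have := Nb_nonneg (D := D) hK b w
  refine ⟨h1.trans (by gcongr), h2.trans (by gcongr), h3.trans (by gcongr)⟩

theorem good_K2 (hK : 0 < K) : ∃ a > 0, ∀ b ∈ D.K2, Good D K a b := by
  refine ⟨8 + 2 / K + 1 + 4 * K, by positivity, ?_⟩
  rintro b hb w
  have hbU := K2_sub hb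
  obtain ⟨⟨h1, h2⟩, h3, h4⟩ := hb
  have hr := D.r_pos
  obtain ⟨s, hs⟩ := exists_sq b.2.1
  have h5 : ‖s ^ 3 • b.1‖ ^ 2 ≤ (D.r / 4) ^ 2 := by
    rw [norm_cube, hs]
    exact h3
  have h6 : ‖s ^ 3 • b.1‖ ≤ D.r / 4 := (sq_le_sq₀ (norm_nonneg _) (by positivity)).1 h5
  rw [Nb_eq K w hs, Ns_near K w hbU.1 (by linarith)]
  have hb' : 0 < ‖b.1‖ := by linarith
  have p1 : 1 ≤ psi ‖b.1‖ := one_le_psi h1
  have p2 : psi ‖b.1‖ ≤ 8 := (psi_le_self h1).trans h2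
  have q1 : ‖w.1‖ / 8 ≤ ‖w.1‖ / ‖b.1‖ := by gcongr
  have q2 : ‖w.1‖ / ‖b.1‖ ≤ ‖w.1‖ := div_le_self (norm_nonneg _) h1
  have q3 : K * (1 * (‖w.2.1‖ / 2)) ≤ K * (psi ‖b.1‖ * (‖w.2.1‖ / 2)) := by gcongr
  have q4 : K * (psi ‖b.1‖ * (‖w.2.1‖ / 2)) ≤ K * (8 * (‖w.2.1‖ / 2)) := by gcongr
  set X := ‖w.1‖ / ‖b.1‖ + K * (psi ‖b.1‖ * (‖w.2.1‖ / 2)) with hX
  have n1 := norm_nonneg w.1
  have n2 := norm_nonneg w.2.1
  have hX0 : 0 ≤ X := by positivity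
  have r0 : 0 ≤ 2 / K * X := by positivity
  have r0' : 0 ≤ 4 * K * X := by positivity
  have r1 : ‖w.1‖ ≤ 8 * X := by
    have : 0 ≤ K * (1 * (‖w.2.1‖ / 2)) := by positivity
    linarith
  have r2 : ‖w.2.1‖ ≤ 2 / K * X := by
    have h7 : K * (1 * (‖w.2.1‖ / 2)) ≤ X := by
      have : 0 ≤ ‖w.1‖ / 8 := by positivity
      linarith
    calc ‖w.2.1‖ = 2 / K * (K * (1 * (‖w.2.1‖ / 2))) := by field_simp
      _ ≤ 2 / K * X := by gcongr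
  refine ⟨?_, ?_, ?_⟩
  · calc ‖w.1‖ ≤ 8 * X := r1
      _ ≤ (8 + 2 / K + 1 + 4 * K) * X := by nlinarith
  · calc ‖w.2.1‖ ≤ 2 / K * X := r2
      _ ≤ (8 + 2 / K + 1 + 4 * K) * X := by nlinarith
  · calc X ≤ ‖w.1‖ + K * (8 * (‖w.2.1‖ / 2)) := by linarith
      _ = 1 * ‖w.1‖ + 4 * K * ‖w.2.1‖ := by ring
      _ ≤ (8 + 2 / K + 1 + 4 * K) * ‖w.1‖ + (8 + 2 / K + 1 + 4 * K) * ‖w.2.1‖ := by
        have : 0 < 2 / K := by positivity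
        gcongr
        · linarith
        · linarith
      _ = _ := by ring

theorem good_K1 (hK : 0 < K) : ∃ a > 0, ∀ b ∈ D.K1, Good D K a b := by
  have hr := D.r_pos
  -- constants
  obtain ⟨P, hP⟩ : ∃ P, P = K * psi (D.r / 4) := ⟨_, rfl⟩
  have hP0 : 0 < P := by rw [hP]; exact mul_pos hK (psi_pos (by positivity))
  obtain ⟨Q, hQ⟩ : ∃ Q, Q = K * psi (max D.R 1) := ⟨_, rfl⟩
  have hQ0 : 0 < Q := by rw [hQ]; exact mul_pos hK (psi_pos (by positivity))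
  obtain ⟨R, hR⟩ : ∃ R, R = max D.R 1 := ⟨_, rfl⟩
  have hR1 : 1 ≤ R := by rw [hR]; exact le_max_right _ _
  have hRR : D.R ≤ R := by rw [hR]; exact le_max_left _ _
  have hQ' : Q = K * psi R := by rw [hQ, hR]
  refine ⟨(R + 27 * R / P) + 8 / P + ((8 + 5 * R) / (D.r / 4) + Q), by positivity, ?_⟩
  rintro _ ⟨⟨x, s, w₀⟩, ⟨hx, hs, hw₀⟩, rfl⟩ w
  have hs1 : 1 ≤ ‖s‖ := hs.1
  have hs2 : ‖s‖ ≤ 2 := hs.2
  have hx1 : ‖x‖ ≤ R := le_trans hx.1 hRR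
  have hx2 : ∀ l ∈ D.L, D.r / 4 ≤ ‖x - l‖ := hx.2
  have hs0 : s ≠ 0 := by
    intro h0
    rw [h0, norm_zero] at hs1
    linarith
  have hn : 0 < ‖s‖ := by linarith
  obtain ⟨b, hb⟩ : ∃ b, b = Phi (x, s, w₀) := ⟨_, rfl⟩
  have hb1 : b.1 = (s ^ 3)⁻¹ • x := by rw [hb]; rfl
  have hb2 : s ^ 2 = b.2.1 := by rw [hb]; rfl
  have hb3 : s ^ 3 • b.1 = x := by
    rw [hb1, smul_smul, mul_inv_cancel₀ (pow_ne_zero 3 hs0), one_smul]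
  rw [← hb]
  have hbn : ‖b.1‖ ≤ R := by
    rw [hb1, norm_smul, norm_inv, norm_pow]
    have : 1 ≤ ‖s‖ ^ 3 := one_le_pow₀ hs1
    calc (‖s‖ ^ 3)⁻¹ * ‖x‖ ≤ 1 * ‖x‖ := by gcongr; exact inv_le_one_of_one_le₀ this
      _ ≤ R := by linarith
  rw [Nb_eq K w hb2]
  unfold Ns
  rw [if_neg hs0, hb3]
  obtain ⟨σ, hσ⟩ : ∃ σ, σ = w.2.1 / (2 * s ^ 2) := ⟨_, rfl⟩
  rw [← hσ]
  obtain ⟨ρ, hρ⟩ : ∃ ρ, ρ = D.rho x := ⟨_, rfl⟩
  rw [← hρ]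
  have ρ1 : D.r / 4 ≤ ρ := by rw [hρ]; exact le_rho hx2
  have ρ2 : ρ ≤ R := by rw [hρ]; exact (rho_le_norm x).trans hx1
  have ρ0 : 0 < ρ := by linarith
  have haa : ‖D.aa x‖ ≤ R := (aa_le x).trans (by rw [← hρ]; exact ρ2)
  have hψ1 : P ≤ K * psi ρ := by
    rw [hP]
    exact mul_le_mul_of_nonneg_left (psi_mono (by positivity) ρ1) hK.le
  have hψ2 : K * psi ρ ≤ Q := by
    rw [hQ']
    exact mul_le_mul_of_nonneg_left (psi_mono ρ0.le ρ2) hK.le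
  -- the logarithmic velocity
  have hσn : ‖σ‖ = ‖w.2.1‖ / (2 * ‖s‖ ^ 2) := by
    rw [hσ, norm_div, norm_mul, norm_pow, Complex.norm_two]
  have hσ1 : ‖w.2.1‖ ≤ 8 * ‖σ‖ := by
    rw [hσn, ← mul_div_assoc, le_div_iff₀ (by positivity)]
    have : ‖s‖ ^ 2 ≤ 4 := by nlinarith
    nlinarith [norm_nonneg w.2.1]
  have hσ2 : ‖σ‖ ≤ ‖w.2.1‖ / 2 := by
    rw [hσn]
    have : 1 ≤ ‖s‖ ^ 2 := one_le_pow₀ hs1
    gcongr
    linarith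
  obtain ⟨v, hv⟩ : ∃ v, v = xd b w s - (3 * σ) • D.aa x := ⟨_, rfl⟩
  rw [← hv]
  have t1 : ‖(3 * σ) • D.aa x‖ ≤ 3 * ‖σ‖ * R := by
    rw [norm_smul, norm_mul]
    have : ‖(3 : ℂ)‖ = 3 := by norm_num
    rw [this]
    gcongr
  have t2 : ‖(3 / 2 * s * w.2.1) • b.1‖ ≤ 3 * ‖w.2.1‖ * R := by
    rw [norm_smul, norm_mul, norm_mul]
    have : ‖(3 / 2 : ℂ)‖ = 3 / 2 := by norm_num
    rw [this]
    calc 3 / 2 * ‖s‖ * ‖w.2.1‖ * ‖b.1‖ ≤ 3 / 2 * 2 * ‖w.2.1‖ * R := by gcongr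
      _ = _ := by ring
  have t3 : ‖s ^ 3 • w.1‖ ≤ 8 * ‖w.1‖ := by
    rw [norm_smul, norm_pow]
    have : ‖s‖ ^ 3 ≤ 2 ^ 3 := pow_le_pow_left₀ (norm_nonneg _) hs2 3
    gcongr
    linarith
  have t4 : ‖w.1‖ ≤ ‖s ^ 3 • w.1‖ := by
    rw [norm_smul, norm_pow]
    have : 1 ≤ ‖s‖ ^ 3 := one_le_pow₀ hs1
    exact le_mul_of_one_le_left (norm_nonneg _) this
  have n1 := norm_nonneg w.1
  have n2 := norm_nonneg w.2.1
  have nσ := norm_nonneg σ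
  have nv := norm_nonneg v
  obtain ⟨X, hX⟩ : ∃ X, X = ‖v‖ / ρ + K * (psi ρ * ‖σ‖) := ⟨_, rfl⟩
  rw [← hX]
  have hX1 : ‖v‖ / ρ ≤ X := by
    have : 0 ≤ K * (psi ρ * ‖σ‖) := by
      have := psi_nonneg ρ0.le
      positivity
    linarith
  have hX2 : P * ‖σ‖ ≤ X := by
    have : 0 ≤ ‖v‖ / ρ := by positivity
    calc P * ‖σ‖ ≤ K * psi ρ * ‖σ‖ := by gcongr
      _ = K * (psi ρ * ‖σ‖) := by ring
      _ ≤ X := by linarith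
  have hX0 : 0 ≤ X := le_trans (by positivity) hX1
  have s1 : ‖v‖ ≤ R * X := by
    rw [div_le_iff₀ ρ0] at hX1
    calc ‖v‖ ≤ X * ρ := hX1
      _ ≤ X * R := by gcongr
      _ = R * X := by ring
  have s2 : ‖σ‖ ≤ X / P := by
    rw [le_div_iff₀ hP0]
    linarith
  have s3 : ‖w.2.1‖ ≤ 8 / P * X := by
    calc ‖w.2.1‖ ≤ 8 * ‖σ‖ := hσ1
      _ ≤ 8 * (X / P) := by gcongr
      _ = 8 / P * X := by ring
  have s4 : ‖w.1‖ ≤ (R + 27 * R / P) * X := by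
    have e1 : s ^ 3 • w.1 = v + (3 * σ) • D.aa x - (3 / 2 * s * w.2.1) • b.1 := by
      rw [hv, xd]
      abel
    calc ‖w.1‖ ≤ ‖s ^ 3 • w.1‖ := t4
      _ ≤ ‖v‖ + ‖(3 * σ) • D.aa x‖ + ‖(3 / 2 * s * w.2.1) • b.1‖ := by
        rw [e1]
        exact (norm_sub_le _ _).trans (add_le_add (norm_add_le _ _) le_rfl)
      _ ≤ R * X + 3 * (X / P) * R + 3 * (8 / P * X) * R := by
        refine add_le_add (add_le_add s1 (t1.trans ?_)) (t2.trans ?_)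
        · gcongr
        · gcongr
      _ = (R + 27 * R / P) * X := by ring
  have s5 : X ≤ ((8 + 5 * R) / (D.r / 4) + Q) * (‖w.1‖ + ‖w.2.1‖) := by
    have e2 : ‖v‖ ≤ 8 * ‖w.1‖ + 5 * R * ‖w.2.1‖ := by
      calc ‖v‖ ≤ ‖xd b w s‖ + ‖(3 * σ) • D.aa x‖ := by rw [hv]; exact norm_sub_le _ _
        _ ≤ (‖s ^ 3 • w.1‖ + ‖(3 / 2 * s * w.2.1) • b.1‖) + ‖(3 * σ) • D.aa x‖ := by
          gcongr
          exact norm_add_le _ _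
        _ ≤ (8 * ‖w.1‖ + 3 * ‖w.2.1‖ * R) + 3 * (‖w.2.1‖ / 2) * R := by
          refine add_le_add (add_le_add t3 t2) (t1.trans ?_)
          gcongr
        _ ≤ 8 * ‖w.1‖ + 5 * R * ‖w.2.1‖ := by nlinarith
    have e3 : ‖v‖ ≤ (8 + 5 * R) * (‖w.1‖ + ‖w.2.1‖) := by nlinarith
    have e4 : ‖v‖ / ρ ≤ (8 + 5 * R) / (D.r / 4) * (‖w.1‖ + ‖w.2.1‖) := by
      calc ‖v‖ / ρ ≤ ((8 + 5 * R) * (‖w.1‖ + ‖w.2.1‖)) / (D.r / 4) := by gcongr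
        _ = _ := by ring
    have e5 : K * (psi ρ * ‖σ‖) ≤ Q * (‖w.1‖ + ‖w.2.1‖) := by
      calc K * (psi ρ * ‖σ‖) = K * psi ρ * ‖σ‖ := by ring
        _ ≤ Q * (‖w.2.1‖ / 2) := by gcongr
        _ ≤ Q * (‖w.1‖ + ‖w.2.1‖) := by
          gcongr
          linarith
    rw [hX]
    linarith
  have k1 : 0 < R + 27 * R / P := by positivity
  have k2 : 0 < 8 / P := by positivity
  have k3 : 0 < (8 + 5 * R) / (D.r / 4) + Q := by positivity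
  refine ⟨s4.trans (mul_le_mul_of_nonneg_right (by linarith) hX0),
    s3.trans (mul_le_mul_of_nonneg_right (by linarith) hX0),
    s5.trans (mul_le_mul_of_nonneg_right (by linarith) (by positivity))⟩

theorem compare_NN (hK : 0 < K) : ∃ c₁ > 0, ∃ C₁ > 0, ∀ b ∈ D.K1 ∪ D.K2, ∀ w,
    c₁ * ‖w‖ ≤ NN D K b w ∧ NN D K b w ≤ C₁ * ‖w‖ := by
  obtain ⟨a₁, ha₁, h₁⟩ := good_K1 (D := D) hK
  obtain ⟨a₂, ha₂, h₂⟩ := good_K2 (D := D) hK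
  obtain ⟨a, ha⟩ : ∃ a, a = max a₁ a₂ := ⟨_, rfl⟩
  have ha0 : 0 < a := by rw [ha]; exact lt_max_of_lt_left ha₁
  have hgood : ∀ b ∈ D.K1 ∪ D.K2, Good D K a b := by
    rintro b (hb | hb)
    · exact (h₁ b hb).mono hK.le (by rw [ha]; exact le_max_left _ _)
    · exact (h₂ b hb).mono hK.le (by rw [ha]; exact le_max_right _ _)
  obtain ⟨B, hB⟩ := (isCompact_K1.union (isCompact_K2 (D := D))).exists_bound_of_continuousOn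
    (f := fun b : EE => b) continuousOn_id
  obtain ⟨M, hM⟩ : ∃ M, M = max B 0 := ⟨_, rfl⟩
  have hM0 : 0 ≤ M := by rw [hM]; exact le_max_right _ _
  have hBM : B ≤ M := by rw [hM]; exact le_max_left _ _
  refine ⟨(a + 1 + 4 * a * M ^ 4)⁻¹, by positivity, 2 * a + 1 + 4 * M ^ 4, by positivity, ?_⟩
  intro b hb w
  have hb1 : ‖b.1‖ ≤ M := ((norm_fst_le b).trans (hB b hb)).trans hBM
  have hb2 : ‖b.2.1‖ ≤ M :=
    (((norm_fst_le b.2).trans (norm_snd_le b)).trans (hB b hb)).trans hBM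
  obtain ⟨g1, g2, g3⟩ := hgood b hb w
  have hN0 := Nb_nonneg (D := D) hK.le b w
  have w1 : ‖w.1‖ ≤ ‖w‖ := norm_fst_le w
  have w2 : ‖w.2.1‖ ≤ ‖w‖ := (norm_fst_le w.2).trans (norm_snd_le w)
  have w3 : ‖w.2.2‖ ≤ ‖w‖ := (norm_snd_le w.2).trans (norm_snd_le w)
  have n0 := norm_nonneg w
  have n1 := norm_nonneg w.1
  have n2 := norm_nonneg w.2.1
  have hrem : ‖th b w - w.2.2‖ ≤ 2 * M ^ 4 * (‖w.1‖ + ‖w.2.1‖) := by
    have e : th b w - w.2.2 = ((‖b.2.1‖ ^ 3 : ℝ) : ℂ) • bet w.1 b.1 +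
        (3 / 2 * w.2.1 * (‖b.2.1‖ : ℂ) * conj b.2.1) • bet b.1 b.1 := by
      unfold th
      abel
    rw [e]
    refine (norm_add_le _ _).trans ?_
    rw [norm_smul, norm_smul]
    have e1 : ‖((‖b.2.1‖ ^ 3 : ℝ) : ℂ)‖ = ‖b.2.1‖ ^ 3 := by
      rw [Complex.norm_real, Real.norm_of_nonneg (by positivity)]
    have e2 : ‖(3 / 2 * w.2.1 * (‖b.2.1‖ : ℂ) * conj b.2.1)‖ = 3 / 2 * ‖w.2.1‖ * ‖b.2.1‖ * ‖b.2.1‖ := by
      rw [norm_mul, norm_mul, norm_mul, RCLike.norm_conj, Complex.norm_real, norm_norm]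
      norm_num
    rw [e1, e2]
    calc ‖b.2.1‖ ^ 3 * ‖bet w.1 b.1‖ + 3 / 2 * ‖w.2.1‖ * ‖b.2.1‖ * ‖b.2.1‖ * ‖bet b.1 b.1‖
        ≤ M ^ 3 * (‖w.1‖ * M) + 3 / 2 * ‖w.2.1‖ * M * M * (M * M) := by
          gcongr
          · exact (norm_bet_le _ _).trans (by gcongr)
          · exact (norm_bet_le _ _).trans (by gcongr)
      _ = 1 * (M ^ 4 * ‖w.1‖) + 3 / 2 * (M ^ 4 * ‖w.2.1‖) := by ring
      _ ≤ 2 * (M ^ 4 * ‖w.1‖) + 2 * (M ^ 4 * ‖w.2.1‖) := by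
          gcongr
          · norm_num
          · norm_num
      _ = 2 * M ^ 4 * (‖w.1‖ + ‖w.2.1‖) := by ring
  unfold NN
  obtain ⟨X, hX⟩ : ∃ X, X = Nb D K b w := ⟨_, rfl⟩
  rw [← hX] at g1 g2 g3 hN0 ⊢
  have hM4 : 0 ≤ M ^ 4 := by positivity
  constructor
  · rw [inv_mul_le_iff₀ (by positivity)]
    have hth := norm_nonneg (th b w)
    have f1 : ‖w.2.2‖ ≤ ‖th b w‖ + 2 * M ^ 4 * (‖w.1‖ + ‖w.2.1‖) := by
      calc ‖w.2.2‖ = ‖th b w - (th b w - w.2.2)‖ := by congr 1; abel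
        _ ≤ ‖th b w‖ + ‖th b w - w.2.2‖ := norm_sub_le _ _
        _ ≤ _ := by gcongr
    have f2 : ‖w.2.2‖ ≤ ‖th b w‖ + 4 * a * M ^ 4 * X := by
      calc ‖w.2.2‖ ≤ ‖th b w‖ + 2 * M ^ 4 * (‖w.1‖ + ‖w.2.1‖) := f1
        _ ≤ ‖th b w‖ + 2 * M ^ 4 * (a * X + a * X) := by gcongr
        _ = _ := by ring
    have hp1 : 0 ≤ a * X := by positivity
    have hp2 : 0 ≤ a * M ^ 4 * X := by positivity
    have hp3 : 0 ≤ a * ‖th b w‖ := by positivity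
    have hp4 : 0 ≤ a * M ^ 4 * ‖th b w‖ := by positivity
    rw [Prod.norm_def]
    refine max_le ?_ ?_
    · calc ‖w.1‖ ≤ a * X := g1
        _ ≤ (a + 1 + 4 * a * M ^ 4) * (X + ‖th b w‖) := by nlinarith
    · rw [Prod.norm_def]
      refine max_le ?_ ?_
      · calc ‖w.2.1‖ ≤ a * X := g2
          _ ≤ (a + 1 + 4 * a * M ^ 4) * (X + ‖th b w‖) := by nlinarith
      · calc ‖w.2.2‖ ≤ ‖th b w‖ + 4 * a * M ^ 4 * X := f2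
          _ ≤ (a + 1 + 4 * a * M ^ 4) * (X + ‖th b w‖) := by nlinarith
  · have f3 : ‖th b w‖ ≤ ‖w.2.2‖ + 2 * M ^ 4 * (‖w.1‖ + ‖w.2.1‖) := by
      calc ‖th b w‖ = ‖w.2.2 + (th b w - w.2.2)‖ := by congr 1; abel
        _ ≤ ‖w.2.2‖ + ‖th b w - w.2.2‖ := norm_add_le _ _
        _ ≤ _ := by gcongr
    calc X + ‖th b w‖ ≤ a * (‖w.1‖ + ‖w.2.1‖) + (‖w.2.2‖ + 2 * M ^ 4 * (‖w.1‖ + ‖w.2.1‖)) := by
          gcongr
      _ ≤ a * (‖w‖ + ‖w‖) + (‖w‖ + 2 * M ^ 4 * (‖w‖ + ‖w‖)) := by gcongr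
      _ = (2 * a + 1 + 4 * M ^ 4) * ‖w‖ := by ring

end Dat

end Pool.Agent.Y331.PH
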