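import Pool.Agent.Y331.PH.Lim

/-!
# The local maps of the relation
-/

set_option autoImplicit false

open scoped Topology ComplexConjugate ContDiff
open Set Filter

namespace Pool.Agent.Y331.PH

/-- the branch of the square root at `s²` with value `s`. -/
noncomputable def br (s u : ℂ) : ℂ := s * Complex.exp (Complex.log (u / s ^ 2) / 2)

theorem br_self (s : ℂ) : br s (s ^ 2) = s := by
  rcases eq_or_ne s 0 with rfl | hs
  · simp [br]
  · have : s ^ 2 / s ^ 2 = 1 := div_self (pow_ne_zero 2 hs)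
    simp [br, this]

theorem br_sq {s u : ℂ} (hs : s ≠ 0) (hu : u ≠ 0) : br s u ^ 2 = u := by
  unfold br
  rw [mul_pow, ← Complex.exp_nat_mul]
  have h1 : ((2 : ℕ) : ℂ) * (Complex.log (u / s ^ 2) / 2) = Complex.log (u / s ^ 2) := by
    push_cast
    ring
  rw [h1, Complex.exp_log (div_ne_zero hu (pow_ne_zero 2 hs))]
  field_simp

theorem br_contDiffAt {s : ℂ} (hs : s ≠ 0) : ContDiffAt ℂ ω (br s) (s ^ 2) := by
  unfold br
  have h1 : s ^ 2 / s ^ 2 = 1 := div_self (pow_ne_zero 2 hs)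
  have h2 : ContDiffAt ℂ ω Complex.log (s ^ 2 / s ^ 2) := by
    rw [h1]
    exact Complex.contDiffAt_log Complex.one_mem_slitPlane
  have h3 : ContDiffAt ℂ ω (fun u : ℂ => u / s ^ 2) (s ^ 2) := contDiffAt_id.div_const _
  have h4 : ContDiffAt ℂ ω (fun u : ℂ => Complex.log (u / s ^ 2)) (s ^ 2) :=
    ContDiffAt.comp (g := Complex.log) (f := fun u : ℂ => u / s ^ 2) (s ^ 2) h2 h3
  exact contDiffAt_const.mul (Complex.contDiff_exp.contDiffAt.comp _ (h4.div_const 2))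

theorem br_hasDerivAt {s : ℂ} (hs : s ≠ 0) : HasDerivAt (br s) (1 / (2 * s)) (s ^ 2) := by
  unfold br
  have h1 : s ^ 2 / s ^ 2 = 1 := div_self (pow_ne_zero 2 hs)
  have h3 : HasDerivAt (fun u : ℂ => u / s ^ 2) (1 / s ^ 2) (s ^ 2) :=
    (hasDerivAt_id (s ^ 2)).div_const _
  have h4 := (h3.clog (by rw [h1]; exact Complex.one_mem_slitPlane)).div_const 2
  have h5 := h4.cexp.const_mul s
  refine h5.congr_deriv ?_
  rw [h1]
  simp only [Complex.log_one, zero_div, Complex.exp_zero]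
  field_simp

/-- the map `x ↦ bet x l`. -/
noncomputable def betL (l : V3) : V3 →L[ℂ] WW :=
  LinearMap.toContinuousLinearMap
    { toFun := fun x => bet x l
      map_add' := fun x y => bet_add_left x y l
      map_smul' := fun c x => bet_smul_left c x l }

@[simp] theorem betL_apply (l x : V3) : betL l x = bet x l := rfl

/-- the local maps. -/
noncomputable def phi (s : ℂ) (n : ℤ) (l : V3) (k : WW) (b : EE) : EE :=
  ((((2 : ℂ) ^ n) ^ 3)⁻¹ • (b.1 + ((br s b.2.1) ^ 3)⁻¹ • l), ((2 : ℂ) ^ n) ^ 2 * b.2.1,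
    b.2.2 - bet ((br s b.2.1) ^ 3 • b.1) l + k)

/-- their derivatives. -/
noncomputable def dphi (b : EE) (s : ℂ) (n : ℤ) (l : V3) (w : EE) : EE :=
  ((((2 : ℂ) ^ n) ^ 3)⁻¹ • (w.1 - (3 / 2 * w.2.1 * (s ^ 5)⁻¹) • l), ((2 : ℂ) ^ n) ^ 2 * w.2.1,
    w.2.2 - bet (s ^ 3 • w.1 + (3 / 2 * s * w.2.1) • b.1) l)

variable {b b' : EE} {s : ℂ} {n : ℤ} {l : V3} {k : WW}

theorem phi_self (h : Rl b b' s n l k) : phi s n l k b = b' := by
  have h1 : br s b.2.1 = s := by rw [← h.sq, br_self]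
  unfold phi
  rw [h1]
  exact Prod.ext h.h1.symm (Prod.ext h.h2.symm h.h3.symm)

theorem phi_Rl (h : Rl b b' s n l k) : ∀ᶠ z in 𝓝 b, ∃ t, Rl z (phi s n l k z) t n l k := by
  rcases eq_or_ne s 0 with hs | hs
  · have hl := h.zr hs
    refine Eventually.of_forall fun z => ?_
    obtain ⟨t, ht⟩ := Dat.exists_sq z.2.1
    refine ⟨t, ht, fun _ => hl, ?_, rfl, ?_⟩
    · simp [phi, hl]
    · simp [phi, hl]
  · have hu : b.2.1 ≠ 0 := by rw [← h.sq]; exact pow_ne_zero 2 hs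
    have h1 : ∀ᶠ z : EE in 𝓝 b, z.2.1 ≠ 0 :=
      ((continuous_fst.comp continuous_snd).tendsto b).eventually_ne hu
    filter_upwards [h1] with z hz
    have h2 := br_sq hs hz
    refine ⟨br s z.2.1, h2, fun h0 => ?_, rfl, rfl, rfl⟩
    rw [h0] at h2
    exact (hz (by rw [← h2]; simp)).elim

/-- the second coordinate. -/
noncomputable def pj : EE →L[ℂ] ℂ :=
  (ContinuousLinearMap.fst ℂ ℂ WW).comp (ContinuousLinearMap.snd ℂ V3 (ℂ × WW))

theorem pj_apply (z : EE) : pj z = z.2.1 := rfl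

theorem phi_contDiffAt (h : Rl b b' s n l k) : ContDiffAt ℂ ω (phi s n l k) b := by
  rcases eq_or_ne s 0 with hs | hs
  · have hl := h.zr hs
    have e : phi s n l k = fun z : EE => ((((2 : ℂ) ^ n) ^ 3)⁻¹ • z.1, ((2 : ℂ) ^ n) ^ 2 * z.2.1,
        z.2.2 + k) := by
      funext z
      simp [phi, hl]
    rw [e]
    apply ContDiff.contDiffAt
    fun_prop
  · have h1 : ContDiffAt ℂ ω (fun z : EE => br s z.2.1) b := by
      have h2 := br_contDiffAt hs
      rw [h.sq] at h2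
      exact ContDiffAt.comp (g := br s) (f := fun z : EE => z.2.1) b h2 pj.contDiff.contDiffAt
    have hbr : br s b.2.1 ^ 3 ≠ 0 := by
      rw [← h.sq, br_self]
      exact pow_ne_zero 3 hs
    have h3 : ContDiffAt ℂ ω (fun z : EE => ((br s z.2.1) ^ 3)⁻¹) b := (h1.pow 3).inv hbr
    have h4 : ContDiffAt ℂ ω (fun z : EE => (br s z.2.1) ^ 3 • z.1) b :=
      (h1.pow 3).smul contDiffAt_fst
    have h5 : ContDiffAt ℂ ω (fun z : EE => betL l ((br s z.2.1) ^ 3 • z.1)) b :=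
      (betL l).contDiff.contDiffAt.comp b h4
    have h6 : ContDiffAt ℂ ω (fun z : EE => z.2.2) b := (contDiff_snd.comp contDiff_snd).contDiffAt
    have h7 : ContDiffAt ℂ ω (fun z : EE => z.2.1) b := pj.contDiff.contDiffAt
    have h8 : ContDiffAt ℂ ω (fun z : EE => ((br s z.2.1) ^ 3)⁻¹ • l) b := h3.smul contDiffAt_const
    have h9 : ContDiffAt ℂ ω (fun z : EE => z.1 + ((br s z.2.1) ^ 3)⁻¹ • l) b :=
      contDiffAt_fst.add h8
    have h10 : ContDiffAt ℂ ω (fun z : EE => (((2 : ℂ) ^ n) ^ 3)⁻¹ •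
        (z.1 + ((br s z.2.1) ^ 3)⁻¹ • l)) b := h9.const_smul _
    refine ContDiffAt.prodMk h10 (ContDiffAt.prodMk ?_ ?_)
    · exact contDiffAt_const.mul h7
    · exact (h6.sub h5).add contDiffAt_const

theorem phi_fderiv (h : Rl b b' s n l k) (w : EE) : fderiv ℂ (phi s n l k) b w = dphi b s n l w := by
  have hd : HasFDerivAt (fun z : EE => z.2.1) pj b := pj.hasFDerivAt
  have h22 : HasFDerivAt (fun z : EE => z.2.2)
      ((ContinuousLinearMap.snd ℂ ℂ WW).comp (ContinuousLinearMap.snd ℂ V3 (ℂ × WW))) b :=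
    ((ContinuousLinearMap.snd ℂ ℂ WW).comp (ContinuousLinearMap.snd ℂ V3 (ℂ × WW))).hasFDerivAt
  rcases eq_or_ne s 0 with hs | hs
  · have hl := h.zr hs
    have e : phi s n l k = fun z : EE => ((((2 : ℂ) ^ n) ^ 3)⁻¹ • z.1, ((2 : ℂ) ^ n) ^ 2 * z.2.1,
        z.2.2 + k) := by
      funext z
      simp [phi, hl]
    have h1 := (hasFDerivAt_fst (𝕜 := ℂ) (p := b)).const_smul ((((2 : ℂ) ^ n) ^ 3)⁻¹)
    have h2 := hd.const_mul (((2 : ℂ) ^ n) ^ 2)
    have h3 := h22.add_const k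
    have h4 := h1.prodMk (h2.prodMk h3)
    rw [e]
    have h5 : fderiv ℂ (fun z : EE => ((((2 : ℂ) ^ n) ^ 3)⁻¹ • z.1, ((2 : ℂ) ^ n) ^ 2 * z.2.1,
        z.2.2 + k)) b = _ := h4.fderiv
    rw [h5]
    simp [dphi, hs, hl, pj_apply]
  · have hA : HasDerivAt (fun u => ((br s u) ^ 3)⁻¹) (-(3 / 2 * (s ^ 5)⁻¹)) b.2.1 := by
      rw [← h.sq]
      have h1 := (br_hasDerivAt hs).fun_pow 3
      have h2 := h1.fun_inv (by rw [br_self]; exact pow_ne_zero 3 hs)
      refine h2.congr_deriv ?_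
      rw [br_self]
      field_simp
      ring
    have hC : HasDerivAt (fun u => (br s u) ^ 3) (3 / 2 * s) b.2.1 := by
      rw [← h.sq]
      have h1 := (br_hasDerivAt hs).fun_pow 3
      refine h1.congr_deriv ?_
      rw [br_self]
      field_simp
      ring
    have hA' : HasFDerivAt (fun z : EE => ((br s z.2.1) ^ 3)⁻¹) ((-(3 / 2 * (s ^ 5)⁻¹)) • pj) b :=
      HasDerivAt.comp_hasFDerivAt (h₂ := fun u => ((br s u) ^ 3)⁻¹) (f := fun z : EE => z.2.1)
        b hA hd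
    have hC' : HasFDerivAt (fun z : EE => (br s z.2.1) ^ 3) ((3 / 2 * s) • pj) b :=
      HasDerivAt.comp_hasFDerivAt (h₂ := fun u => (br s u) ^ 3) (f := fun z : EE => z.2.1)
        b hC hd
    have hbr : br s b.2.1 = s := by rw [← h.sq, br_self]
    have h1 := ((hasFDerivAt_fst (𝕜 := ℂ) (p := b)).add (hA'.smul_const l)).const_smul
      ((((2 : ℂ) ^ n) ^ 3)⁻¹)
    have h2 := hd.const_mul (((2 : ℂ) ^ n) ^ 2)
    have h3 := (h22.sub ((betL l).hasFDerivAt.comp b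
      (hC'.smul (hasFDerivAt_fst (𝕜 := ℂ) (p := b))))).add_const k
    have h4 := h1.prodMk (h2.prodMk h3)
    have h5 : fderiv ℂ (phi s n l k) b = _ := h4.fderiv
    rw [h5]
    simp only [dphi, ContinuousLinearMap.prod_apply, smul_apply, add_apply,
      ContinuousLinearMap.coe_fst', ContinuousLinearMap.smulRight_apply, sub_apply,
      ContinuousLinearMap.comp_apply, ContinuousLinearMap.coe_snd', pj_apply, betL_apply,
      smul_eq_mul, hbr]
    refine Prod.ext ?_ (Prod.ext ?_ ?_)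
    · simp only
      congr 1
      rw [sub_eq_add_neg, ← neg_smul]
      congr 2
      ring
    · rfl
    · rfl

namespace Dat

variable (D : Dat)

/-- The étale relation. -/
def sur (pt : EE) (hpt : pt ∈ D.U) : Et EE where
  U := D.U
  isOpen := isOpen_U
  pt := pt
  pt_mem := hpt
  rel := D.rel
  refl _ hx := rel_refl hx
  symm _ _ h := rel_symm h
  trans _ _ _ h h' := rel_trans h h'
  mem _ _ h := h.1
  deck b b' h := by
    obtain ⟨hb, s, n, l, hl, k, hk, h⟩ := h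
    refine ⟨phi s n l k, phi_self h, phi_contDiffAt h, ?_⟩
    filter_upwards [phi_Rl h, isOpen_U.mem_nhds hb] with z ⟨t, hz⟩ hzU
    exact ⟨hzU, t, n, l, hl, k, hk, hz⟩
  inj _ hx := rel_inj hx
  closed _ hx _ hy h := rel_closed hx hy h

variable {D} {pt : EE} {hpt : pt ∈ D.U}

theorem germ_fderiv {φ : EE → EE} {x : EE} (h : (D.sur pt hpt).Germ φ x) :
    ∃ s n, ∃ l ∈ D.L, ∃ k ∈ D.Lam, Rl x (φ x) s n l k ∧ ∀ w, fderiv ℂ φ x w = dphi x s n l w := by
  obtain ⟨hx, s, n, l, hl, k, hk, h1⟩ := h.rel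
  have h2 : (D.sur pt hpt).Germ (phi s n l k) x := by
    refine ⟨(phi_contDiffAt h1).continuousAt, ?_⟩
    filter_upwards [phi_Rl h1, isOpen_U.mem_nhds hx] with z ⟨t, hz⟩ hzU
    exact ⟨hzU, t, n, l, hl, k, hk, hz⟩
  have h3 := h.unique h2 (phi_self h1).symm
  refine ⟨s, n, l, hl, k, hk, h1, fun w => ?_⟩
  rw [h3.fderiv_eq, phi_fderiv h1]

end Dat

end Pool.Agent.Y331.PH
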