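import Mathlib

/-!
# Distributions on the real manifold underlying a complex manifold
-/

set_option autoImplicit false

open scoped Manifold ContDiff Topology
open Set

namespace Pool.Agent.Y331.PH

variable {E : Type} [NormedAddCommGroup E] [NormedSpace ℂ E]

/-- The real analytic structure underlying a complex structure. -/
theorem isManifold_real (M : Type) [TopologicalSpace M] [ChartedSpace E M]
    [IsManifold 𝓘(ℂ, E) ω M] : IsManifold 𝓘(ℝ, E) ω M := by
  apply isManifold_of_contDiffOn
  intro e e' he he'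
  have h1 := HasGroupoid.compatible (G := contDiffGroupoid ω 𝓘(ℂ, E)) he he'
  rw [contDiffGroupoid, mem_groupoid_of_pregroupoid] at h1
  have h2 := h1.1
  simp only [contDiffPregroupoid] at h2
  exact h2.restrict_scalars ℝ

variable {M : Type} [TopologicalSpace M] [ChartedSpace E M] [IsManifold 𝓘(ℝ, E) 1 M]

/-- A field of real subspaces of the tangent spaces is a continuous distribution: near every point
it has a basis of continuous vector fields. -/
def IsContinuousDistribution (A : ∀ x : M, Submodule ℝ (TangentSpace 𝓘(ℝ, E) x)) : Prop :=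
  ∀ x₀ : M, ∃ U : Set M, IsOpen U ∧ x₀ ∈ U ∧
    ∃ (k : ℕ) (V : Fin k → ∀ x : M, TangentSpace 𝓘(ℝ, E) x),
      (∀ i, ContinuousOn (fun x => (⟨x, V i x⟩ : TangentBundle 𝓘(ℝ, E) M)) U) ∧
        ∀ x ∈ U, LinearIndependent ℝ (fun i => V i x) ∧
          A x = Submodule.span ℝ (range fun i => V i x)

/-- A field of real subspaces of the tangent spaces is real analytic: near every point it is
spanned by real analytic vector fields. -/
def IsAnalyticDistribution (A : ∀ x : M, Submodule ℝ (TangentSpace 𝓘(ℝ, E) x)) : Prop :=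
  ∀ x₀ : M, ∃ U : Set M, IsOpen U ∧ x₀ ∈ U ∧
    ∃ (k : ℕ) (V : Fin k → ∀ x : M, TangentSpace 𝓘(ℝ, E) x),
      (∀ i, ContMDiffOn 𝓘(ℝ, E) 𝓘(ℝ, E).tangent ω
        (fun x => (⟨x, V i x⟩ : TangentBundle 𝓘(ℝ, E) M)) U) ∧
        ∀ x ∈ U, A x = Submodule.span ℝ (range fun i => V i x)

end Pool.Agent.Y331.PH
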