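import Mathlib

/-!
# Quotients of open subsets of a complex normed space by étale equivalence relations
-/

set_option autoImplicit false

open scoped Manifold ContDiff Topology
open Set Filter

namespace Pool.Agent.Y331.PH

/-- An étale equivalence relation on an open subset `U` of a complex normed space `E`, with
separated quotient. -/
structure Et (E : Type) [NormedAddCommGroup E] [NormedSpace ℂ E] where
  /-- the open set -/
  U : Set E
  isOpen : IsOpen U
  /-- a base point -/
  pt : E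
  pt_mem : pt ∈ U
  /-- the relation -/
  rel : E → E → Prop
  refl : ∀ x ∈ U, rel x x
  symm : ∀ x y, rel x y → rel y x
  trans : ∀ x y z, rel x y → rel y z → rel x z
  mem : ∀ x y, rel x y → x ∈ U
  deck : ∀ x y, rel x y → ∃ φ : E → E, φ x = y ∧ ContDiffAt ℂ ω φ x ∧ ∀ᶠ z in 𝓝 x, rel z (φ z)
  inj : ∀ x ∈ U, ∀ᶠ p : E × E in 𝓝 (x, x), rel p.1 p.2 → p.1 = p.2
  closed : ∀ x ∈ U, ∀ y ∈ U, (∃ᶠ p : E × E in 𝓝 (x, y), rel p.1 p.2) → rel x y

namespace Et

variable {E : Type} [NormedAddCommGroup E] [NormedSpace ℂ E] (S : Et E)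

theorem mem' {x y : E} (h : S.rel x y) : y ∈ S.U := S.mem _ _ (S.symm _ _ h)

/-- the equivalence relation on `U`. -/
def stp : Setoid S.U where
  r a b := S.rel a b
  iseqv := ⟨fun a => S.refl a a.2, fun h => S.symm _ _ h, fun h h' => S.trans _ _ _ h h'⟩

/-- the points of the quotient. -/
def Pt : Type := Quotient S.stp

/-- the projection on `U`. -/
def pr (a : S.U) : S.Pt := Quotient.mk S.stp a

instance : TopologicalSpace S.Pt := inferInstanceAs (TopologicalSpace (Quotient S.stp))

open Classical in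
/-- the projection, extended by a constant. -/
noncomputable def p (x : E) : S.Pt := if h : x ∈ S.U then S.pr ⟨x, h⟩ else S.pr ⟨S.pt, S.pt_mem⟩

theorem p_eq {x : E} (h : x ∈ S.U) : S.p x = S.pr ⟨x, h⟩ := dif_pos h

theorem p_coe (x : S.U) : S.p x = S.pr x := dif_pos x.2

theorem pr_eq_iff {a b : S.U} : S.pr a = S.pr b ↔ S.rel a b :=
  ⟨fun h => Quotient.exact h, fun h => Quotient.sound h⟩

theorem p_eq_iff {x y : E} (hx : x ∈ S.U) (hy : y ∈ S.U) : S.p x = S.p y ↔ S.rel x y := by
  rw [S.p_eq hx, S.p_eq hy, S.pr_eq_iff]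

theorem p_eq_of_rel {x y : E} (h : S.rel x y) : S.p x = S.p y :=
  (S.p_eq_iff (S.mem _ _ h) (S.mem' h)).2 h

theorem pr_surj : Function.Surjective S.pr := Quotient.mk_surjective

theorem exists_rep (q : S.Pt) : ∃ x ∈ S.U, S.p x = q := by
  obtain ⟨a, rfl⟩ := S.pr_surj q
  exact ⟨a, a.2, S.p_coe a⟩

theorem continuous_pr : Continuous S.pr := continuous_quotient_mk'

theorem isOpenMap_pr : IsOpenMap S.pr := by
  intro O hO
  change IsOpen (Quotient.mk S.stp '' O)
  rw [isOpen_coinduced, isOpen_iff_mem_nhds]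
  rintro ⟨y, hy⟩ ⟨⟨x, hx⟩, hxO, hxy⟩
  have hr : S.rel y x := S.symm _ _ (S.pr_eq_iff.1 hxy)
  obtain ⟨φ, h1, h2, h3⟩ := S.deck y x hr
  obtain ⟨O', hO', rfl⟩ := isOpen_induced_iff.1 hO
  have h4 : ∀ᶠ z in 𝓝 y, φ z ∈ O' := by
    apply h2.continuousAt.eventually_mem
    rw [h1]
    exact hO'.mem_nhds hxO
  rw [mem_nhds_subtype]
  refine ⟨{z | φ z ∈ O' ∧ S.rel z (φ z)}, h4.and h3, ?_⟩
  rintro ⟨z, hz⟩ ⟨hz1, hz2⟩
  exact ⟨⟨φ z, S.mem' hz2⟩, hz1, S.pr_eq_iff.2 (S.symm _ _ hz2)⟩

theorem locInj (x : S.U) : ∃ W : Set S.U, IsOpen W ∧ x ∈ W ∧ InjOn S.pr W := by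
  have h := S.inj x x.2
  rw [nhds_prod_eq] at h
  obtain ⟨W, hW, hW2⟩ := (Filter.eventually_prod_self_iff (r := fun a b => S.rel a b → a = b)).1
    (by filter_upwards [h] with p hp using hp)
  obtain ⟨W', h1, h2, h3⟩ := mem_nhds_iff.1 hW
  refine ⟨Subtype.val ⁻¹' W', h2.preimage continuous_subtype_val, h3, ?_⟩
  intro a ha b hb hab
  exact Subtype.ext (hW2 _ (h1 ha) _ (h1 hb) (S.pr_eq_iff.1 hab))

theorem isLocalHomeomorph_pr : IsLocalHomeomorph S.pr := by
  rw [isLocalHomeomorph_iff_isOpenEmbedding_restrict]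
  intro x
  obtain ⟨W, h1, h2, h3⟩ := S.locInj x
  refine ⟨W, h1.mem_nhds h2, ?_⟩
  apply Topology.IsOpenEmbedding.of_continuous_injective_isOpenMap
  · exact S.continuous_pr.comp continuous_subtype_val
  · exact injOn_iff_injective.1 h3
  · exact S.isOpenMap_pr.domRestrict h1

instance : T2Space S.Pt := by
  have ho : IsOpenQuotientMap S.pr := ⟨S.pr_surj, S.continuous_pr, S.isOpenMap_pr⟩
  rw [t2_iff_isClosed_diagonal, ← (ho.prodMap ho).isQuotientMap.isClosed_preimage,
    ← isOpen_compl_iff, isOpen_iff_mem_nhds]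
  rintro ⟨a, b⟩ hab
  have hab' : ¬ S.rel a b := fun h => hab (S.pr_eq_iff.2 h)
  have h1 : ¬ ∃ᶠ p : E × E in 𝓝 ((a : E), (b : E)), S.rel p.1 p.2 := fun h =>
    hab' (S.closed a a.2 b b.2 h)
  rw [not_frequently] at h1
  have h2 : Continuous fun p : S.U × S.U => ((p.1 : E), (p.2 : E)) :=
    (continuous_subtype_val.comp continuous_fst).prodMk (continuous_subtype_val.comp continuous_snd)
  have h3 := (h2.tendsto (a, b)).eventually h1
  filter_upwards [h3] with p hp hp2
  exact hp (S.pr_eq_iff.1 hp2)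

/-- the inclusion as an open partial homeomorphism -/
noncomputable def ι : OpenPartialHomeomorph S.U E :=
  haveI : Nonempty S.U := ⟨⟨S.pt, S.pt_mem⟩⟩
  S.isOpen.isOpenEmbedding_subtypeVal.toOpenPartialHomeomorph Subtype.val

@[simp] theorem ι_coe : (S.ι : S.U → E) = Subtype.val := by
  simp [ι]

@[simp] theorem ι_source : S.ι.source = univ := by simp [ι]

@[simp] theorem ι_target : S.ι.target = S.U := by simp [ι]

theorem ι_symm {v : E} (hv : v ∈ S.U) : S.ι.symm v = ⟨v, hv⟩ := by
  apply Subtype.val_injective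
  have := S.ι.right_inv (x := v) (by simpa using hv)
  simpa using this

/-- a section of the projection. -/
noncomputable def sec : S.Pt → S.U := S.pr_surj.hasRightInverse.choose

theorem sec_spec (y : S.Pt) : S.pr (S.sec y) = y := S.pr_surj.hasRightInverse.choose_spec y

noncomputable instance : ChartedSpace E S.Pt where
  atlas := {(S.isLocalHomeomorph_pr.localInverseAt (S.sec y)).trans S.ι | y : S.Pt}
  chartAt y := (S.isLocalHomeomorph_pr.localInverseAt (S.sec y)).trans S.ι
  mem_chart_source y := by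
    have h := S.isLocalHomeomorph_pr.apply_self_mem_localInverseAt_source (x := S.sec y)
    rw [sec_spec] at h
    simp [h]
  chart_mem_atlas := by simp

variable {S}

theorem atlas_target {e : OpenPartialHomeomorph S.Pt E} (he : e ∈ atlas E S.Pt) {y : E}
    (hy : y ∈ e.target) : y ∈ S.U := by
  obtain ⟨q, rfl⟩ := he
  rw [OpenPartialHomeomorph.trans_target] at hy
  simpa using hy.1

/-- charts are local inverses of the projection. -/
theorem atlas_symm {e : OpenPartialHomeomorph S.Pt E} (he : e ∈ atlas E S.Pt)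
    {y : E} (hy : y ∈ e.target) : e.symm y = S.p y := by
  have hyU := atlas_target he hy
  obtain ⟨q, rfl⟩ := he
  rw [OpenPartialHomeomorph.coe_trans_symm, Function.comp_apply,
    IsLocalHomeomorph.localInverseAt_symm, S.ι_symm hyU, S.p_eq hyU]

theorem chart_mem {e : OpenPartialHomeomorph S.Pt E} (he : e ∈ atlas E S.Pt) {q : S.Pt}
    (hq : q ∈ e.source) : e q ∈ S.U := atlas_target he (e.map_source hq)

theorem p_chart {e : OpenPartialHomeomorph S.Pt E} (he : e ∈ atlas E S.Pt)
    {q : S.Pt} (hq : q ∈ e.source) : S.p (e q) = q := by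
  rw [← atlas_symm he (e.map_source hq), e.left_inv hq]

theorem chart_self_mem (q : S.Pt) : chartAt E q q ∈ S.U :=
  chart_mem (chart_mem_atlas E q) (mem_chart_source E q)

theorem p_chart_self (q : S.Pt) : S.p (chartAt E q q) = q :=
  p_chart (chart_mem_atlas E q) (mem_chart_source E q)

variable (S)

theorem continuousAt_p {x : E} (hx : x ∈ S.U) : ContinuousAt S.p x := by
  have h1 : ContinuousOn S.p S.U := by
    rw [continuousOn_iff_continuous_domRestrict]
    have : S.U.domRestrict S.p = S.pr := by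
      funext x
      exact S.p_coe x
    rw [this]
    exact S.continuous_pr
  exact h1.continuousAt (S.isOpen.mem_nhds hx)

theorem continuousOn_p : ContinuousOn S.p S.U := fun _ hx => (S.continuousAt_p hx).continuousWithinAt

/-- Continuous germs of maps along the relation. -/
def Germ (φ : E → E) (x : E) : Prop := ContinuousAt φ x ∧ ∀ᶠ z in 𝓝 x, S.rel z (φ z)

variable {S}

theorem Germ.rel {φ : E → E} {x : E} (h : S.Germ φ x) : S.rel x (φ x) := h.2.self_of_nhds

theorem Germ.mem {φ : E → E} {x : E} (h : S.Germ φ x) : x ∈ S.U := S.mem _ _ h.rel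

/-- uniqueness of germs. -/
theorem Germ.unique {φ ψ : E → E} {x : E} (h : S.Germ φ x) (h' : S.Germ ψ x) (he : φ x = ψ x) :
    φ =ᶠ[𝓝 x] ψ := by
  have h1 := S.inj (φ x) (S.mem' h.rel)
  have h2 : Tendsto (fun z => (φ z, ψ z)) (𝓝 x) (𝓝 (φ x, φ x)) := by
    rw [nhds_prod_eq]
    refine h.1.tendsto.prodMk ?_
    rw [he]
    exact h'.1.tendsto
  filter_upwards [h2.eventually h1, h.2, h'.2] with z hz1 hz2 hz3
  exact hz1 (S.trans _ _ _ (S.symm _ _ hz2) hz3)

theorem exists_germ {x y : E} (h : S.rel x y) : ∃ φ : E → E, φ x = y ∧ S.Germ φ x := by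
  obtain ⟨φ, h1, h2, h3⟩ := S.deck x y h
  exact ⟨φ, h1, h2.continuousAt, h3⟩

theorem Germ.contDiffAt {φ : E → E} {x : E} (h : S.Germ φ x) : ContDiffAt ℂ ω φ x := by
  obtain ⟨ψ, h1, h2, h3⟩ := S.deck x (φ x) h.rel
  exact h2.congr_of_eventuallyEq (h.unique ⟨h2.continuousAt, h3⟩ h1.symm)

theorem Germ.comp {φ ψ : E → E} {x : E} (h : S.Germ φ x) (h' : S.Germ ψ (φ x)) :
    S.Germ (fun z => ψ (φ z)) x := by
  refine ⟨ContinuousAt.comp (g := ψ) h'.1 h.1, ?_⟩
  filter_upwards [h.2, h.1.eventually h'.2] with z hz1 hz2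
  exact S.trans _ _ _ hz1 hz2

/-- the coordinate change between two charts is a germ along the relation. -/
theorem germ_change {e e' : OpenPartialHomeomorph S.Pt E} (he : e ∈ atlas E S.Pt)
    (he' : e' ∈ atlas E S.Pt) {y : E} (hy : y ∈ e.target) (hy' : e.symm y ∈ e'.source) :
    S.Germ (fun z => e' (e.symm z)) y := by
  refine ⟨ContinuousAt.comp (g := e') (e'.continuousAt hy') (e.continuousAt_symm hy), ?_⟩
  filter_upwards [e.open_target.mem_nhds hy,
    (e.continuousAt_symm hy).eventually (e'.open_source.mem_nhds hy')] with z hz1 hz2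
  rw [← S.p_eq_iff (atlas_target he hz1) (chart_mem he' hz2), p_chart he' hz2, atlas_symm he hz1]

/-- the projection in a chart is a germ along the relation. -/
theorem germ_p {e : OpenPartialHomeomorph S.Pt E} (he : e ∈ atlas E S.Pt) {x : E}
    (hx : x ∈ S.U) (hxe : S.p x ∈ e.source) : S.Germ (fun z => e (S.p z)) x := by
  refine ⟨ContinuousAt.comp (g := e) (e.continuousAt hxe) (S.continuousAt_p hx), ?_⟩
  filter_upwards [S.isOpen.mem_nhds hx,
    (S.continuousAt_p hx).eventually (e.open_source.mem_nhds hxe)] with z hz1 hz2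
  rw [← S.p_eq_iff hz1 (chart_mem he hz2), p_chart he hz2]

variable (S)

instance isManifold_complex : IsManifold 𝓘(ℂ, E) ω S.Pt := by
  apply isManifold_of_contDiffOn
  intro e e' he he' y hy
  simp only [modelWithCornersSelf_coe, modelWithCornersSelf_coe_symm, Function.comp_id,
    Function.id_comp, preimage_id, range_id, inter_univ] at hy ⊢
  obtain ⟨hy1, hy2⟩ : y ∈ e.target ∧ e.symm y ∈ e'.source := by
    simpa using hy
  exact ((germ_change he he' hy1 hy2).contDiffAt).contDiffWithinAt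

instance isManifold_real : IsManifold 𝓘(ℝ, E) ω S.Pt := by
  apply isManifold_of_contDiffOn
  intro e e' he he' y hy
  simp only [modelWithCornersSelf_coe, modelWithCornersSelf_coe_symm, Function.comp_id,
    Function.id_comp, preimage_id, range_id, inter_univ] at hy ⊢
  obtain ⟨hy1, hy2⟩ : y ∈ e.target ∧ e.symm y ∈ e'.source := by
    simpa using hy
  exact ((germ_change he he' hy1 hy2).contDiffAt.restrict_scalars ℝ).contDiffWithinAt

end Et

end Pool.Agent.Y331.PH
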