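import Pool.Agent.Y331.PH.EtTan
import Pool.Agent.Y331.PH.Defs

/-!
# Continuous and real analytic distributions on the quotient
-/

set_option autoImplicit false

open scoped Manifold ContDiff Topology
open Set Filter

namespace Pool.Agent.Y331.PH.Et

variable {E : Type} [NormedAddCommGroup E] [NormedSpace ℂ E] {S : Et E}

theorem continuous_fld {C : Type} [NormedAddCommGroup C] [NormedSpace ℂ C] [FiniteDimensional ℂ C]
    {A : E → Submodule ℂ E} (hA : S.InvSub A) (s : E → C →ₗ[ℂ] E)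
    (hs : ∀ c, ContinuousOn (fun x => s x c) S.U) (hinj : ∀ x ∈ S.U, Function.Injective (s x))
    (hr : ∀ x ∈ S.U, ∀ w, w ∈ A x ↔ ∃ c, s x c = w) :
    IsContinuousDistribution (S.fld A) := by
  intro x₀
  set e := chartAt E x₀ with he
  set b := Module.finBasis ℝ C with hb
  refine ⟨e.source, e.open_source, mem_chart_source E x₀, _,
    fun i q => (show TangentSpace 𝓘(ℝ, E) q from S.T (e q) (s (e q) (b i))), fun i => ?_,
    fun q hq => ?_⟩
  · have h1 : ContinuousOn (fun q => S.tv (e q) (s (e q) (b i))) e.source := by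
      refine (continuousOn_tv (S := S)).comp (f := fun q => (e q, s (e q) (b i))) ?_ ?_
      · exact e.continuousOn.prodMk ((hs (b i)).comp e.continuousOn fun q hq =>
          chart_mem (chart_mem_atlas E x₀) hq)
      · intro q hq
        exact ⟨chart_mem (chart_mem_atlas E x₀) hq, mem_univ _⟩
    refine h1.congr fun q hq => ?_
    exact mk_congr (p_chart (chart_mem_atlas E x₀) hq).symm _
  · have hyU : e q ∈ S.U := chart_mem (chart_mem_atlas E x₀) hq
    have hpy : S.p (e q) = q := p_chart (chart_mem_atlas E x₀) hq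
    set L : C →ₗ[ℝ] E := (((S.T (e q)).toLinearMap.comp (s (e q))).restrictScalars ℝ) with hL
    have hLinj : Function.Injective L := (T_bijective hyU).1.comp (hinj _ hyU)
    have h1 : LinearIndependent ℝ (fun i => L (b i)) :=
      b.linearIndependent.map' L (LinearMap.ker_eq_bot.2 hLinj)
    have h2 : (A (chartAt E q q)).restrictScalars ℝ = Submodule.span ℝ (range fun i => L (b i)) := by
      have h3 : (range fun i => L (b i)) = L '' range b := by
        rw [← range_comp]; rfl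
      rw [h3, ← Submodule.map_span, b.span_eq]
      ext w
      rw [Submodule.restrictScalars_mem, Submodule.map_top, LinearMap.mem_range]
      obtain ⟨v, rfl⟩ := (T_bijective hyU).2 w
      have h4 := hA.T hyU v
      rw [hpy] at h4
      rw [h4, hr _ hyU]
      constructor
      · rintro ⟨c, hc⟩
        exact ⟨c, by rw [← hc]; rfl⟩
      · rintro ⟨c, hc⟩
        exact ⟨c, (T_bijective hyU).1 hc⟩
    exact ⟨h1, h2⟩

/-- real analytic vector fields in a chart. -/
theorem analytic_chart {A : E → Submodule ℂ E} (hA : S.InvSub A)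
    (h : IsAnalyticDistribution (S.fld A)) (x₀ : S.Pt) : ∃ (k : ℕ) (W : Fin k → E → E),
      (∀ i, ContDiffAt ℝ ω (W i) (chartAt E x₀ x₀)) ∧
        ∀ᶠ y in 𝓝 (chartAt E x₀ x₀),
          (A y).restrictScalars ℝ = Submodule.span ℝ (range fun i => W i y) := by
  obtain ⟨O, hO, hxO, k, V, hV, hspan⟩ := h x₀
  set e := chartAt E x₀ with he
  set y₀ : E := e x₀ with hy₀
  have hy₀t : y₀ ∈ e.target := e.map_source (mem_chart_source E x₀)
  have h5 : e.symm y₀ = x₀ := e.left_inv (mem_chart_source E x₀)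
  set H : Fin k → S.Pt → E := fun i q => tangentCoordChange 𝓘(ℝ, E) q x₀ q (V i q) with hH
  refine ⟨k, fun i y => H i (e.symm y), fun i => ?_, ?_⟩
  · have h1 : ContMDiffAt 𝓘(ℝ, E) 𝓘(ℝ, E).tangent ω
        (fun x => (⟨x, V i x⟩ : TangentBundle 𝓘(ℝ, E) S.Pt)) x₀ :=
      (hV i).contMDiffAt (hO.mem_nhds hxO)
    have h2 := (Bundle.contMDiffAt_totalSpace).1 h1
    have h3 : ContMDiffAt 𝓘(ℝ, E) 𝓘(ℝ, E) ω (H i) x₀ := h2.2
    have h4 : ContMDiffAt 𝓘(ℝ, E) 𝓘(ℝ, E) ω e.symm y₀ :=
      (contMDiffOn_chart_symm (I := 𝓘(ℝ, E)) (n := ω) (x := x₀)).contMDiffAt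
        (e.open_target.mem_nhds hy₀t)
    have h6 : ContMDiffAt 𝓘(ℝ, E) 𝓘(ℝ, E) ω (H i) (e.symm y₀) := by rw [h5]; exact h3
    exact contMDiffAt_iff_contDiffAt.1 (h6.comp y₀ h4)
  · have h1 : ∀ᶠ y in 𝓝 y₀, e.symm y ∈ O := by
      apply (e.continuousAt_symm hy₀t).eventually_mem
      rw [h5]
      exact hO.mem_nhds hxO
    filter_upwards [h1, e.open_target.mem_nhds hy₀t] with y hyO hyt
    have hys : e.symm y ∈ e.source := e.map_target hyt
    have hyU : y ∈ S.U := atlas_target (chart_mem_atlas E x₀) hyt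
    have hpy : e.symm y = S.p y := atlas_symm (chart_mem_atlas E x₀) hyt
    -- the coordinate change from the preferred chart
    have g0 := hspan _ hyO
    have hT := T_bijective hyU
    have g1 : ∀ w : E, tangentCoordChange 𝓘(ℝ, E) (e.symm y) x₀ (e.symm y) (S.T y w) = w := by
      intro w
      rw [hpy, tangentCoordChange_T hyU (by rw [← hpy]; exact hys)]
      have g2 : (fun z => chartAt E x₀ (S.p z)) =ᶠ[𝓝 y] fun z => z := by
        refine (germ_p (chart_mem_atlas E x₀) hyU (by rw [← hpy]; exact hys)).unique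
          (germ_id hyU) ?_
        rw [← hpy]
        exact e.right_inv hyt
      rw [g2.fderiv_eq]
      simp [fderiv_fun_id]
    set D : E →L[ℝ] E := tangentCoordChange 𝓘(ℝ, E) (e.symm y) x₀ (e.symm y) with hD
    have g3 : ∀ w : E, S.T y (D w) = w := by
      intro w
      obtain ⟨v, rfl⟩ := hT.2 w
      rw [g1]
    obtain ⟨Vy, hVy⟩ : ∃ Vy : Fin k → E, Vy = fun i => V i (e.symm y) := ⟨_, rfl⟩
    have g4 : (fun i => H i (e.symm y)) = fun i => D (Vy i) := by
      rw [hVy]
    have g4' : (range fun i => D (Vy i)) = D.toLinearMap '' (range Vy) := by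
      rw [← range_comp]
      rfl
    have g5 : Submodule.span ℝ (range Vy) =
        (A (chartAt E (e.symm y) (e.symm y))).restrictScalars ℝ := by
      rw [hVy]
      exact g0.symm
    rw [g4, g4', ← Submodule.map_span, g5]
    ext w
    rw [Submodule.mem_map]
    simp only [Submodule.restrictScalars_mem]
    constructor
    · intro hw
      refine ⟨S.T y w, ?_, g1 w⟩
      rw [hpy]
      exact (hA.T hyU w).2 hw
    · rintro ⟨v, hv, rfl⟩
      change D v ∈ A y
      rw [hpy] at hv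
      rw [← hA.T hyU, g3]
      exact hv

/-- analytic graph vector fields. -/
theorem analytic_graph {C : Type} [NormedAddCommGroup C] [NormedSpace ℂ C] [FiniteDimensional ℂ C]
    {A : E → Submodule ℂ E} {y₀ : E} {k : ℕ} {W : Fin k → E → E}
    (hW : ∀ i, ContDiffAt ℝ ω (W i) y₀)
    (hspan : ∀ᶠ y in 𝓝 y₀, (A y).restrictScalars ℝ = Submodule.span ℝ (range fun i => W i y))
    (P : E →L[ℂ] C) (hP : ∀ c, ∃ w ∈ A y₀, P w = c) (c₀ : C) :
    ∃ G : E → E, ContDiffAt ℝ ω G y₀ ∧ ∀ᶠ y in 𝓝 y₀, G y ∈ A y ∧ P (G y) = c₀ := by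
  have : CompleteSpace C := FiniteDimensional.complete ℂ C
  set PR : E →L[ℝ] C := P.restrictScalars ℝ with hPR
  -- a right inverse at `y₀`
  have hsurj : ∀ c : C, ∃ a : Fin k → ℝ, ∑ i, a i • PR (W i y₀) = c := by
    intro c
    obtain ⟨w, hw, hwc⟩ := hP c
    have h1 : w ∈ Submodule.span ℝ (range fun i => W i y₀) := by
      rw [← hspan.self_of_nhds]
      exact hw
    obtain ⟨a, ha⟩ := (Submodule.mem_span_range_iff_exists_fun ℝ).1 h1
    refine ⟨a, ?_⟩
    rw [← hwc, ← ha]
    change _ = PR _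
    rw [map_sum]
    simp only [map_smul]
  set Q : (Fin k → ℝ) →ₗ[ℝ] C := ∑ i, (LinearMap.proj i).smulRight (PR (W i y₀)) with hQ
  have hQa : ∀ a, Q a = ∑ i, a i • PR (W i y₀) := by
    intro a
    simp [hQ]
  have hQs : LinearMap.range Q = ⊤ := by
    rw [LinearMap.range_eq_top]
    intro c
    obtain ⟨a, ha⟩ := hsurj c
    exact ⟨a, by rw [hQa, ha]⟩
  obtain ⟨R, hR⟩ := Q.exists_rightInverse_of_surjective hQs
  have hR' : ∀ c, ∑ i, R c i • PR (W i y₀) = c := by
    intro c
    rw [← hQa]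
    exact DFunLike.congr_fun hR c
  set r : Fin k → (C →L[ℝ] ℝ) := fun i => LinearMap.toContinuousLinearMap ((LinearMap.proj i).comp R)
    with hr
  have hra : ∀ i c, r i c = R c i := fun i c => rfl
  set B : E → (C →L[ℝ] C) := fun y => ∑ i, (r i).smulRight (PR (W i y)) with hB
  have hBa : ∀ y c, B y c = ∑ i, R c i • PR (W i y) := by
    intro y c
    simp [hB, hra]
  have hB0 : B y₀ = ContinuousLinearEquiv.refl ℝ C := by
    ext c
    rw [hBa, hR']
    rfl
  have hBd : ContDiffAt ℝ ω B y₀ := by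
    apply ContDiffAt.sum
    intro i _
    exact (ContinuousLinearMap.smulRightL ℝ C C (r i)).contDiff.contDiffAt.comp y₀
      (PR.contDiff.contDiffAt.comp y₀ (hW i))
  have hinv : ContDiffAt ℝ ω (fun y => ContinuousLinearMap.inverse (B y)) y₀ := by
    refine ContDiffAt.comp (g := ContinuousLinearMap.inverse) y₀ ?_ hBd
    rw [hB0]
    exact contDiffAt_map_inverse _
  set G : E → E := fun y => ∑ i, r i (ContinuousLinearMap.inverse (B y) c₀) • W i y with hG
  refine ⟨G, ?_, ?_⟩
  · apply ContDiffAt.sum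
    intro i _
    exact ((r i).contDiff.contDiffAt.comp y₀ (hinv.clm_apply contDiffAt_const)).smul (hW i)
  · have h1 : ∀ᶠ y in 𝓝 y₀, B y ∈ range ((↑) : (C ≃L[ℝ] C) → (C →L[ℝ] C)) := by
      apply hBd.continuousAt.eventually_mem
      rw [hB0]
      exact ContinuousLinearEquiv.nhds _
    filter_upwards [h1, hspan] with y hy hsp
    constructor
    · rw [← Submodule.restrictScalars_mem ℝ, hsp]
      exact Submodule.sum_mem _ fun i _ => Submodule.smul_mem _ _ (Submodule.subset_span ⟨i, rfl⟩)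
    · obtain ⟨ε, hε⟩ := hy
      have h2 : P (G y) = B y (ContinuousLinearMap.inverse (B y) c₀) := by
        rw [hBa]
        change PR (G y) = _
        rw [hG]
        simp only
        rw [map_sum]
        simp only [map_smul, hra]
      rw [h2, ← hε, ContinuousLinearMap.inverse_equiv]
      exact ε.apply_symm_apply c₀

/-- Analytic graph vector fields along lines. -/
theorem analytic_line {C : Type} [NormedAddCommGroup C] [NormedSpace ℂ C] [FiniteDimensional ℂ C]
    {A : E → Submodule ℂ E} (hA : S.InvSub A) (h : IsAnalyticDistribution (S.fld A)) (x₀ : S.Pt)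
    (P : E →L[ℂ] C) (hP : ∀ c, ∃ w ∈ A (chartAt E x₀ x₀), P w = c) (c₀ : C) (v : E)
    (lam : E →L[ℂ] ℂ) :
    ∃ G : E → E, (∀ᶠ y in 𝓝 (chartAt E x₀ x₀), G y ∈ A y ∧ P (G y) = c₀) ∧
      AnalyticAt ℝ (fun t : ℝ => lam (G (chartAt E x₀ x₀ + (t : ℂ) • v))) 0 := by
  obtain ⟨k, W, hW, hspan⟩ := analytic_chart hA h x₀
  obtain ⟨G, hG, hG2⟩ := analytic_graph hW hspan P hP c₀
  refine ⟨G, hG2, ?_⟩
  apply ContDiffAt.analyticAt
  set y₀ := chartAt E x₀ x₀ with hy₀
  have h1 : ContDiffAt ℝ ω (fun t : ℝ => y₀ + (t : ℂ) • v) 0 := by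
    have e : (fun t : ℝ => y₀ + (t : ℂ) • v) = fun t : ℝ => y₀ + t • v := by
      funext t
      rw [Complex.coe_smul]
    rw [e]
    exact contDiffAt_const.add (contDiffAt_id.smul contDiffAt_const)
  have h2 : ContDiffAt ℝ ω G (y₀ + ((0 : ℝ) : ℂ) • v) := by
    simpa using hG
  have h3 := h2.comp (0 : ℝ) h1
  exact (lam.restrictScalars ℝ).contDiff.contDiffAt.comp (0 : ℝ) h3

end Pool.Agent.Y331.PH.Et
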