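import Pool.Agent.Y331.PH.EtTan

/-!
# Comparison with Riemannian metrics, and domination
-/

set_option autoImplicit false

open scoped Manifold ContDiff Topology
open Set Filter

namespace Pool.Agent.Y331.PH.Et

variable {E : Type} [NormedAddCommGroup E] [NormedSpace ℂ E] {S : Et E}

/-- The squared lengths of tangent vectors of the quotient. -/
structure Met (S : Et E) where
  /-- the squared length -/
  sq : S.Pt → E → ℝ
  smul : ∀ q (r : ℝ) v, sq q ((r : ℂ) • v) = r ^ 2 * sq q v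
  pos : ∀ q v, v ≠ 0 → 0 < sq q v
  cont : Continuous fun v : TangentBundle 𝓘(ℝ, E) S.Pt => sq v.1 v.2

/-- the squared length. -/
noncomputable def sq (g : S.Met) (q : S.Pt) (v : E) : ℝ := g.sq q v

theorem sq_smul (g : S.Met) (q : S.Pt) (r : ℝ) (v : E) :
    sq g q ((r : ℂ) • v) = r ^ 2 * sq g q v := g.smul q r v

theorem sq_pos (g : S.Met) (q : S.Pt) {v : E} (hv : v ≠ 0) : 0 < sq g q v :=
  g.pos q v hv

theorem sq_zero (g : S.Met) (q : S.Pt) : sq g q 0 = 0 := by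
  have := sq_smul g q 0 (0 : E)
  simpa using this

theorem continuousOn_sq (g : S.Met) :
    ContinuousOn (fun z : E × E => sq g (S.p z.1) (S.T z.1 z.2)) (S.U ×ˢ univ) :=
  g.cont.comp_continuousOn (continuousOn_tv (S := S))

theorem compare_aux [ProperSpace E] (g : S.Met) {K : Set E} (hK : IsCompact K) (hKU : K ⊆ S.U) :
    ∃ c > 0, ∃ C > 0, ∀ x ∈ K, ∀ w : E, c * ‖w‖ ^ 2 ≤ sq g (S.p x) (S.T x w) ∧
      sq g (S.p x) (S.T x w) ≤ C * ‖w‖ ^ 2 := by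
  have hc : IsCompact (K ×ˢ Metric.sphere (0 : E) 1) := hK.prod (isCompact_sphere 0 1)
  have hcont : ContinuousOn (fun z : E × E => sq g (S.p z.1) (S.T z.1 z.2))
      (K ×ˢ Metric.sphere (0 : E) 1) :=
    (continuousOn_sq g).mono fun z hz => ⟨hKU hz.1, mem_univ _⟩
  have hpos : ∀ z ∈ K ×ˢ Metric.sphere (0 : E) 1, 0 < sq g (S.p z.1) (S.T z.1 z.2) := by
    rintro ⟨x, w⟩ ⟨hx, hw⟩
    apply sq_pos
    intro h0
    have h1 : w = 0 := (T_bijective (hKU hx)).1 (h0.trans (map_zero _).symm)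
    have h2 : ‖w‖ = 1 := by simpa using hw
    rw [h1, norm_zero] at h2
    exact zero_ne_one h2
  obtain ⟨c, hc0, hc1⟩ := hc.exists_forall_le' hcont hpos
  obtain ⟨C, hC⟩ := hc.exists_bound_of_continuousOn hcont
  refine ⟨c, hc0, |C| + 1, by positivity, fun x hx w => ?_⟩
  rcases eq_or_ne w 0 with rfl | hw
  · simp [sq_zero]
  · have hn : 0 < ‖w‖ := norm_pos_iff.2 hw
    set u : E := ((‖w‖⁻¹ : ℝ) : ℂ) • w with hu
    have hun : ‖u‖ = 1 := by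
      rw [hu, norm_smul, Complex.norm_real, norm_inv, norm_norm]
      exact inv_mul_cancel₀ hn.ne'
    have hwu : w = ((‖w‖ : ℝ) : ℂ) • u := by
      rw [hu, smul_smul, ← Complex.ofReal_mul, mul_inv_cancel₀ hn.ne']
      simp
    have hmem : (x, u) ∈ K ×ˢ Metric.sphere (0 : E) 1 := ⟨hx, by simpa using hun⟩
    have h1 := hc1 _ hmem
    have h2 := hC _ hmem
    simp only at h1 h2
    have h3 : sq g (S.p x) (S.T x w) = ‖w‖ ^ 2 * sq g (S.p x) (S.T x u) := by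
      conv_lhs => rw [hwu]
      rw [map_smul, sq_smul]
    rw [h3]
    have h4 : sq g (S.p x) (S.T x u) ≤ |C| + 1 := by
      have := le_abs_self (sq g (S.p x) (S.T x u))
      rw [Real.norm_eq_abs] at h2
      have := le_abs_self C
      linarith
    constructor
    · rw [mul_comm]
      exact mul_le_mul_of_nonneg_left h1 (by positivity)
    · rw [mul_comm]
      exact mul_le_mul_of_nonneg_right h4 (by positivity)

/-- the length. -/
noncomputable def len (g : S.Met) (q : S.Pt) (v : E) : ℝ := √(sq g q v)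

theorem compare [ProperSpace E] (g : S.Met) {K : Set E} (hK : IsCompact K) (hKU : K ⊆ S.U)
    (hKs : ∀ x ∈ S.U, ∃ y ∈ K, S.rel x y) {N : E → E → ℝ} (hN : S.InvFun N)
    {c₁ C₁ : ℝ} (hc₁ : 0 < c₁) (hC₁ : 0 < C₁)
    (hNK : ∀ x ∈ K, ∀ w, c₁ * ‖w‖ ≤ N x w ∧ N x w ≤ C₁ * ‖w‖) :
    ∃ c > 0, ∃ C > 0, ∀ (q : S.Pt) (v : E),
      c * N (chartAt E q q) v ≤ len g q v ∧ len g q v ≤ C * N (chartAt E q q) v := by
  obtain ⟨a, ha, A, hA, h⟩ := compare_aux g hK hKU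
  refine ⟨√a / C₁, by positivity, √A / c₁, by positivity, fun q v => ?_⟩
  obtain ⟨y, hyK, hy⟩ := hKs _ (chart_self_mem q)
  have hq : S.p y = q := by rw [← S.p_eq_of_rel hy, p_chart_self]
  have hyU := hKU hyK
  obtain ⟨w, hw⟩ := (T_bijective hyU).2 v
  have h1 := hN.T hyU w
  rw [hw, hq] at h1
  have h2 := h y hyK w
  rw [hw, hq] at h2
  obtain ⟨h3, h4⟩ := hNK y hyK w
  rw [h1]
  have h5 : √a * ‖w‖ ≤ len g q v := by
    rw [len, ← Real.sqrt_sq (norm_nonneg w), ← Real.sqrt_mul ha.le]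
    exact Real.sqrt_le_sqrt h2.1
  have h6 : len g q v ≤ √A * ‖w‖ := by
    rw [len, ← Real.sqrt_sq (norm_nonneg w), ← Real.sqrt_mul hA.le]
    exact Real.sqrt_le_sqrt h2.2
  constructor
  · refine le_trans ?_ h5
    calc √a / C₁ * N y w ≤ √a / C₁ * (C₁ * ‖w‖) := by gcongr
      _ = √a * ‖w‖ := by field_simp
  · refine le_trans h6 ?_
    calc √A * ‖w‖ = √A / c₁ * (c₁ * ‖w‖) := by field_simp
      _ ≤ √A / c₁ * N y w := by gcongr

/-! ### Iterates -/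

theorem Nor.pow {F : E →L[ℂ] E} (hF : S.Nor F) (n : ℕ) : S.Nor (F ^ n) := by
  induction n with
  | zero => intro x y h; simpa using h
  | succ n ih =>
    intro x y h
    rw [pow_succ']
    exact hF _ _ (ih x y h)

theorem map_pow (F : E →L[ℂ] E) (hF : S.Nor F) (n : ℕ) :
    map (F ^ n) (hF.pow n) = (map F hF)^[n] := by
  induction n with
  | zero =>
    funext q
    obtain ⟨x, hx, rfl⟩ := S.exists_rep q
    rw [map_p _ _ hx]
    simp
  | succ n ih =>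
    funext q
    rw [Function.iterate_succ_apply', ← ih]
    obtain ⟨x, hx, rfl⟩ := S.exists_rep q
    rw [map_p _ _ hx, map_p _ _ hx, map_p _ _ ((hF.pow n).mem hx), pow_succ']
    rfl

/-- invariant functions of the tangent vectors along the iterates. -/
theorem N_iterate (F : E →L[ℂ] E) (hF : S.Nor F) {N : E → E → ℝ} (hN : S.InvFun N) (n : ℕ)
    (q : S.Pt) (v : E) :
    N (chartAt E ((map F hF)^[n] q) ((map F hF)^[n] q))
      ((mfderiv 𝓘(ℝ, E) 𝓘(ℝ, E) (map F hF)^[n] q : E →L[ℝ] E) v) =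
      N ((F ^ n) (chartAt E q q)) ((F ^ n) v) := by
  rw [← map_pow, mfderiv_map, map_eq]
  exact hN.T ((hF.pow n).mem (chart_self_mem q)) _

section iter

variable {F : E →L[ℂ] E} {A : E → Submodule ℂ E}

theorem mem_pow (hF : S.Nor F) (hAF : ∀ x ∈ S.U, ∀ w, F w ∈ A (F x) ↔ w ∈ A x) (n : ℕ) {x w : E}
    (hx : x ∈ S.U) (hw : w ∈ A x) : (F ^ n) w ∈ A ((F ^ n) x) := by
  induction n with
  | zero => simpa using hw
  | succ n ih =>
    rw [pow_succ']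
    exact (hAF _ ((hF.pow n).mem hx) _).2 ih

theorem upper_pow (hF : S.Nor F) (hAF : ∀ x ∈ S.U, ∀ w, F w ∈ A (F x) ↔ w ∈ A x) {N : E → E → ℝ}
    {κ : ℝ} (hκ : 0 ≤ κ) (h : ∀ x ∈ S.U, ∀ w ∈ A x, N (F x) (F w) ≤ κ * N x w) (n : ℕ) {x w : E}
    (hx : x ∈ S.U) (hw : w ∈ A x) : N ((F ^ n) x) ((F ^ n) w) ≤ κ ^ n * N x w := by
  induction n with
  | zero => simp
  | succ n ih =>
    have h1 := h _ ((hF.pow n).mem hx) _ (mem_pow hF hAF n hx hw)
    rw [pow_succ']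
    refine h1.trans ?_
    calc κ * N ((F ^ n) x) ((F ^ n) w) ≤ κ * (κ ^ n * N x w) := mul_le_mul_of_nonneg_left ih hκ
      _ = κ ^ (n + 1) * N x w := by ring

theorem lower_pow (hF : S.Nor F) (hAF : ∀ x ∈ S.U, ∀ w, F w ∈ A (F x) ↔ w ∈ A x) {N : E → E → ℝ}
    {κ : ℝ} (hκ : 0 ≤ κ) (h : ∀ x ∈ S.U, ∀ w ∈ A x, κ * N x w ≤ N (F x) (F w)) (n : ℕ) {x w : E}
    (hx : x ∈ S.U) (hw : w ∈ A x) : κ ^ n * N x w ≤ N ((F ^ n) x) ((F ^ n) w) := by
  induction n with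
  | zero => simp
  | succ n ih =>
    have h1 := h _ ((hF.pow n).mem hx) _ (mem_pow hF hAF n hx hw)
    rw [pow_succ' F]
    refine le_trans ?_ h1
    calc κ ^ (n + 1) * N x w = κ * (κ ^ n * N x w) := by ring
      _ ≤ κ * N ((F ^ n) x) ((F ^ n) w) := mul_le_mul_of_nonneg_left ih hκ

end iter

/-- **Domination.** -/
theorem domination [ProperSpace E] (g : S.Met) {K : Set E} (hK : IsCompact K) (hKU : K ⊆ S.U)
    (hKs : ∀ x ∈ S.U, ∃ y ∈ K, S.rel x y) {N : E → E → ℝ} (hN : S.InvFun N)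
    {c₁ C₁ : ℝ} (hc₁ : 0 < c₁) (hC₁ : 0 < C₁)
    (hNK : ∀ x ∈ K, ∀ w, c₁ * ‖w‖ ≤ N x w ∧ N x w ≤ C₁ * ‖w‖)
    (F : E →L[ℂ] E) (hF : S.Nor F) {As Ac Au : E → Submodule ℂ E}
    (hs : ∀ x ∈ S.U, ∀ w, F w ∈ As (F x) ↔ w ∈ As x)
    (hc : ∀ x ∈ S.U, ∀ w, F w ∈ Ac (F x) ↔ w ∈ Ac x)
    (hu : ∀ x ∈ S.U, ∀ w, F w ∈ Au (F x) ↔ w ∈ Au x) {η κ l : ℝ} (hη : 0 < η) (hη1 : η < 1)
    (hκ : 0 < κ) (hηκ : η * κ < 1) (hκl : κ < l) (hl : 1 < l)
    (es : ∀ x ∈ S.U, ∀ w ∈ As x, N (F x) (F w) ≤ η * N x w)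
    (ec : ∀ x ∈ S.U, ∀ w ∈ Ac x, N (F x) (F w) ≤ κ * N x w)
    (ec' : ∀ x ∈ S.U, ∀ w ∈ Ac x, κ⁻¹ * N x w ≤ N (F x) (F w))
    (eu : ∀ x ∈ S.U, ∀ w ∈ Au x, l * N x w ≤ N (F x) (F w)) :
    ∃ n : ℕ, 1 ≤ n ∧ ∀ (q : S.Pt) (vs vc vu : E), vs ∈ As (chartAt E q q) →
      vc ∈ Ac (chartAt E q q) → vu ∈ Au (chartAt E q q) → len g q vs = 1 → len g q vc = 1 →
      len g q vu = 1 →
      len g ((map F hF)^[n] q) ((mfderiv 𝓘(ℝ, E) 𝓘(ℝ, E) (map F hF)^[n] q : E →L[ℝ] E) vs) <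
        min 1 (len g ((map F hF)^[n] q)
          ((mfderiv 𝓘(ℝ, E) 𝓘(ℝ, E) (map F hF)^[n] q : E →L[ℝ] E) vc)) ∧
      max 1 (len g ((map F hF)^[n] q)
          ((mfderiv 𝓘(ℝ, E) 𝓘(ℝ, E) (map F hF)^[n] q : E →L[ℝ] E) vc)) <
        len g ((map F hF)^[n] q)
          ((mfderiv 𝓘(ℝ, E) 𝓘(ℝ, E) (map F hF)^[n] q : E →L[ℝ] E) vu) := by
  obtain ⟨c, hc0, C, hC0, hcomp⟩ := compare g hK hKU hKs hN hc₁ hC₁ hNK
  obtain ⟨D, hD⟩ : ∃ D : ℝ, D = C / c := ⟨_, rfl⟩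
  have hD0 : 0 < D := by rw [hD]; positivity
  have hl0 : 0 < l := by linarith
  have t1 : ∀ᶠ n : ℕ in atTop, D * η ^ n < 1 := by
    have := (tendsto_pow_atTop_nhds_zero_of_lt_one hη.le hη1).const_mul D
    rw [mul_zero] at this
    exact this.eventually_lt_const one_pos
  have t2 : ∀ᶠ n : ℕ in atTop, D ^ 2 * (η * κ) ^ n < 1 := by
    have := (tendsto_pow_atTop_nhds_zero_of_lt_one (by positivity) hηκ).const_mul (D ^ 2)
    rw [mul_zero] at this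
    exact this.eventually_lt_const one_pos
  have t3 : ∀ᶠ n : ℕ in atTop, D * (l⁻¹) ^ n < 1 := by
    have := (tendsto_pow_atTop_nhds_zero_of_lt_one (inv_nonneg.2 hl0.le)
      (inv_lt_one_of_one_lt₀ hl)).const_mul D
    rw [mul_zero] at this
    exact this.eventually_lt_const one_pos
  have t4 : ∀ᶠ n : ℕ in atTop, D ^ 2 * (κ / l) ^ n < 1 := by
    have := (tendsto_pow_atTop_nhds_zero_of_lt_one (by positivity)
      ((div_lt_one hl0).2 hκl)).const_mul (D ^ 2)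
    rw [mul_zero] at this
    exact this.eventually_lt_const one_pos
  obtain ⟨n, h1, h2, h3, h4, hn⟩ := (t1.and (t2.and (t3.and (t4.and (eventually_ge_atTop 1))))).exists
  refine ⟨n, hn, fun q vs vc vu hvs hvc hvu ls lc lu => ?_⟩
  set f := map F hF with hf
  set b := chartAt E q q with hb
  have hbU : b ∈ S.U := chart_self_mem q
  have key : ∀ v : E, c * N ((F ^ n) b) ((F ^ n) v) ≤
      len g (f^[n] q) ((mfderiv 𝓘(ℝ, E) 𝓘(ℝ, E) f^[n] q : E →L[ℝ] E) v) ∧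
      len g (f^[n] q) ((mfderiv 𝓘(ℝ, E) 𝓘(ℝ, E) f^[n] q : E →L[ℝ] E) v) ≤
        C * N ((F ^ n) b) ((F ^ n) v) := by
    intro v
    rw [← N_iterate F hF hN n q v]
    exact hcomp _ _
  have unit : ∀ v : E, len g q v = 1 → 1 / C ≤ N b v ∧ N b v ≤ 1 / c := by
    intro v hv
    obtain ⟨k1, k2⟩ := hcomp q v
    rw [hv] at k1 k2
    constructor
    · rw [div_le_iff₀ hC0, mul_comm]; exact k2
    · rw [le_div_iff₀ hc0, mul_comm]; exact k1
  have is := unit vs ls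
  have ic := unit vc lc
  have iu := unit vu lu
  have us := upper_pow hF hs hη.le es n hbU hvs
  have uc := upper_pow hF hc hκ.le ec n hbU hvc
  have lc' := lower_pow hF hc (inv_nonneg.2 hκ.le) ec' n hbU hvc
  have lu' := lower_pow hF hu hl0.le eu n hbU hvu
  have Us : len g (f^[n] q) ((mfderiv 𝓘(ℝ, E) 𝓘(ℝ, E) f^[n] q : E →L[ℝ] E) vs) ≤ D * η ^ n := by
    refine (key vs).2.trans ?_
    calc C * N ((F ^ n) b) ((F ^ n) vs) ≤ C * (η ^ n * N b vs) := by gcongr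
      _ ≤ C * (η ^ n * (1 / c)) := by gcongr; exact is.2
      _ = D * η ^ n := by rw [hD]; ring
  have Uc : len g (f^[n] q) ((mfderiv 𝓘(ℝ, E) 𝓘(ℝ, E) f^[n] q : E →L[ℝ] E) vc) ≤ D * κ ^ n := by
    refine (key vc).2.trans ?_
    calc C * N ((F ^ n) b) ((F ^ n) vc) ≤ C * (κ ^ n * N b vc) := by gcongr
      _ ≤ C * (κ ^ n * (1 / c)) := by gcongr; exact ic.2
      _ = D * κ ^ n := by rw [hD]; ring
  have Lc : D⁻¹ * (κ⁻¹) ^ n ≤
      len g (f^[n] q) ((mfderiv 𝓘(ℝ, E) 𝓘(ℝ, E) f^[n] q : E →L[ℝ] E) vc) := by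
    refine le_trans ?_ (key vc).1
    calc D⁻¹ * (κ⁻¹) ^ n = c * ((κ⁻¹) ^ n * (1 / C)) := by rw [hD, inv_div]; ring
      _ ≤ c * ((κ⁻¹) ^ n * N b vc) := by gcongr; exact ic.1
      _ ≤ c * N ((F ^ n) b) ((F ^ n) vc) := by gcongr
  have Lu : D⁻¹ * l ^ n ≤
      len g (f^[n] q) ((mfderiv 𝓘(ℝ, E) 𝓘(ℝ, E) f^[n] q : E →L[ℝ] E) vu) := by
    refine le_trans ?_ (key vu).1
    calc D⁻¹ * l ^ n = c * (l ^ n * (1 / C)) := by rw [hD, inv_div]; ring
      _ ≤ c * (l ^ n * N b vu) := by gcongr; exact iu.1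
      _ ≤ c * N ((F ^ n) b) ((F ^ n) vu) := by gcongr
  have hln : 0 < l ^ n := pow_pos hl0 n
  have hκn : 0 < κ ^ n := pow_pos hκ n
  constructor
  · refine lt_of_le_of_lt Us (lt_min h1 (lt_of_lt_of_le ?_ Lc))
    rw [inv_pow, ← mul_inv, lt_inv_comm₀ (by positivity) (by positivity)]
    rw [lt_inv_comm₀ (by positivity) (by positivity)]
    have : D * η ^ n * (D * κ ^ n) < 1 := by
      rw [mul_pow] at h2
      calc D * η ^ n * (D * κ ^ n) = D ^ 2 * (η ^ n * κ ^ n) := by ring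
        _ < 1 := h2
    rwa [← lt_div_iff₀ (by positivity), one_div] at this
  · refine lt_of_lt_of_le (max_lt ?_ (lt_of_le_of_lt Uc ?_)) Lu
    · rw [inv_pow] at h3
      rw [lt_inv_mul_iff₀ hD0, mul_one]
      rwa [← div_eq_mul_inv, div_lt_one hln] at h3
    · rw [lt_inv_mul_iff₀ hD0]
      rw [div_pow, ← mul_div_assoc, div_lt_one hln] at h4
      calc D * (D * κ ^ n) = D ^ 2 * κ ^ n := by ring
        _ < l ^ n := h4

end Pool.Agent.Y331.PH.Et
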