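import Pool.Agent.Y331.PH.Et

/-!
# Tangent vectors, maps and vector fields on the quotient
-/

set_option autoImplicit false

open scoped Manifold ContDiff Topology
open Set Filter

namespace Pool.Agent.Y331.PH.Et

variable {E : Type} [NormedAddCommGroup E] [NormedSpace ℂ E] {S : Et E}

theorem Germ.hasFDerivAt {φ : E → E} {x : E} (h : S.Germ φ x) :
    HasFDerivAt φ (fderiv ℂ φ x) x :=
  (h.contDiffAt.differentiableAt (by simp)).hasFDerivAt

theorem germ_id {x : E} (hx : x ∈ S.U) : S.Germ (fun z => z) x := by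
  refine ⟨continuousAt_id, ?_⟩
  filter_upwards [S.isOpen.mem_nhds hx] with z hz using S.refl z hz

theorem Germ.fderiv_comp {φ ψ : E → E} {x : E} (h : S.Germ φ x) (h' : S.Germ ψ (φ x)) :
    fderiv ℂ (fun z => ψ (φ z)) x = (fderiv ℂ ψ (φ x)).comp (fderiv ℂ φ x) :=
  (h'.hasFDerivAt.comp x h.hasFDerivAt).fderiv

/-- germs are invertible. -/
theorem Germ.inverse {φ : E → E} {x : E} (h : S.Germ φ x) : ∃ ψ : E → E, S.Germ ψ (φ x) ∧
    ψ (φ x) = x ∧ (∀ w, fderiv ℂ ψ (φ x) (fderiv ℂ φ x w) = w) ∧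
    ∀ w, fderiv ℂ φ x (fderiv ℂ ψ (φ x) w) = w := by
  obtain ⟨ψ, h1, h2⟩ := exists_germ (S.symm _ _ h.rel)
  refine ⟨ψ, h2, h1, fun w => ?_, fun w => ?_⟩
  · have h3 := h.comp h2
    have h4 := h3.unique (germ_id h.mem) h1
    have h5 := h.fderiv_comp h2
    rw [h4.fderiv_eq] at h5
    have h6 := DFunLike.congr_fun h5 w
    simp only [ContinuousLinearMap.comp_apply] at h6
    rw [← h6]
    simp [fderiv_fun_id]
  · have h' : S.Germ φ (ψ (φ x)) := by rw [h1]; exact h
    have h3 := h2.comp h'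
    have h4 := h3.unique (germ_id h2.mem) (by rw [h1])
    have h5 := h2.fderiv_comp h'
    rw [h4.fderiv_eq, h1] at h5
    have h6 := DFunLike.congr_fun h5 w
    simp only [ContinuousLinearMap.comp_apply] at h6
    rw [← h6]
    simp [fderiv_fun_id]

variable (S)

/-- the tangent map of the projection, in the preferred chart. -/
noncomputable def T (x : E) : E →L[ℂ] E := fderiv ℂ (fun z => chartAt E (S.p x) (S.p z)) x

/-- tangent vectors of the quotient. -/
noncomputable def tv (x w : E) : TangentBundle 𝓘(ℝ, E) S.Pt := ⟨S.p x, S.T x w⟩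

variable {S}

theorem germ_T {x : E} (hx : x ∈ S.U) : S.Germ (fun z => chartAt E (S.p x) (S.p z)) x :=
  germ_p (chart_mem_atlas E _) hx (mem_chart_source E _)

theorem mk_congr {q q' : S.Pt} (h : q = q') (w : E) :
    (⟨q, w⟩ : TangentBundle 𝓘(ℝ, E) S.Pt) = ⟨q', w⟩ := by
  subst h
  rfl

theorem Germ.tv_eq {φ : E → E} {x : E} (h : S.Germ φ x) (w : E) :
    S.tv (φ x) (fderiv ℂ φ x w) = S.tv x w := by
  have hp : S.p (φ x) = S.p x := S.p_eq_of_rel (S.symm _ _ h.rel)
  have hU : φ x ∈ S.U := S.mem' h.rel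
  unfold tv
  rw [mk_congr hp]
  congr 1
  have h1 := germ_T hU
  have h2 := h.fderiv_comp h1
  have h3 : S.T (φ x) (fderiv ℂ φ x w) = fderiv ℂ (fun z => chartAt E (S.p (φ x)) (S.p (φ z))) x w := by
    rw [h2]; rfl
  rw [h3, hp]
  have h4 : (fun z => chartAt E (S.p x) (S.p (φ z))) =ᶠ[𝓝 x] fun z => chartAt E (S.p x) (S.p z) := by
    filter_upwards [h.2] with z hz
    rw [S.p_eq_of_rel (S.symm _ _ hz)]
  rw [h4.fderiv_eq]
  rfl

/-- the coordinate changes of the tangent bundle. -/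
theorem tangentCoordChange_eq {x y z : S.Pt} (hx : z ∈ (chartAt E x).source)
    (hy : z ∈ (chartAt E y).source) (w : E) : tangentCoordChange 𝓘(ℝ, E) x y z w =
      fderiv ℂ (fun v => chartAt E y ((chartAt E x).symm v)) (chartAt E x z) w := by
  rw [tangentCoordChange_def]
  simp only [modelWithCornersSelf_coe, range_id, fderivWithin_univ]
  have h3 : (extChartAt 𝓘(ℝ, E) y ∘ (extChartAt 𝓘(ℝ, E) x).symm) =
      fun v => chartAt E y ((chartAt E x).symm v) := by
    funext v
    simp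
  have h4 : extChartAt 𝓘(ℝ, E) x z = chartAt E x z := by simp
  rw [h3, h4]
  have h5 := germ_change (chart_mem_atlas E x) (chart_mem_atlas E y)
    ((chartAt E x).map_source hx) (by rw [(chartAt E x).left_inv hx]; exact hy)
  have h6 := h5.hasFDerivAt.restrictScalars ℝ
  rw [h6.fderiv]
  rfl

/-- the tangent vectors in a chart. -/
theorem tangentCoordChange_T {x : E} (hx : x ∈ S.U) {q : S.Pt} (hq : S.p x ∈ (chartAt E q).source)
    (w : E) : tangentCoordChange 𝓘(ℝ, E) (S.p x) q (S.p x) (S.T x w) =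
      fderiv ℂ (fun z => chartAt E q (S.p z)) x w := by
  rw [tangentCoordChange_eq (mem_chart_source E _) hq]
  have h1 := germ_T hx
  have h2 := germ_change (chart_mem_atlas E (S.p x)) (chart_mem_atlas E q)
    ((chartAt E (S.p x)).map_source (mem_chart_source E _))
    (by rw [(chartAt E (S.p x)).left_inv (mem_chart_source E _)]; exact hq)
  have h3 := h1.fderiv_comp h2
  have h4 : fderiv ℂ (fun z => chartAt E q ((chartAt E (S.p x)).symm (chartAt E (S.p x) (S.p z)))) x w
      = fderiv ℂ (fun z => chartAt E q (S.p z)) x w := by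
    have h5 : (fun z => chartAt E q ((chartAt E (S.p x)).symm (chartAt E (S.p x) (S.p z))))
        =ᶠ[𝓝 x] fun z => chartAt E q (S.p z) := by
      filter_upwards [(S.continuousAt_p hx).eventually
        ((chartAt E (S.p x)).open_source.mem_nhds (mem_chart_source E _))] with z hz
      rw [(chartAt E (S.p x)).left_inv hz]
    rw [h5.fderiv_eq]
  rw [← h4, h3]
  rfl

theorem continuousOn_tv : ContinuousOn (fun z : E × E => S.tv z.1 z.2) (S.U ×ˢ univ) := by
  rintro ⟨x₀, w₀⟩ ⟨hx₀, -⟩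
  apply ContinuousAt.continuousWithinAt
  rw [FiberBundle.continuousAt_totalSpace]
  constructor
  · exact (S.continuousAt_p hx₀).comp continuousAt_fst
  · have hg : S.Germ (fun z => chartAt E (S.p x₀) (S.p z)) x₀ := germ_T hx₀
    have h1 : ContinuousAt (fderiv ℂ (fun z => chartAt E (S.p x₀) (S.p z))) x₀ :=
      (hg.contDiffAt.fderiv_right (m := 0) (by simp)).continuousAt
    have h2 : ContinuousAt (fun z : E × E =>
        fderiv ℂ (fun z => chartAt E (S.p x₀) (S.p z)) z.1 z.2) (x₀, w₀) :=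
      (h1.comp (f := Prod.fst) (x := (x₀, w₀)) continuousAt_fst).clm_apply continuousAt_snd
    refine h2.congr ?_
    have h3 : ∀ᶠ z : E × E in 𝓝 (x₀, w₀), z.1 ∈ S.U :=
      continuousAt_fst.eventually (S.isOpen.mem_nhds hx₀)
    have h4 : ∀ᶠ z : E × E in 𝓝 (x₀, w₀), S.p z.1 ∈ (chartAt E (S.p x₀)).source :=
      ((S.continuousAt_p hx₀).comp (f := Prod.fst) (x := (x₀, w₀)) continuousAt_fst).eventually
        ((chartAt E (S.p x₀)).open_source.mem_nhds (mem_chart_source E _))
    filter_upwards [h3, h4] with z hz1 hz2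
    exact (tangentCoordChange_T hz1 hz2 z.2).symm

/-! ### Maps -/

/-- A linear map of `E` preserving the relation. -/
def Nor (S : Et E) (F : E →L[ℂ] E) : Prop := ∀ x y, S.rel x y → S.rel (F x) (F y)

theorem Nor.mem {F : E →L[ℂ] E} (hF : S.Nor F) {x : E} (hx : x ∈ S.U) : F x ∈ S.U :=
  S.mem _ _ (hF x x (S.refl x hx))

/-- The induced map on the quotient. -/
noncomputable def map (F : E →L[ℂ] E) (hF : S.Nor F) : S.Pt → S.Pt :=
  Quotient.lift (fun x : S.U => S.pr ⟨F x, hF.mem x.2⟩) (by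
    intro a b hab
    exact S.pr_eq_iff.2 (hF _ _ hab))

theorem map_p (F : E →L[ℂ] E) (hF : S.Nor F) {x : E} (hx : x ∈ S.U) :
    map F hF (S.p x) = S.p (F x) := by
  rw [S.p_eq hx, S.p_eq (hF.mem hx)]
  rfl

theorem continuous_map (F : E →L[ℂ] E) (hF : S.Nor F) : Continuous (map F hF) := by
  refine Continuous.quotient_lift ?_ _
  exact S.continuous_pr.comp ((F.continuous.comp continuous_subtype_val).subtype_mk _)

theorem map_eq (F : E →L[ℂ] E) (hF : S.Nor F) (q : S.Pt) :
    map F hF q = S.p (F (chartAt E q q)) := by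
  rw [← map_p F hF (chart_self_mem q), p_chart_self]

/-- the induced map in the charts. -/
theorem map_local (F : E →L[ℂ] E) (hF : S.Nor F) (q : S.Pt) :
    ∀ᶠ z in 𝓝 (chartAt E q q), chartAt E (map F hF q) (map F hF ((chartAt E q).symm z)) =
        chartAt E (S.p (F (chartAt E q q))) (S.p (F z)) := by
  filter_upwards [(chartAt E q).open_target.mem_nhds ((chartAt E q).map_source
    (mem_chart_source E q))] with z hz
  rw [atlas_symm (chart_mem_atlas E q) hz, map_p F hF (atlas_target (chart_mem_atlas E q) hz),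
    map_eq]

theorem germ_map (F : E →L[ℂ] E) (hF : S.Nor F) (q : S.Pt) :
    S.Germ (fun z => chartAt E (S.p (F (chartAt E q q))) (S.p z)) (F (chartAt E q q)) :=
  germ_T (hF.mem (chart_self_mem q))

theorem contMDiff_map (F : E →L[ℂ] E) (hF : S.Nor F) :
    ContMDiff 𝓘(ℂ, E) 𝓘(ℂ, E) ω (map F hF) := by
  intro q
  rw [contMDiffAt_iff]
  refine ⟨(continuous_map F hF).continuousAt, ?_⟩
  apply ContDiffAt.contDiffWithinAt
  have h3 := (germ_map F hF q).contDiffAt.comp (chartAt E q q) F.contDiff.contDiffAt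
  refine ContDiffAt.congr_of_eventuallyEq
    (f := fun z => chartAt E (S.p (F (chartAt E q q))) (S.p (F z))) ?_ ?_
  · simpa [Function.comp_def] using h3
  · filter_upwards [map_local F hF q] with z hz
    simpa using hz

/-- the derivative of the induced map. -/
theorem hasMFDerivAt_map (F : E →L[ℂ] E) (hF : S.Nor F) (q : S.Pt) :
    HasMFDerivAt 𝓘(ℝ, E) 𝓘(ℝ, E) (map F hF) q
      (((S.T (F (chartAt E q q))).comp F).restrictScalars ℝ) := by
  refine ⟨(continuous_map F hF).continuousAt, ?_⟩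
  apply HasFDerivAt.hasFDerivWithinAt
  have h1 := (germ_map F hF q).hasFDerivAt.comp (chartAt E q q) F.hasFDerivAt
  have h2 := h1.restrictScalars ℝ
  refine h2.congr_of_eventuallyEq ?_
  filter_upwards [map_local F hF q] with z hz
  simpa using hz

theorem mfderiv_map (F : E →L[ℂ] E) (hF : S.Nor F) (q : S.Pt) (w : E) :
    (mfderiv 𝓘(ℝ, E) 𝓘(ℝ, E) (map F hF) q : E →L[ℝ] E) w = S.T (F (chartAt E q q)) (F w) := by
  rw [(hasMFDerivAt_map F hF q).mfderiv]
  rfl

/-- The diffeomorphism induced by an automorphism. -/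
noncomputable def diffeo (F G : E →L[ℂ] E) (hF : S.Nor F) (hG : S.Nor G) (h : ∀ x, G (F x) = x)
    (h' : ∀ x, F (G x) = x) : Diffeomorph 𝓘(ℂ, E) 𝓘(ℂ, E) S.Pt S.Pt ω where
  toFun := map F hF
  invFun := map G hG
  left_inv q := by
    obtain ⟨x, hx, rfl⟩ := S.exists_rep q
    rw [map_p F hF hx, map_p G hG (hF.mem hx), h]
  right_inv q := by
    obtain ⟨x, hx, rfl⟩ := S.exists_rep q
    rw [map_p G hG hx, map_p F hF (hG.mem hx), h']
  contMDiff_toFun := contMDiff_map F hF
  contMDiff_invFun := contMDiff_map G hG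

/-! ### Invariant functions and subspaces -/

/-- Functions of tangent vectors that are invariant under the relation. -/
def InvFun (S : Et E) (N : E → E → ℝ) : Prop :=
  ∀ (φ : E → E) (x : E), S.Germ φ x → ∀ w, N (φ x) (fderiv ℂ φ x w) = N x w

/-- Fields of subspaces that are invariant under the relation. -/
def InvSub (S : Et E) (A : E → Submodule ℂ E) : Prop :=
  ∀ (φ : E → E) (x : E), S.Germ φ x → ∀ w, w ∈ A x → fderiv ℂ φ x w ∈ A (φ x)

theorem InvSub.iff {A : E → Submodule ℂ E} (hA : S.InvSub A) {φ : E → E} {x : E}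
    (h : S.Germ φ x) (w : E) : fderiv ℂ φ x w ∈ A (φ x) ↔ w ∈ A x := by
  refine ⟨fun hw => ?_, hA φ x h w⟩
  obtain ⟨ψ, h1, h2, h3, -⟩ := h.inverse
  have := hA ψ (φ x) h1 _ hw
  rwa [h3, h2] at this

theorem T_chart (q : S.Pt) (w : E) : S.T (chartAt E q q) w = w := by
  have h1 := germ_T (S := S) (chart_self_mem q)
  have h2 : (fun z => chartAt E (S.p (chartAt E q q)) (S.p z)) =ᶠ[𝓝 (chartAt E q q)] fun z => z :=
    h1.unique (germ_id (chart_self_mem q)) (by simp only [p_chart_self])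
  unfold T
  rw [h2.fderiv_eq]
  simp [fderiv_fun_id]

theorem InvFun.T {N : E → E → ℝ} (hN : S.InvFun N) {x : E} (hx : x ∈ S.U) (w : E) :
    N (chartAt E (S.p x) (S.p x)) (S.T x w) = N x w := hN _ _ (germ_T hx) w

theorem InvSub.T {A : E → Submodule ℂ E} (hA : S.InvSub A) {x : E} (hx : x ∈ S.U) (w : E) :
    S.T x w ∈ A (chartAt E (S.p x) (S.p x)) ↔ w ∈ A x := hA.iff (germ_T hx) w

theorem T_bijective {x : E} (hx : x ∈ S.U) : Function.Bijective (S.T x) := by
  obtain ⟨ψ, h1, h2, h3, h4⟩ := (germ_T hx).inverse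
  exact ⟨fun a b hab => by rw [← h3 a, ← h3 b]; exact congrArg _ hab, fun b => ⟨_, h4 b⟩⟩

/-- the field of real subspaces of the tangent spaces of the quotient. -/
noncomputable def fld (S : Et E) (A : E → Submodule ℂ E) (q : S.Pt) : Submodule ℝ (TangentSpace 𝓘(ℝ, E) q) :=
  (A (chartAt E q q)).restrictScalars ℝ

theorem mem_fld {A : E → Submodule ℂ E} {q : S.Pt} {w : E} :
    (show TangentSpace 𝓘(ℝ, E) q from w) ∈ S.fld A q ↔ w ∈ A (chartAt E q q) := Iff.rfl

/-- invariance of the field of subspaces. -/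
theorem map_fld (F G : E →L[ℂ] E) (hF : S.Nor F) (h' : ∀ x, F (G x) = x) {A : E → Submodule ℂ E}
    (hA : S.InvSub A) (hAF : ∀ x ∈ S.U, ∀ w, F w ∈ A (F x) ↔ w ∈ A x) (q : S.Pt) :
    (S.fld A q).map (mfderiv 𝓘(ℝ, E) 𝓘(ℝ, E) (map F hF) q).toLinearMap =
      S.fld A (map F hF q) := by
  have hU := hF.mem (chart_self_mem q)
  ext w
  rw [Submodule.mem_map]
  constructor
  · rintro ⟨v, hv, rfl⟩
    have hv' : (v : E) ∈ A (chartAt E q q) := hv
    have h1 : S.T (F (chartAt E q q)) (F (v : E)) ∈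
        A (chartAt E (S.p (F (chartAt E q q))) (S.p (F (chartAt E q q)))) :=
      (hA.T hU _).2 ((hAF _ (chart_self_mem q) _).2 hv')
    rw [← map_eq F hF q, ← mfderiv_map F hF] at h1
    exact h1
  · intro hw
    have hw' : (w : E) ∈ A (chartAt E (map F hF q) (map F hF q)) := hw
    obtain ⟨v, hv⟩ := (T_bijective hU).2 w
    have h2 : G v ∈ A (chartAt E q q) := by
      rw [← hAF _ (chart_self_mem q), h', ← hA.T hU, hv, ← map_eq F hF]
      exact hw'
    refine ⟨(show E from G v), h2, ?_⟩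
    have h3 := mfderiv_map F hF q (G v)
    rw [h', hv] at h3
    exact h3

end Pool.Agent.Y331.PH.Et
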