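import Pool.Agent.Y331.PH.Theta

/-!
# The linear maps
-/

set_option autoImplicit false

open scoped Topology ComplexConjugate
open Set Filter

namespace Pool.Agent.Y331.PH

/-- diagonal maps. -/
def dil {J : Type} (m : J → ℝ) (v : J → ℂ) : J → ℂ := fun i => (m i : ℂ) * v i

section dil

variable {J : Type} (m : J → ℝ)

@[simp] theorem dil_apply (v : J → ℂ) (i : J) : dil m v i = (m i : ℂ) * v i := rfl

theorem dil_add (v w : J → ℂ) : dil m (v + w) = dil m v + dil m w := by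
  ext i; simp [mul_add]

theorem dil_sub (v w : J → ℂ) : dil m (v - w) = dil m v - dil m w := by
  ext i; simp [mul_sub]

theorem dil_smul (c : ℂ) (v : J → ℂ) : dil m (c • v) = c • dil m v := by
  ext i; simp [mul_left_comm]

theorem dil_zero : dil m (0 : J → ℂ) = 0 := by
  ext i; simp

variable {m}

theorem dil_inv (hm : ∀ i, m i ≠ 0) (v : J → ℂ) : dil (fun i => (m i)⁻¹) (dil m v) = v := by
  ext i
  have : (m i : ℂ) ≠ 0 := by exact_mod_cast hm i
  simp only [dil_apply]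
  push_cast
  field_simp

theorem dil_inv' (hm : ∀ i, m i ≠ 0) (v : J → ℂ) : dil m (dil (fun i => (m i)⁻¹) v) = v := by
  ext i
  have : (m i : ℂ) ≠ 0 := by exact_mod_cast hm i
  simp only [dil_apply]
  push_cast
  field_simp

theorem dil_ne (hm : ∀ i, m i ≠ 0) {v : J → ℂ} (hv : v ≠ 0) : dil m v ≠ 0 := by
  intro h
  apply hv
  rw [← dil_inv hm v, h, dil_zero]

variable [Fintype J]

theorem norm_dil_le {p : ℝ} (hp : 0 ≤ p) (h : ∀ i, |m i| ≤ p) (v : J → ℂ) :
    ‖dil m v‖ ≤ p * ‖v‖ := by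
  rw [pi_norm_le_iff_of_nonneg (by positivity)]
  intro i
  rw [dil_apply, norm_mul, Complex.norm_real, Real.norm_eq_abs]
  exact mul_le_mul (h i) (norm_le_pi_norm v i) (norm_nonneg _) hp

theorem norm_dil_le' {p : ℝ} (hp : 0 ≤ p) {v : J → ℂ} (h : ∀ i, v i ≠ 0 → |m i| ≤ p) :
    ‖dil m v‖ ≤ p * ‖v‖ := by
  rw [pi_norm_le_iff_of_nonneg (by positivity)]
  intro i
  rw [dil_apply, norm_mul, Complex.norm_real, Real.norm_eq_abs]
  by_cases hv : v i = 0
  · rw [hv, norm_zero, mul_zero]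
    positivity
  · exact mul_le_mul (h i hv) (norm_le_pi_norm v i) (norm_nonneg _) hp

theorem le_norm_dil' {q : ℝ} (hq : 0 < q) {v : J → ℂ} (h : ∀ i, v i ≠ 0 → q ≤ |m i|) :
    q * ‖v‖ ≤ ‖dil m v‖ := by
  rw [← le_div_iff₀' hq, pi_norm_le_iff_of_nonneg (by positivity)]
  intro i
  rw [le_div_iff₀' hq]
  by_cases hv : v i = 0
  · rw [hv, norm_zero, mul_zero]
    positivity
  · calc q * ‖v i‖ ≤ |m i| * ‖v i‖ := by gcongr; exact h i hv
      _ = ‖dil m v i‖ := by rw [dil_apply, norm_mul, Complex.norm_real, Real.norm_eq_abs]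
      _ ≤ ‖dil m v‖ := norm_le_pi_norm _ i

end dil

/-- the linear map. -/
noncomputable def Fm (m : Fin 3 → ℝ) (c : II → ℝ) : EE →L[ℂ] EE :=
  LinearMap.toContinuousLinearMap
    { toFun := fun b => (dil m b.1, b.2.1, dil c b.2.2)
      map_add' := fun b b' => by
        refine Prod.ext ?_ (Prod.ext ?_ ?_)
        · exact dil_add m _ _
        · rfl
        · exact dil_add c _ _
      map_smul' := fun a b => by
        refine Prod.ext ?_ (Prod.ext ?_ ?_)
        · exact dil_smul m _ _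
        · rfl
        · exact dil_smul c _ _ }

theorem Fm_apply (m : Fin 3 → ℝ) (c : II → ℝ) (b : EE) :
    Fm m c b = (dil m b.1, b.2.1, dil c b.2.2) := rfl

/-- compatibility of the data with the linear map. -/
structure Aut (D : Dat) (m : Fin 3 → ℝ) (c : II → ℝ) : Prop where
  hm : ∀ i, m i ≠ 0
  hc : ∀ i j, c (Sum.inl (i, j)) = m i * m j
  hL : ∀ l, dil m l ∈ D.L ↔ l ∈ D.L
  hLam : ∀ k ∈ D.Lam, dil c k ∈ D.Lam

variable {D : Dat} {m : Fin 3 → ℝ} {c : II → ℝ}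

theorem bet_dil (hc : ∀ i j, c (Sum.inl (i, j)) = m i * m j) (x y : V3) :
    bet (dil m x) (dil m y) = dil c (bet x y) := by
  ext i
  rcases i with ⟨i, j⟩ | i
  · simp only [bet_inl, dil_apply, hc, map_mul, Complex.conj_ofReal]
    push_cast
    ring
  · simp

theorem th_Fm (hc : ∀ i j, c (Sum.inl (i, j)) = m i * m j) (b w : EE) :
    th (Fm m c b) (Fm m c w) = dil c (th b w) := by
  unfold th
  rw [Fm_apply, Fm_apply]
  simp only
  rw [bet_dil hc, bet_dil hc, dil_add, dil_add, dil_smul, dil_smul]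

theorem xd_Fm (b w : EE) (s : ℂ) : xd (Fm m c b) (Fm m c w) s = dil m (xd b w s) := by
  unfold xd
  rw [Fm_apply, Fm_apply]
  simp only
  rw [dil_add, dil_smul, dil_smul]

theorem Rl_Fm (hc : ∀ i j, c (Sum.inl (i, j)) = m i * m j) {b b' : EE} {s : ℂ} {n : ℤ} {l : V3}
    {k : WW} (h : Rl b b' s n l k) : Rl (Fm m c b) (Fm m c b') s n (dil m l) (dil c k) where
  sq := h.sq
  zr h0 := by rw [h.zr h0, dil_zero]
  h1 := by
    rw [Fm_apply, Fm_apply]
    simp only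
    rw [h.h1, dil_smul, dil_add, dil_smul]
  h2 := h.h2
  h3 := by
    rw [Fm_apply, Fm_apply]
    simp only
    rw [h.h3, dil_add, dil_sub, ← dil_smul, bet_dil hc]

theorem Aut.mem (h : Aut D m c) {b : EE} (hb : b ∈ D.U) : Fm m c b ∈ D.U := by
  constructor
  · exact dil_ne h.hm hb.1
  · intro s hs hsL
    rw [Fm_apply] at hsL
    simp only at hsL
    rw [← dil_smul, h.hL] at hsL
    exact hb.2 s hs hsL

theorem Aut.rel (h : Aut D m c) {b b' : EE} (hr : D.rel b b') : D.rel (Fm m c b) (Fm m c b') := by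
  obtain ⟨hb, s, n, l, hl, k, hk, hR⟩ := hr
  exact ⟨h.mem hb, s, n, dil m l, (h.hL l).2 hl, dil c k, h.hLam k hk, Rl_Fm h.hc hR⟩

theorem mem_Vert_Fm (hc : ∀ i j, c (Sum.inl (i, j)) = m i * m j) (hm : ∀ i, m i ≠ 0)
    (hc0 : ∀ i, c i ≠ 0) (J : Finset II) (b w : EE) :
    Fm m c w ∈ Vert J (Fm m c b) ↔ w ∈ Vert J b := by
  rw [mem_Vert, mem_Vert, th_Fm hc, Fm_apply]
  simp only
  have h1 : dil m w.1 = 0 ↔ w.1 = 0 := by
    constructor
    · intro h
      by_contra hcon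
      exact dil_ne hm hcon h
    · intro h
      rw [h, dil_zero]
  have h2 : ∀ i, (dil c (th b w) i = 0 ↔ th b w i = 0) := by
    intro i
    rw [dil_apply, mul_eq_zero]
    have : (c i : ℂ) ≠ 0 := by exact_mod_cast hc0 i
    tauto
  simp only [h1, h2]

theorem mem_Hor_Fm (hc : ∀ i j, c (Sum.inl (i, j)) = m i * m j)
    (hc0 : ∀ i, c i ≠ 0) (J : Finset II) (b w : EE) :
    Fm m c w ∈ Hor J (Fm m c b) ↔ w ∈ Hor J b := by
  rw [mem_Hor, mem_Hor, th_Fm hc]
  have h2 : ∀ i, (dil c (th b w) i = 0 ↔ th b w i = 0) := by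
    intro i
    rw [dil_apply, mul_eq_zero]
    have : (c i : ℂ) ≠ 0 := by exact_mod_cast hc0 i
    tauto
  simp only [h2]

theorem Fm_inv (hm : ∀ i, m i ≠ 0) (hc0 : ∀ i, c i ≠ 0) (b : EE) :
    Fm (fun i => (m i)⁻¹) (fun i => (c i)⁻¹) (Fm m c b) = b := by
  rw [Fm_apply, Fm_apply]
  simp only
  rw [dil_inv hm, dil_inv hc0]

theorem Fm_inv' (hm : ∀ i, m i ≠ 0) (hc0 : ∀ i, c i ≠ 0) (b : EE) :
    Fm m c (Fm (fun i => (m i)⁻¹) (fun i => (c i)⁻¹) b) = b := by
  rw [Fm_apply, Fm_apply]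
  simp only
  rw [dil_inv' hm, dil_inv' hc0]

end Pool.Agent.Y331.PH
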