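import Pool.Agent.Y331.PH.Fmap

/-!
# The lattices
-/

set_option autoImplicit false

open scoped Topology ComplexConjugate
open Set Filter

namespace Pool.Agent.Y331.PH

/-! ### Gaussian integers -/

/-- the Gaussian integers. -/
noncomputable def Gs : Subring ℂ := GaussianInt.toComplex.range

theorem Gs_conj {z : ℂ} (hz : z ∈ Gs) : conj z ∈ Gs := by
  obtain ⟨g, rfl⟩ := hz
  exact ⟨star g, GaussianInt.toComplex_star g⟩

theorem Gs_int (n : ℤ) : (n : ℂ) ∈ Gs := intCast_mem Gs n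

theorem Gs_norm {z : ℂ} (hz : z ∈ Gs) (h0 : z ≠ 0) : 1 ≤ ‖z‖ := by
  obtain ⟨g, rfl⟩ := hz
  have hg : g ≠ 0 := by
    rintro rfl
    exact h0 (map_zero _)
  have h1 : 0 < Zsqrtd.norm g := GaussianInt.norm_pos.2 hg
  have h2 : (1 : ℝ) ≤ (Zsqrtd.norm g : ℝ) := by exact_mod_cast h1
  have h3 : ((Zsqrtd.norm g : ℤ) : ℝ) = Complex.normSq (GaussianInt.toComplex g) :=
    GaussianInt.intCast_real_norm g
  rw [h3, Complex.normSq_eq_norm_sq] at h2
  exact (one_le_sq_iff₀ (norm_nonneg _)).1 h2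

theorem Gs_round (z : ℂ) : ∃ g ∈ Gs, ‖z + g‖ ≤ 1 := by
  refine ⟨-(((round z.re : ℤ) : ℂ) + ((round z.im : ℤ) : ℂ) * Complex.I), ?_, ?_⟩
  · refine Gs.neg_mem (Gs.add_mem (Gs_int _) (Gs.mul_mem (Gs_int _) ?_))
    exact ⟨⟨0, 1⟩, by simp [GaussianInt.toComplex_def]⟩
  · have h1 : z + -(((round z.re : ℤ) : ℂ) + ((round z.im : ℤ) : ℂ) * Complex.I) =
        ((z.re - round z.re : ℝ) : ℂ) + ((z.im - round z.im : ℝ) : ℂ) * Complex.I := by
      apply Complex.ext
      · simp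
        ring
      · simp
        ring
    rw [h1]
    refine (norm_add_le _ _).trans ?_
    rw [norm_mul, Complex.norm_I, mul_one, Complex.norm_real, Complex.norm_real,
      Real.norm_eq_abs, Real.norm_eq_abs]
    have h2 := abs_sub_round z.re
    have h3 := abs_sub_round z.im
    linarith

/-! ### Lattices -/

section lat

variable {J : Type} [Fintype J]

/-- the image of the Gaussian integers. -/
noncomputable def lat (T : (J → ℂ) →ₗ[ℂ] (J → ℂ)) : AddSubgroup (J → ℂ) where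
  carrier := {x | ∃ a : J → ℂ, (∀ i, a i ∈ Gs) ∧ T a = x}
  add_mem' := by
    rintro _ _ ⟨a, ha, rfl⟩ ⟨b, hb, rfl⟩
    exact ⟨a + b, fun i => Gs.add_mem (ha i) (hb i), map_add _ _ _⟩
  zero_mem' := ⟨0, fun _ => Gs.zero_mem, map_zero _⟩
  neg_mem' := by
    rintro _ ⟨a, ha, rfl⟩
    exact ⟨-a, fun i => Gs.neg_mem (ha i), map_neg _ _⟩

omit [Fintype J] in
theorem mem_lat {T : (J → ℂ) →ₗ[ℂ] (J → ℂ)} {x : J → ℂ} :
    x ∈ lat T ↔ ∃ a : J → ℂ, (∀ i, a i ∈ Gs) ∧ T a = x := Iff.rfl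

theorem lat_sep {T : (J → ℂ) →ₗ[ℂ] (J → ℂ)} (hT : Function.Injective T) :
    ∃ r > 0, ∀ l ∈ lat T, ‖l‖ < r → l = 0 := by
  obtain ⟨K, hK, hK2⟩ := T.exists_antilipschitzWith (LinearMap.ker_eq_bot.2 hT)
  have hK0 : (0 : ℝ) < K := by exact_mod_cast hK
  refine ⟨1 / K, by positivity, ?_⟩
  rintro _ ⟨a, ha, rfl⟩ hlt
  have h1 : ‖a‖ ≤ K * ‖T a‖ := by
    have := hK2.le_mul_dist a 0
    simpa [dist_eq_norm] using this
  have h2 : ‖a‖ < 1 := by
    calc ‖a‖ ≤ K * ‖T a‖ := h1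
      _ < K * (1 / K) := by gcongr
      _ = 1 := by field_simp
  have h3 : a = 0 := by
    ext i
    by_contra hi
    have h4 := Gs_norm (ha i) hi
    have h5 := norm_le_pi_norm a i
    linarith
  rw [h3, map_zero]

theorem lat_cov {T : (J → ℂ) →ₗ[ℂ] (J → ℂ)} (hT : Function.Injective T) :
    ∃ R, ∀ x, ∃ l ∈ lat T, ‖x + l‖ ≤ R := by
  refine ⟨‖LinearMap.toContinuousLinearMap T‖, fun x => ?_⟩
  obtain ⟨y, rfl⟩ := (LinearMap.injective_iff_surjective.1 hT) x
  choose g hg hg2 using fun i => Gs_round (y i)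
  refine ⟨T g, ⟨g, hg, rfl⟩, ?_⟩
  rw [← map_add]
  have h1 := (LinearMap.toContinuousLinearMap T).le_opNorm (y + g)
  have h2 : ‖y + g‖ ≤ 1 := by
    rw [pi_norm_le_iff_of_nonneg zero_le_one]
    exact hg2
  calc ‖T (y + g)‖ ≤ ‖LinearMap.toContinuousLinearMap T‖ * ‖y + g‖ := h1
    _ ≤ ‖LinearMap.toContinuousLinearMap T‖ * 1 := by gcongr
    _ = _ := mul_one _

end lat

/-! ### The cubic units -/

theorem exists_root {a b : ℝ} (hab : a ≤ b) (h : (a ^ 3 - 2 * a ^ 2 - a + 1) *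
    (b ^ 3 - 2 * b ^ 2 - b + 1) < 0) : ∃ x, a < x ∧ x < b ∧ x ^ 3 - 2 * x ^ 2 - x + 1 = 0 := by
  have hc : ContinuousOn (fun x : ℝ => x ^ 3 - 2 * x ^ 2 - x + 1) (Icc a b) := by fun_prop
  have key : ∃ x ∈ Icc a b, x ^ 3 - 2 * x ^ 2 - x + 1 = 0 := by
    rcases mul_neg_iff.1 h with ⟨h1, h2⟩ | ⟨h1, h2⟩
    · obtain ⟨x, hx, hx2⟩ := intermediate_value_Icc' hab hc ⟨h2.le, h1.le⟩
      exact ⟨x, hx, hx2⟩
    · obtain ⟨x, hx, hx2⟩ := intermediate_value_Icc hab hc ⟨h1.le, h2.le⟩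
      exact ⟨x, hx, hx2⟩
  obtain ⟨x, ⟨h1, h2⟩, h3⟩ := key
  refine ⟨x, lt_of_le_of_ne h1 ?_, lt_of_le_of_ne h2 ?_, h3⟩
  · rintro rfl
    rw [h3, zero_mul] at h
    exact lt_irrefl _ h
  · rintro rfl
    rw [h3, mul_zero] at h
    exact lt_irrefl _ h

theorem exists_mu : ∃ m : Fin 3 → ℝ, (∀ i, m i ^ 3 = 2 * m i ^ 2 + m i - 1) ∧
    (2.2 < m 0 ∧ m 0 < 2.25) ∧ (0.55 < m 1 ∧ m 1 < 0.6) ∧ (-0.81 < m 2 ∧ m 2 < -0.8) := by
  obtain ⟨x, hx1, hx2, hx3⟩ := exists_root (a := 2.2) (b := 2.25) (by norm_num) (by norm_num)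
  obtain ⟨y, hy1, hy2, hy3⟩ := exists_root (a := 0.55) (b := 0.6) (by norm_num) (by norm_num)
  obtain ⟨z, hz1, hz2, hz3⟩ := exists_root (a := -0.81) (b := -0.8) (by norm_num) (by norm_num)
  refine ⟨![x, y, z], ?_, ⟨hx1, hx2⟩, ⟨hy1, hy2⟩, ⟨hz1, hz2⟩⟩
  intro i
  fin_cases i
  · simp only [Fin.zero_eta, Matrix.cons_val_zero]
    linarith
  · simp only [Fin.mk_one, Matrix.cons_val_one, Matrix.cons_val_zero]
    linarith
  · simp only [Fin.reduceFinMk, Matrix.cons_val]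
    linarith

/-- the three roots. -/
noncomputable def mu : Fin 3 → ℝ := exists_mu.choose

theorem mu_eq (i : Fin 3) : mu i ^ 3 = 2 * mu i ^ 2 + mu i - 1 := exists_mu.choose_spec.1 i
theorem mu0 : 2.2 < mu 0 ∧ mu 0 < 2.25 := exists_mu.choose_spec.2.1
theorem mu1 : 0.55 < mu 1 ∧ mu 1 < 0.6 := exists_mu.choose_spec.2.2.1
theorem mu2 : -0.81 < mu 2 ∧ mu 2 < -0.8 := exists_mu.choose_spec.2.2.2

theorem mu_eqC (i : Fin 3) : (mu i : ℂ) ^ 3 = 2 * (mu i : ℂ) ^ 2 + mu i - 1 := by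
  have := mu_eq i
  exact_mod_cast congrArg (fun x : ℝ => (x : ℂ)) this

/-- the values of a polynomial. -/
noncomputable def ev (a : Fin 3 → ℂ) (i : Fin 3) : ℂ := a 0 + a 1 * mu i + a 2 * (mu i : ℂ) ^ 2

/-- the embedding of the base lattice. -/
noncomputable def T1 : (Fin 3 → ℂ) →ₗ[ℂ] (Fin 3 → ℂ) where
  toFun a := ev a
  map_add' a b := by
    ext i
    simp only [ev, Pi.add_apply]
    ring
  map_smul' c a := by
    ext i
    simp only [ev, Pi.smul_apply, smul_eq_mul, RingHom.id_apply]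
    ring

theorem ev_inj {a : Fin 3 → ℂ} (h : ∀ i, ev a i = 0) : a = 0 := by
  have h0 := h 0
  have h1 := h 1
  have h2 := h 2
  have m0 := mu0
  have m1 := mu1
  have m2 := mu2
  have d01 : (mu 0 : ℂ) - mu 1 ≠ 0 := by
    have : mu 0 - mu 1 ≠ 0 := by intro h; linarith [m0.1, m1.2]
    exact_mod_cast this
  have d02 : (mu 0 : ℂ) - mu 2 ≠ 0 := by
    have : mu 0 - mu 2 ≠ 0 := by intro h; linarith [m0.1, m2.2]
    exact_mod_cast this
  have d12 : (mu 1 : ℂ) - mu 2 ≠ 0 := by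
    have : mu 1 - mu 2 ≠ 0 := by intro h; linarith [m1.1, m2.2]
    exact_mod_cast this
  unfold ev at h0 h1 h2
  have e1 : a 1 + a 2 * (mu 0 + mu 1) = 0 := by
    apply mul_left_cancel₀ d01
    linear_combination h0 - h1
  have e2 : a 1 + a 2 * (mu 0 + mu 2) = 0 := by
    apply mul_left_cancel₀ d02
    linear_combination h0 - h2
  have e3 : a 2 = 0 := by
    apply mul_left_cancel₀ d12
    linear_combination e1 - e2
  have e4 : a 1 = 0 := by rw [e3] at e1; simpa using e1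
  have e5 : a 0 = 0 := by rw [e3, e4] at h0; simpa using h0
  ext i
  fin_cases i
  · exact e5
  · exact e4
  · exact e3

theorem T1_inj : Function.Injective T1 := by
  rw [← LinearMap.ker_eq_bot, LinearMap.ker_eq_bot']
  intro a ha
  exact ev_inj fun i => congrFun ha i

/-- multiplication by the unit. -/
def mA (a : Fin 3 → ℂ) : Fin 3 → ℂ := ![-a 2, a 0 + a 2, a 1 + 2 * a 2]
/-- multiplication by its inverse. -/
def mB (a : Fin 3 → ℂ) : Fin 3 → ℂ := ![a 0 + a 1, 2 * a 0 + a 2, -a 0]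

theorem mA_Gs {a : Fin 3 → ℂ} (ha : ∀ i, a i ∈ Gs) (i : Fin 3) : mA a i ∈ Gs := by
  have h2 : (2 : ℂ) ∈ Gs := by exact_mod_cast Gs_int 2
  fin_cases i
  · exact Gs.neg_mem (ha 2)
  · exact Gs.add_mem (ha 0) (ha 2)
  · exact Gs.add_mem (ha 1) (Gs.mul_mem h2 (ha 2))

theorem mB_Gs {a : Fin 3 → ℂ} (ha : ∀ i, a i ∈ Gs) (i : Fin 3) : mB a i ∈ Gs := by
  have h2 : (2 : ℂ) ∈ Gs := by exact_mod_cast Gs_int 2
  fin_cases i
  · exact Gs.add_mem (ha 0) (ha 1)
  · exact Gs.add_mem (Gs.mul_mem h2 (ha 0)) (ha 2)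
  · exact Gs.neg_mem (ha 0)

theorem ev_mA (a : Fin 3 → ℂ) (i : Fin 3) : ev (mA a) i = mu i * ev a i := by
  have h := mu_eqC i
  simp only [ev, mA, Matrix.cons_val_zero, Matrix.cons_val_one, Matrix.cons_val]
  linear_combination -(a 2) * h

theorem ev_mB (a : Fin 3 → ℂ) (i : Fin 3) : mu i * ev (mB a) i = ev a i := by
  have h := mu_eqC i
  simp only [ev, mB, Matrix.cons_val_zero, Matrix.cons_val_one, Matrix.cons_val]
  linear_combination -(a 0) * h

theorem swap_mA (g : Fin 3 → Fin 3 → ℂ) (j i : Fin 3) :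
    mA (fun a => ev (g a) j) i = ev (fun b => mA (fun a => g a b) i) j := by
  fin_cases i
  · simp [mA, ev]; ring
  · simp [mA, ev]; ring
  · simp [mA, ev]; ring

theorem swap_mB (g : Fin 3 → Fin 3 → ℂ) (j i : Fin 3) :
    mB (fun a => ev (g a) j) i = ev (fun b => mB (fun a => g a b) i) j := by
  fin_cases i
  · simp [mB, ev]; ring
  · simp [mB, ev]; ring
  · simp [mB, ev]; ring

/-- the values of a polynomial in two variables. -/
noncomputable def ev2 (c : Fin 3 → Fin 3 → ℂ) (i j : Fin 3) : ℂ := ev (fun a => ev (c a) j) i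

/-- the embedding of the lattice of the fibre. -/
noncomputable def T2 : WW →ₗ[ℂ] WW where
  toFun c := Sum.elim (fun i => ev2 (fun a b => c (Sum.inl (a, b))) i.1 i.2)
    ![c (Sum.inr 0) + c (Sum.inr 1) * √2, c (Sum.inr 0) - c (Sum.inr 1) * √2]
  map_add' a b := by
    ext i
    rcases i with ⟨i, j⟩ | i
    · simp only [Sum.elim_inl, Pi.add_apply, ev2, ev]
      ring
    · fin_cases i
      · simp; ring
      · simp; ring
  map_smul' c a := by
    ext i
    rcases i with ⟨i, j⟩ | i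
    · simp only [Sum.elim_inl, Pi.smul_apply, ev2, ev, smul_eq_mul, RingHom.id_apply]
      ring
    · fin_cases i
      · simp; ring
      · simp; ring

theorem T2_inl (c : WW) (i j : Fin 3) : T2 c (Sum.inl (i, j)) = ev2 (fun a b => c (Sum.inl (a, b))) i j :=
  rfl
theorem T2_inr0 (c : WW) : T2 c (Sum.inr 0) = c (Sum.inr 0) + c (Sum.inr 1) * √2 := rfl
theorem T2_inr1 (c : WW) : T2 c (Sum.inr 1) = c (Sum.inr 0) - c (Sum.inr 1) * √2 := rfl

theorem sqrt2_sq : ((√2 : ℝ) : ℂ) ^ 2 = 2 := by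
  have : (√2 : ℝ) ^ 2 = 2 := Real.sq_sqrt (by norm_num)
  exact_mod_cast this

theorem sqrt2_ne : ((√2 : ℝ) : ℂ) ≠ 0 := by
  intro h
  have := sqrt2_sq
  rw [h] at this
  norm_num at this

theorem T2_inj : Function.Injective T2 := by
  rw [← LinearMap.ker_eq_bot, LinearMap.ker_eq_bot']
  intro c hc
  have h1 : ∀ i j, ev2 (fun a b => c (Sum.inl (a, b))) i j = 0 := fun i j =>
    (T2_inl c i j).symm.trans (congrFun hc (Sum.inl (i, j)))
  have h2 : ∀ a b, c (Sum.inl (a, b)) = 0 := by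
    intro a b
    have h3 : ∀ j, (fun a => ev (fun b => c (Sum.inl (a, b))) j) = 0 := fun j =>
      ev_inj fun i => h1 i j
    have h4 := ev_inj (a := fun b => c (Sum.inl (a, b))) fun j => congrFun (h3 j) a
    exact congrFun h4 b
  have h5 := (T2_inr0 c).symm.trans (congrFun hc (Sum.inr 0))
  have h6 := (T2_inr1 c).symm.trans (congrFun hc (Sum.inr 1))
  simp only [Pi.zero_apply] at h5 h6
  have h7 : c (Sum.inr 0) = 0 := by linear_combination (h5 + h6) / 2
  have h8 : c (Sum.inr 1) = 0 := by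
    apply mul_right_cancel₀ sqrt2_ne
    linear_combination (h5 - h6) / 2
  ext i
  rcases i with ⟨a, b⟩ | i
  · exact h2 a b
  · fin_cases i
    · exact h7
    · exact h8

theorem conj_ev (a : Fin 3 → ℂ) (i : Fin 3) : conj (ev a i) = ev (fun j => conj (a j)) i := by
  simp [ev]

theorem bet_mem_T {l l' : V3} (hl : l ∈ lat T1) (hl' : l' ∈ lat T1) : bet l l' ∈ lat T2 := by
  obtain ⟨a, ha, rfl⟩ := hl
  obtain ⟨b, hb, rfl⟩ := hl'
  refine ⟨Sum.elim (fun i => a i.1 * conj (b i.2)) 0, ?_, ?_⟩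
  · rintro (⟨i, j⟩ | i)
    · exact Gs.mul_mem (ha i) (Gs_conj (hb j))
    · exact Gs.zero_mem
  · ext i
    rcases i with ⟨i, j⟩ | i
    · rw [T2_inl, bet_inl]
      change _ = ev a i * conj (ev b j)
      rw [conj_ev]
      simp only [ev2, ev, Sum.elim_inl]
      ring
    · fin_cases i
      · simp [T2_inr0]
      · simp [T2_inr1]

/-- the data. -/
noncomputable def dat : Dat where
  L := lat T1
  Lam := lat T2
  r := min (lat_sep T1_inj).choose (lat_sep T2_inj).choose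
  r_pos := lt_min (lat_sep T1_inj).choose_spec.1 (lat_sep T2_inj).choose_spec.1
  L_sep l hl h := (lat_sep T1_inj).choose_spec.2 l hl (lt_of_lt_of_le h (min_le_left _ _))
  Lam_sep l hl h := (lat_sep T2_inj).choose_spec.2 l hl (lt_of_lt_of_le h (min_le_right _ _))
  R := max (lat_cov T1_inj).choose (lat_cov T2_inj).choose
  L_cov x := by
    obtain ⟨l, hl, h⟩ := (lat_cov T1_inj).choose_spec x
    exact ⟨l, hl, h.trans (le_max_left _ _)⟩
  Lam_cov x := by
    obtain ⟨l, hl, h⟩ := (lat_cov T2_inj).choose_spec x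
    exact ⟨l, hl, h.trans (le_max_right _ _)⟩
  bet_mem l hl l' hl' := bet_mem_T hl hl'

/-! ### The automorphism -/

/-- the eigenvalues on the fibre. -/
noncomputable def cc : II → ℝ := Sum.elim (fun i => mu i.1 * mu i.2) ![3 + 2 * √2, 3 - 2 * √2]

theorem cc_inl (i j : Fin 3) : cc (Sum.inl (i, j)) = mu i * mu j := rfl
theorem cc_inr0 : cc (Sum.inr 0) = 3 + 2 * √2 := rfl
theorem cc_inr1 : cc (Sum.inr 1) = 3 - 2 * √2 := rfl

theorem mu_ne (i : Fin 3) : mu i ≠ 0 := by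
  intro h
  have := mu_eq i
  rw [h] at this
  norm_num at this

theorem sqrt2_bd : (1.41 : ℝ) < √2 ∧ √2 < (1.42 : ℝ) := by
  constructor
  · rw [Real.lt_sqrt (by norm_num)]
    norm_num
  · rw [Real.sqrt_lt' (by norm_num)]
    norm_num

theorem cc_ne (i : II) : cc i ≠ 0 := by
  have h := sqrt2_bd
  rcases i with ⟨i, j⟩ | i
  · rw [cc_inl]
    exact mul_ne_zero (mu_ne i) (mu_ne j)
  · fin_cases i
    · change 3 + 2 * √2 ≠ 0
      linarith [h.1]
    · change 3 - 2 * √2 ≠ 0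
      linarith [h.2]

theorem mu_L (l : V3) : dil mu l ∈ lat T1 ↔ l ∈ lat T1 := by
  constructor
  · rintro ⟨a, ha, h⟩
    refine ⟨mB a, mB_Gs ha, ?_⟩
    have h1 : ∀ i, mu i * ev (mB a) i = mu i * l i := fun i => by
      rw [ev_mB]
      exact congrFun h i
    ext i
    have : (mu i : ℂ) ≠ 0 := by exact_mod_cast mu_ne i
    exact mul_left_cancel₀ this (h1 i)
  · rintro ⟨a, ha, rfl⟩
    refine ⟨mA a, mA_Gs ha, ?_⟩
    ext i
    exact ev_mA a i

theorem ev2_mA (c : Fin 3 → Fin 3 → ℂ) (i j : Fin 3) :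
    ev2 (fun a b => mA (fun a' => mA (c a') b) a) i j = mu i * mu j * ev2 c i j := by
  unfold ev2
  have h1 : (fun a => ev (fun b => mA (fun a' => mA (c a') b) a) j) =
      mA (fun a => ev (mA (c a)) j) := by
    funext a
    rw [swap_mA]
  rw [h1, ev_mA]
  have h2 : (fun a => ev (mA (c a)) j) = fun a => mu j * ev (c a) j := by
    funext a
    rw [ev_mA]
  rw [h2]
  unfold ev
  ring

theorem ev2_mB (c : Fin 3 → Fin 3 → ℂ) (i j : Fin 3) :
    mu i * mu j * ev2 (fun a b => mB (fun a' => mB (c a') b) a) i j = ev2 c i j := by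
  unfold ev2
  have h1 : (fun a => ev (fun b => mB (fun a' => mB (c a') b) a) j) =
      mB (fun a => ev (mB (c a)) j) := by
    funext a
    rw [swap_mB]
  rw [h1, mul_comm (mu i : ℂ), mul_assoc, ev_mB]
  have h2 : ev (fun a => ev (c a) j) i = ev (fun a => mu j * ev (mB (c a)) j) i := by
    congr 1
    funext a
    rw [ev_mB]
  rw [h2]
  unfold ev
  ring

theorem aut_mu : Aut dat mu cc where
  hm := mu_ne
  hc _ _ := rfl
  hL := mu_L
  hLam := by
    rintro _ ⟨c, hc, rfl⟩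
    refine ⟨Sum.elim (fun i => mA (fun a' => mA (fun b' => c (Sum.inl (a', b'))) i.2) i.1)
      ![3 * c (Sum.inr 0) + 4 * c (Sum.inr 1), 2 * c (Sum.inr 0) + 3 * c (Sum.inr 1)], ?_, ?_⟩
    · have h2 : (2 : ℂ) ∈ Gs := by exact_mod_cast Gs_int 2
      have h3 : (3 : ℂ) ∈ Gs := by exact_mod_cast Gs_int 3
      have h4 : (4 : ℂ) ∈ Gs := by exact_mod_cast Gs_int 4
      rintro (⟨i, j⟩ | i)
      · exact mA_Gs (a := fun a' => mA (fun b' => c (Sum.inl (a', b'))) j)
          (fun a => mA_Gs (a := fun b' => c (Sum.inl (a, b'))) (fun b => hc _) j) i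
      · fin_cases i
        · exact Gs.add_mem (Gs.mul_mem h3 (hc _)) (Gs.mul_mem h4 (hc _))
        · exact Gs.add_mem (Gs.mul_mem h2 (hc _)) (Gs.mul_mem h3 (hc _))
    · ext i
      rcases i with ⟨i, j⟩ | i
      · rw [dil_apply, cc_inl, T2_inl, T2_inl]
        simp only [Sum.elim_inl]
        rw [ev2_mA (fun a b => c (Sum.inl (a, b)))]
        push_cast
        ring
      · fin_cases i
        · rw [dil_apply]
          change T2 _ (Sum.inr 0) = (cc (Sum.inr 0) : ℂ) * T2 c (Sum.inr 0)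
          rw [cc_inr0, T2_inr0, T2_inr0]
          have h := sqrt2_sq
          simp only [Sum.elim_inr, Matrix.cons_val_zero, Matrix.cons_val_one]
          push_cast
          linear_combination (-2 * c (Sum.inr 1)) * h
        · rw [dil_apply]
          change T2 _ (Sum.inr 1) = (cc (Sum.inr 1) : ℂ) * T2 c (Sum.inr 1)
          rw [cc_inr1, T2_inr1, T2_inr1]
          have h := sqrt2_sq
          simp only [Sum.elim_inr, Matrix.cons_val_zero, Matrix.cons_val_one]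
          push_cast
          linear_combination (-2 * c (Sum.inr 1)) * h

theorem aut_mu' : Aut dat (fun i => (mu i)⁻¹) (fun i => (cc i)⁻¹) where
  hm i := inv_ne_zero (mu_ne i)
  hc i j := by
    simp only [cc_inl, mul_inv]
  hL l := by
    change dil (fun i => (mu i)⁻¹) l ∈ lat T1 ↔ l ∈ lat T1
    rw [← mu_L, dil_inv' mu_ne]
  hLam := by
    rintro _ ⟨c, hc, rfl⟩
    refine ⟨Sum.elim (fun i => mB (fun a' => mB (fun b' => c (Sum.inl (a', b'))) i.2) i.1)
      ![3 * c (Sum.inr 0) - 4 * c (Sum.inr 1), -2 * c (Sum.inr 0) + 3 * c (Sum.inr 1)], ?_, ?_⟩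
    · have h2 : (-2 : ℂ) ∈ Gs := by exact_mod_cast Gs_int (-2)
      have h3 : (3 : ℂ) ∈ Gs := by exact_mod_cast Gs_int 3
      have h4 : (4 : ℂ) ∈ Gs := by exact_mod_cast Gs_int 4
      rintro (⟨i, j⟩ | i)
      · exact mB_Gs (a := fun a' => mB (fun b' => c (Sum.inl (a', b'))) j)
          (fun a => mB_Gs (a := fun b' => c (Sum.inl (a, b'))) (fun b => hc _) j) i
      · fin_cases i
        · exact Gs.sub_mem (Gs.mul_mem h3 (hc _)) (Gs.mul_mem h4 (hc _))
        · exact Gs.add_mem (Gs.mul_mem h2 (hc _)) (Gs.mul_mem h3 (hc _))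
    · have key : ∀ (i : II) (x y : ℂ), (cc i : ℂ) * x = y → x = ((cc i)⁻¹ : ℝ) * y := by
        intro i x y h
        have : (cc i : ℂ) ≠ 0 := by exact_mod_cast cc_ne i
        rw [← h]
        push_cast
        field_simp
      ext i
      rw [dil_apply]
      apply key
      rcases i with ⟨i, j⟩ | i
      · rw [cc_inl, T2_inl, T2_inl]
        simp only [Sum.elim_inl]
        push_cast
        exact ev2_mB (fun a b => c (Sum.inl (a, b))) i j
      · fin_cases i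
        · change (cc (Sum.inr 0) : ℂ) * T2 _ (Sum.inr 0) = T2 c (Sum.inr 0)
          rw [cc_inr0, T2_inr0, T2_inr0]
          have h := sqrt2_sq
          simp only [Sum.elim_inr, Matrix.cons_val_zero, Matrix.cons_val_one]
          push_cast
          linear_combination (-4 * c (Sum.inr 0) + 6 * c (Sum.inr 1)) * h
        · change (cc (Sum.inr 1) : ℂ) * T2 _ (Sum.inr 1) = T2 c (Sum.inr 1)
          rw [cc_inr1, T2_inr1, T2_inr1]
          have h := sqrt2_sq
          simp only [Sum.elim_inr, Matrix.cons_val_zero, Matrix.cons_val_one]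
          push_cast
          linear_combination (-4 * c (Sum.inr 0) + 6 * c (Sum.inr 1)) * h

end Pool.Agent.Y331.PH
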