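import Pool.Agent.Y331.PH.Rel

/-!
# The relation is closed and discrete
-/

set_option autoImplicit false

open scoped Topology ComplexConjugate
open Set Filter

namespace Pool.Agent.Y331.PH

section uf

variable {ι : Type}

theorem uf_int (l : Filter ι) [l.NeBot] {n : ι → ℤ} {j : ℕ} (hj : j ≠ 0) {t : ℝ} (ht : 0 < t)
    (h : Tendsto (fun i => ‖(2 : ℂ) ^ (n i)‖ ^ j) l (𝓝 t)) : ∃ n₀, ∀ᶠ i in l, n i = n₀ := by
  have h1 : Tendsto (fun i => Real.log (‖(2 : ℂ) ^ (n i)‖ ^ j)) l (𝓝 (Real.log t)) :=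
    h.log ht.ne'
  have h2 : ∀ i, Real.log (‖(2 : ℂ) ^ (n i)‖ ^ j) = j * Real.log 2 * n i := by
    intro i
    rw [norm_zpow, Complex.norm_two, Real.log_pow, Real.log_zpow]
    ring
  simp only [h2] at h1
  have hc : (j * Real.log 2 : ℝ) ≠ 0 := by
    have := Real.log_pos (one_lt_two)
    positivity
  have h3 : Tendsto (fun i => (n i : ℝ)) l (𝓝 (Real.log t / (j * Real.log 2))) := by
    have := h1.div_const (j * Real.log 2)
    refine this.congr fun i => ?_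
    field_simp
  set a := Real.log t / (j * Real.log 2) with ha
  have h4 : ∀ᶠ i in l, |(n i : ℝ) - a| < 1 / 2 := by
    have := Metric.tendsto_nhds.1 h3 (1 / 2) (by norm_num)
    simpa [Real.dist_eq] using this
  obtain ⟨i₀, hi₀⟩ := h4.exists
  refine ⟨n i₀, ?_⟩
  filter_upwards [h4] with i hi
  have h5 : |(n i : ℝ) - n i₀| < 1 := by
    calc |(n i : ℝ) - n i₀| = |((n i : ℝ) - a) - ((n i₀ : ℝ) - a)| := by ring_nf
      _ ≤ |(n i : ℝ) - a| + |(n i₀ : ℝ) - a| := abs_sub _ _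
      _ < 1 := by linarith
  have h6 : |n i - n i₀| < 1 := by exact_mod_cast h5
  rw [Int.abs_lt_one_iff] at h6
  linarith

theorem uf_lat {X : Type} [NormedAddCommGroup X] (l : Filter ι) [l.NeBot] (G : AddSubgroup X)
    {r : ℝ} (hr : 0 < r) (hG : ∀ g ∈ G, ‖g‖ < r → g = 0) {f : ι → X} (hf : ∀ᶠ i in l, f i ∈ G)
    {x : X} (h : Tendsto f l (𝓝 x)) : x ∈ G ∧ ∀ᶠ i in l, f i = x := by
  have h1 : ∀ᶠ i in l, ‖f i - x‖ < r / 2 := by
    have := Metric.tendsto_nhds.1 h (r / 2) (by positivity)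
    simpa [dist_eq_norm] using this
  obtain ⟨i₀, hi₀, hi₀G⟩ := (h1.and hf).exists
  have h2 : ∀ᶠ i in l, f i = f i₀ := by
    filter_upwards [h1, hf] with i hi hiG
    have h3 : ‖f i - f i₀‖ < r := by
      calc ‖f i - f i₀‖ = ‖(f i - x) - (f i₀ - x)‖ := by congr 1; abel
        _ ≤ ‖f i - x‖ + ‖f i₀ - x‖ := norm_sub_le _ _
        _ < r := by linarith
    exact sub_eq_zero.1 (hG _ (G.sub_mem hiG hi₀G) h3)
  have h3 : x = f i₀ := tendsto_nhds_unique h ((tendsto_congr' h2).2 tendsto_const_nhds)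
  rw [h3]
  exact ⟨hi₀G, h2⟩

theorem uf_sq (l : Ultrafilter ι) {s : ι → ℂ} {u : ℂ} (h : Tendsto (fun i => s i ^ 2) l (𝓝 u)) :
    ∃ s₀, Tendsto s l (𝓝 s₀) ∧ s₀ ^ 2 = u := by
  have h1 : ∀ᶠ i in l, ‖s i ^ 2‖ < ‖u‖ + 1 :=
    h.norm.eventually_lt_const (by linarith)
  have h2 : ∀ᶠ i in l, s i ∈ Metric.closedBall (0 : ℂ) (‖u‖ + 1) := by
    filter_upwards [h1] with i hi
    rw [mem_closedBall_zero_iff]
    rw [norm_pow] at hi
    by_contra hcon
    push Not at hcon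
    nlinarith [norm_nonneg u, norm_nonneg (s i)]
  obtain ⟨s₀, -, hs₀⟩ := (isCompact_closedBall (0 : ℂ) (‖u‖ + 1)).ultrafilter_le_nhds (l.map s)
    (by rw [le_principal_iff]; exact h2)
  have hs : Tendsto s l (𝓝 s₀) := hs₀
  exact ⟨s₀, hs, tendsto_nhds_unique (hs.pow 2) h⟩

end uf

namespace Dat

variable (D : Dat)

/-- the open set. -/
def U : Set EE := {b | b.1 ≠ 0 ∧ ∀ s : ℂ, s ^ 2 = b.2.1 → s ^ 3 • b.1 ∈ D.L → s = 0}

/-- the relation. -/
def rel (b b' : EE) : Prop := b ∈ D.U ∧ ∃ s n, ∃ l ∈ D.L, ∃ k ∈ D.Lam, Rl b b' s n l k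

variable {D}

theorem mem_of_Rl {b b' : EE} {s : ℂ} {n : ℤ} {l : V3} {k : WW} (hb : b ∈ D.U) (hl : l ∈ D.L)
    (h : Rl b b' s n l k) : b' ∈ D.U := by
  have h2 := two_zpow_ne n
  constructor
  · intro h0
    have hx := h.hx
    rw [h0, smul_zero] at hx
    rcases eq_or_ne s 0 with hs | hs
    · have h1 := h.h1
      rw [h.zr hs, smul_zero, add_zero, h0] at h1
      have h3 : b.1 = 0 := by
        have := (smul_eq_zero.1 h1.symm).resolve_left (inv_ne_zero (pow_ne_zero 3 h2))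
        exact this
      exact hb.1 h3
    · have : s ^ 3 • b.1 ∈ D.L := by
        have : s ^ 3 • b.1 = -l := by
          rw [eq_neg_iff_add_eq_zero, ← hx]
        rw [this]
        exact D.L.neg_mem hl
      exact hs (hb.2 s h.sq this)
  · intro t ht htL
    rw [← h.sq'] at ht
    have hx := h.hx
    have key : s ^ 3 • b.1 ∈ D.L := by
      rcases sq_eq_sq_iff_eq_or_eq_neg.1 ht with h3 | h3
      · rw [h3, hx] at htL
        simpa using D.L.sub_mem htL hl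
      · have h4 : t ^ 3 • b'.1 = -(s ^ 3 • b.1 + l) := by
          rw [h3, ← hx, ← neg_smul]
          congr 1
          ring
        rw [h4] at htL
        have := D.L.neg_mem (D.L.add_mem htL hl)
        simpa using this
    have hs := hb.2 s h.sq key
    rw [hs, mul_zero] at ht
    simpa using ht

theorem rel_mem' {b b' : EE} (h : D.rel b b') : b' ∈ D.U := by
  obtain ⟨hb, s, n, l, hl, k, hk, h⟩ := h
  exact mem_of_Rl hb hl h

theorem exists_sq (u : ℂ) : ∃ s : ℂ, s ^ 2 = u := by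
  obtain ⟨s, hs⟩ := IsAlgClosed.exists_pow_nat_eq u (n := 2) (by norm_num)
  exact ⟨s, hs⟩

theorem rel_refl {b : EE} (hb : b ∈ D.U) : D.rel b b := by
  obtain ⟨s, hs⟩ := exists_sq b.2.1
  exact ⟨hb, s, 0, 0, D.L.zero_mem, 0, D.Lam.zero_mem, Rl.refl b hs⟩

theorem rel_symm {b b' : EE} (h : D.rel b b') : D.rel b' b := by
  have hb' := rel_mem' h
  obtain ⟨hb, s, n, l, hl, k, hk, h⟩ := h
  exact ⟨hb', _, _, _, D.L.neg_mem hl, _, D.Lam.sub_mem (D.Lam.neg_mem hk) (D.bet_mem l hl l hl),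
    h.symm⟩

theorem rel_trans {b b' b'' : EE} (h : D.rel b b') (h' : D.rel b' b'') : D.rel b b'' := by
  obtain ⟨hb, s, n, l, hl, k, hk, h⟩ := h
  obtain ⟨-, s', n', l', hl', k', hk', h'⟩ := h'
  obtain ⟨e, he, h2⟩ := h.trans h'
  have hel : e • l' ∈ D.L := by
    rcases he with rfl | rfl
    · simpa using hl'
    · simpa using D.L.neg_mem hl'
  exact ⟨hb, s, _, _, D.L.add_mem hl hel, _,
    D.Lam.sub_mem (D.Lam.add_mem hk hk') (D.bet_mem l hl _ hel), h2⟩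

theorem isOpen_U : IsOpen D.U := by
  rw [← isClosed_compl_iff, isClosed_iff_ultrafilter]
  intro b u hu hmem hbU
  have e1 : Tendsto (fun p : EE => p.1) u (𝓝 b.1) := (continuous_fst.tendsto b).mono_left hu
  have e2 : Tendsto (fun p : EE => p.2.1) u (𝓝 b.2.1) :=
    ((continuous_fst.comp continuous_snd).tendsto b).mono_left hu
  have h1 : ∀ᶠ p : EE in u, p.1 ≠ 0 := e1.eventually_ne hbU.1
  have h2 : ∀ p : EE, ∃ s : ℂ, p.1 ≠ 0 → p ∈ D.Uᶜ → s ^ 2 = p.2.1 ∧ s ^ 3 • p.1 ∈ D.L ∧ s ≠ 0 := by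
    intro p
    by_cases hp : p.1 ≠ 0 ∧ p ∈ D.Uᶜ
    · obtain ⟨hp1, hp2⟩ := hp
      have : ¬ ∀ s : ℂ, s ^ 2 = p.2.1 → s ^ 3 • p.1 ∈ D.L → s = 0 := fun h => hp2 ⟨hp1, h⟩
      push Not at this
      obtain ⟨s, hs⟩ := this
      exact ⟨s, fun _ _ => hs⟩
    · exact ⟨0, fun a c => (hp ⟨a, c⟩).elim⟩
  choose s hs using h2
  have h3 : ∀ᶠ p in u, s p ^ 2 = p.2.1 ∧ s p ^ 3 • p.1 ∈ D.L ∧ s p ≠ 0 := by
    filter_upwards [h1, hmem] with p hp1 hp2 using hs p hp1 hp2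
  have h4 : Tendsto (fun p => s p ^ 2) u (𝓝 b.2.1) :=
    e2.congr' (by filter_upwards [h3] with p hp using hp.1.symm)
  obtain ⟨t, ht, ht2⟩ := uf_sq u h4
  have h5 : Tendsto (fun p : EE => s p ^ 3 • p.1) u (𝓝 (t ^ 3 • b.1)) := (ht.pow 3).smul e1
  have h3' : ∀ᶠ p : EE in (u : Filter EE), s p ^ 3 • p.1 ∈ D.L := by
    filter_upwards [h3] with p hp using hp.2.1
  obtain ⟨h6, h7⟩ := uf_lat (u : Filter EE) D.L D.r_pos D.L_sep h3' h5
  have ht0 : t = 0 := hbU.2 t ht2 h6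
  obtain ⟨p, hp1, hp2, hp3⟩ := (h7.and (h3.and h1)).exists
  rw [ht0] at hp1
  simp only [ne_eq, OfNat.ofNat_ne_zero, not_false_eq_true, zero_pow, zero_smul, smul_eq_zero,
    pow_eq_zero_iff] at hp1
  exact hp1.elim hp2.2.2 hp3

theorem lim {b b' : EE} (hb : b ∈ D.U) (hb' : b' ∈ D.U) (u : Ultrafilter (EE × EE))
    (hu : (u : Filter (EE × EE)) ≤ 𝓝 (b, b')) (hr : ∀ᶠ p : EE × EE in u, D.rel p.1 p.2) :
    ∃ s n, ∃ l ∈ D.L, ∃ k ∈ D.Lam, Rl b b' s n l k ∧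
      ∀ᶠ p : EE × EE in u, ∃ t, Rl p.1 p.2 t n l k := by
  have c1 : Continuous fun p : EE × EE => p.1.1 := by fun_prop
  have c2 : Continuous fun p : EE × EE => p.1.2.1 := by fun_prop
  have c3 : Continuous fun p : EE × EE => p.1.2.2 := by fun_prop
  have c4 : Continuous fun p : EE × EE => p.2.1 := by fun_prop
  have c5 : Continuous fun p : EE × EE => p.2.2.1 := by fun_prop
  have c6 : Continuous fun p : EE × EE => p.2.2.2 := by fun_prop
  have e1 := (c1.tendsto (b, b')).mono_left hu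
  have e2 := (c2.tendsto (b, b')).mono_left hu
  have e3 := (c3.tendsto (b, b')).mono_left hu
  have e4 := (c4.tendsto (b, b')).mono_left hu
  have e5 := (c5.tendsto (b, b')).mono_left hu
  have e6 := (c6.tendsto (b, b')).mono_left hu
  simp only at e1 e2 e3 e4 e5 e6
  have hex : ∀ p : EE × EE, ∃ (s : ℂ) (n : ℤ) (l : V3) (k : WW), D.rel p.1 p.2 →
      l ∈ D.L ∧ k ∈ D.Lam ∧ Rl p.1 p.2 s n l k := by
    intro p
    by_cases hp : D.rel p.1 p.2
    · obtain ⟨-, s, n, l, hl, k, hk, h⟩ := hp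
      exact ⟨s, n, l, k, fun _ => ⟨hl, hk, h⟩⟩
    · exact ⟨0, 0, 0, 0, fun h => (hp h).elim⟩
  choose s n l k hRl using hex
  have h0 : ∀ᶠ p : EE × EE in u, l p ∈ D.L ∧ k p ∈ D.Lam ∧ Rl p.1 p.2 (s p) (n p) (l p) (k p) := by
    filter_upwards [hr] with p hp using hRl p hp
  obtain ⟨σ, hσ, hσ2⟩ := uf_sq u (s := s) (u := b.2.1)
    (e2.congr' (by filter_upwards [h0] with p hp using hp.2.2.sq.symm))
  obtain ⟨σ', hσ', hσ2'⟩ := uf_sq u (s := fun p => (2 : ℂ) ^ n p * s p) (u := b'.2.1)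
    (e5.congr' (by filter_upwards [h0] with p hp using hp.2.2.sq'.symm))
  have hx : Tendsto (fun p : EE × EE => s p ^ 3 • p.1.1) u (𝓝 (σ ^ 3 • b.1)) := (hσ.pow 3).smul e1
  have hx' : Tendsto (fun p : EE × EE => ((2 : ℂ) ^ n p * s p) ^ 3 • p.2.1) u (𝓝 (σ' ^ 3 • b'.1)) :=
    (hσ'.pow 3).smul e4
  have hlt : Tendsto l u (𝓝 (σ' ^ 3 • b'.1 - σ ^ 3 • b.1)) := by
    refine (hx'.sub hx).congr' ?_
    filter_upwards [h0] with p hp
    rw [hp.2.2.hx]
    abel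
  obtain ⟨l₀, hl₀⟩ : ∃ l₀, l₀ = σ' ^ 3 • b'.1 - σ ^ 3 • b.1 := ⟨_, rfl⟩
  rw [← hl₀] at hlt
  obtain ⟨hl₀L, hlc⟩ := uf_lat (u : Filter (EE × EE)) D.L D.r_pos D.L_sep
    (by filter_upwards [h0] with p hp using hp.1) hlt
  have hkt : Tendsto k u (𝓝 (b'.2.2 - b.2.2 + bet (σ ^ 3 • b.1) l₀)) := by
    have hb1 : Tendsto (fun p : EE × EE => bet (s p ^ 3 • p.1.1) (l p)) u
        (𝓝 (bet (σ ^ 3 • b.1) l₀)) :=
      (continuous_bet.tendsto (σ ^ 3 • b.1, l₀)).comp (hx.prodMk_nhds hlt)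
    refine ((e6.sub e3).add hb1).congr' ?_
    filter_upwards [h0] with p hp
    rw [hp.2.2.h3]
    abel
  obtain ⟨k₀, hk₀⟩ : ∃ k₀, k₀ = b'.2.2 - b.2.2 + bet (σ ^ 3 • b.1) l₀ := ⟨_, rfl⟩
  rw [← hk₀] at hkt
  obtain ⟨hk₀L, hkc⟩ := uf_lat (u : Filter (EE × EE)) D.Lam D.r_pos D.Lam_sep
    (by filter_upwards [h0] with p hp using hp.2.1) hkt
  -- both square roots vanish or none
  have z1 : σ = 0 → σ' = 0 := by
    intro hz
    apply hb'.2 σ' hσ2'
    rw [hz] at hl₀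
    simp only [ne_eq, OfNat.ofNat_ne_zero, not_false_eq_true, zero_pow, zero_smul, sub_zero] at hl₀
    rw [← hl₀]
    exact hl₀L
  have z2 : σ' = 0 → σ = 0 := by
    intro hz
    apply hb.2 σ hσ2
    rw [hz] at hl₀
    simp only [ne_eq, OfNat.ofNat_ne_zero, not_false_eq_true, zero_pow, zero_smul, zero_sub] at hl₀
    have : σ ^ 3 • b.1 = -l₀ := by rw [hl₀]; simp
    rw [this]
    exact D.L.neg_mem hl₀L
  have zl : σ = 0 → l₀ = 0 := by
    intro hz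
    rw [hl₀, hz, z1 hz]
    simp
  have hn : ∃ n₀, ∀ᶠ p in (u : Filter (EE × EE)), n p = n₀ := by
    rcases eq_or_ne σ 0 with hz | hz
    · have hpos : 0 < ‖b.1‖ / ‖b'.1‖ := div_pos (norm_pos_iff.2 hb.1) (norm_pos_iff.2 hb'.1)
      refine uf_int (u : Filter (EE × EE)) (j := 3) (by norm_num) hpos ?_
      refine (e1.norm.div e4.norm (norm_ne_zero_iff.2 hb'.1)).congr' ?_
      filter_upwards [h0, hlc, e4.eventually_ne hb'.1] with p hp hpl hp4
      have h1 := hp.2.2.h1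
      rw [hpl, zl hz, smul_zero, add_zero] at h1
      have h2 := congrArg norm h1
      rw [norm_smul, norm_inv, norm_pow] at h2
      have h3 : ‖(2 : ℂ) ^ n p‖ ≠ 0 := norm_ne_zero_iff.2 (two_zpow_ne _)
      have h4 : ‖p.2.1‖ ≠ 0 := norm_ne_zero_iff.2 hp4
      change ‖p.1.1‖ / ‖p.2.1‖ = _
      rw [div_eq_iff h4, h2]
      field_simp
    · have hz' : σ' ≠ 0 := fun h => hz (z2 h)
      have hpos : 0 < ‖σ'‖ / ‖σ‖ := div_pos (norm_pos_iff.2 hz') (norm_pos_iff.2 hz)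
      refine uf_int (u : Filter (EE × EE)) (j := 1) (by norm_num) hpos ?_
      refine (hσ'.norm.div hσ.norm (norm_ne_zero_iff.2 hz)).congr' ?_
      filter_upwards [hσ.eventually_ne hz] with p hp
      change ‖(2 : ℂ) ^ n p * s p‖ / ‖s p‖ = _
      rw [norm_mul, pow_one]
      have : ‖s p‖ ≠ 0 := norm_ne_zero_iff.2 hp
      field_simp
  obtain ⟨n₀, hnc⟩ := hn
  have hall : ∀ᶠ p : EE × EE in u, Rl p.1 p.2 (s p) n₀ l₀ k₀ := by
    filter_upwards [h0, hlc, hkc, hnc] with p hp h1 h2 h3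
    rw [← h1, ← h2, ← h3]
    exact hp.2.2
  refine ⟨σ, n₀, l₀, hl₀L, k₀, hk₀L, ⟨hσ2, zl, ?_, ?_, ?_⟩, ?_⟩
  · have h1 : Tendsto (fun p : EE × EE => (((2 : ℂ) ^ n₀) ^ 3)⁻¹ • (p.1.1 + (s p ^ 3)⁻¹ • l₀)) u
        (𝓝 ((((2 : ℂ) ^ n₀) ^ 3)⁻¹ • (b.1 + (σ ^ 3)⁻¹ • l₀))) := by
      refine tendsto_const_nhds.smul (e1.add ?_)
      rcases eq_or_ne σ 0 with hz | hz
      · rw [zl hz]
        simp
      · exact (Tendsto.inv₀ (hσ.pow 3) (pow_ne_zero 3 hz)).smul_const l₀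
    exact tendsto_nhds_unique e4 (h1.congr' (by filter_upwards [hall] with p hp using hp.h1.symm))
  · have h1 : Tendsto (fun p : EE × EE => ((2 : ℂ) ^ n₀) ^ 2 * p.1.2.1) u
        (𝓝 (((2 : ℂ) ^ n₀) ^ 2 * b.2.1)) := e2.const_mul _
    exact tendsto_nhds_unique e5 (h1.congr' (by filter_upwards [hall] with p hp using hp.h2.symm))
  · rw [hk₀]
    abel
  · filter_upwards [hall] with p hp using ⟨s p, hp⟩

theorem exists_uf {X : Type} [TopologicalSpace X] {x : X} {P : X → Prop}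
    (h : ∃ᶠ p in 𝓝 x, P p) : ∃ u : Ultrafilter X, (u : Filter X) ≤ 𝓝 x ∧ ∀ᶠ p in u, P p := by
  have h1 : (𝓝 x ⊓ 𝓟 {p | P p}).NeBot := by
    rw [← frequently_mem_iff_neBot]
    exact h
  refine ⟨Ultrafilter.of (𝓝 x ⊓ 𝓟 {p | P p}), (Ultrafilter.of_le _).trans inf_le_left, ?_⟩
  have h2 := (Ultrafilter.of_le (𝓝 x ⊓ 𝓟 {p | P p})).trans inf_le_right
  exact h2 (mem_principal_self _)

theorem rel_closed {b b' : EE} (hb : b ∈ D.U) (hb' : b' ∈ D.U)
    (h : ∃ᶠ p : EE × EE in 𝓝 (b, b'), D.rel p.1 p.2) : D.rel b b' := by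
  obtain ⟨u, hu, hu2⟩ := exists_uf h
  obtain ⟨s, n, l, hl, k, hk, h, -⟩ := lim hb hb' u hu hu2
  exact ⟨hb, s, n, l, hl, k, hk, h⟩

theorem two_zpow_eq_one {n : ℤ} {j : ℕ} (hj : j ≠ 0) (h : ((2 : ℂ) ^ n) ^ j = 1) : n = 0 := by
  have h1 := congrArg norm h
  rw [norm_pow, norm_zpow, Complex.norm_two, norm_one] at h1
  have h2 : (2 : ℝ) ^ n = 1 := by
    rwa [pow_eq_one_iff_of_nonneg (by positivity) hj] at h1
  exact (zpow_eq_one_iff_right₀ (by norm_num) (by norm_num)).1 h2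

theorem Rl_self {b : EE} {s : ℂ} {n : ℤ} {l : V3} {k : WW} (hb : b ∈ D.U) (h : Rl b b s n l k) :
    n = 0 ∧ l = 0 ∧ k = 0 := by
  rcases eq_or_ne s 0 with hs | hs
  · have hl := h.zr hs
    have h1 := h.h1
    rw [hl, smul_zero, add_zero] at h1
    have hn : n = 0 := by
      obtain ⟨i, hi⟩ := Function.ne_iff.1 hb.1
      have h2 := congrFun h1 i
      simp only [Pi.smul_apply, smul_eq_mul] at h2
      have h3 := two_zpow_ne n
      apply two_zpow_eq_one (n := n) (j := 3) (by norm_num)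
      have h4 : (b.1 i) * ((2 : ℂ) ^ n) ^ 3 = b.1 i := by
        conv_lhs => rw [h2]
        field_simp
      exact mul_left_cancel₀ hi (h4.trans (mul_one _).symm)
    have hk : k = 0 := by
      have h3 := h.h3
      rw [hl, bet_zero_right, sub_zero] at h3
      exact left_eq_add.1 h3
    exact ⟨hn, hl, hk⟩
  · have hu : b.2.1 ≠ 0 := by rw [← h.sq]; exact pow_ne_zero 2 hs
    have hn : n = 0 := by
      apply two_zpow_eq_one (n := n) (j := 2) (by norm_num)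
      have h2 := h.h2
      exact mul_right_cancel₀ hu (h2.symm.trans (one_mul _).symm)
    have hl : l = 0 := by
      have h1 := h.h1
      rw [hn] at h1
      simp only [zpow_zero, one_pow, inv_one, one_smul] at h1
      have h2 := left_eq_add.1 h1
      exact (smul_eq_zero.1 h2).resolve_left (inv_ne_zero (pow_ne_zero 3 hs))
    have hk : k = 0 := by
      have h3 := h.h3
      rw [hl, bet_zero_right, sub_zero] at h3
      exact left_eq_add.1 h3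
    exact ⟨hn, hl, hk⟩

theorem rel_inj {b : EE} (hb : b ∈ D.U) :
    ∀ᶠ p : EE × EE in 𝓝 (b, b), D.rel p.1 p.2 → p.1 = p.2 := by
  by_contra hcon
  rw [not_eventually] at hcon
  obtain ⟨u, hu, hu2⟩ := exists_uf hcon
  have h1 : ∀ᶠ p : EE × EE in u, D.rel p.1 p.2 := by
    filter_upwards [hu2] with p hp
    push Not at hp
    exact hp.1
  obtain ⟨s, n, l, hl, k, hk, h, h2⟩ := lim hb hb u hu h1
  obtain ⟨rfl, rfl, rfl⟩ := Rl_self hb h
  obtain ⟨p, ⟨t, hp1⟩, hp2⟩ := (h2.and hu2).exists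
  push Not at hp2
  apply hp2.2
  refine Prod.ext ?_ (Prod.ext ?_ ?_)
  · rw [hp1.h1]; simp
  · rw [hp1.h2]; simp
  · rw [hp1.h3]; simp

end Dat

end Pool.Agent.Y331.PH
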