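import Pool.Agent.Y331.PH.Theta

/-!
# The center distribution is not real analytic
-/

set_option autoImplicit false

open scoped Topology ComplexConjugate ContDiff Manifold
open Set Filter

namespace Pool.Agent.Y331.PH

/-- `|t|³` is not real analytic at `0`. -/
theorem not_analytic_cube {c : ℂ} (hc : c ≠ 0) {g : ℝ → ℂ}
    (hg : ∀ᶠ t : ℝ in 𝓝 0, g t = ((|t| ^ 3 : ℝ) : ℂ) * c) : ¬ AnalyticAt ℝ g 0 := by
  intro h
  have h1 : AnalyticAt ℝ (fun t : ℝ => ((t ^ 3 : ℝ) : ℂ) * c) 0 := by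
    have h2 : AnalyticAt ℝ (fun t : ℝ => (t : ℂ)) 0 := Complex.ofRealCLM.analyticAt 0
    have h3 : (fun t : ℝ => ((t ^ 3 : ℝ) : ℂ) * c) = fun t : ℝ => (t : ℂ) ^ 3 * c := by
      funext t
      push_cast
      rfl
    rw [h3]
    exact (h2.pow 3).mul analyticAt_const
  have hf : ∃ᶠ t : ℝ in 𝓝[≠] 0, g t = ((t ^ 3 : ℝ) : ℂ) * c := by
    have h4 : ∃ᶠ t : ℝ in 𝓝[>] 0, g t = ((t ^ 3 : ℝ) : ℂ) * c := by
      apply Eventually.frequently
      filter_upwards [nhdsWithin_le_nhds hg, self_mem_nhdsWithin] with t ht ht0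
      rw [ht, abs_of_pos ht0]
    exact h4.filter_mono (nhdsWithin_mono 0 fun t ht => ne_of_gt ht)
  have h5 := (h.frequently_eq_iff_eventually_eq h1).1 hf
  have h6 : ∀ᶠ t : ℝ in 𝓝[<] 0, False := by
    filter_upwards [nhdsWithin_le_nhds h5, nhdsWithin_le_nhds hg, self_mem_nhdsWithin]
      with t ht ht' ht0
    rw [ht', abs_of_neg ht0] at ht
    have h7 := mul_right_cancel₀ hc ht
    have h8 : (-t) ^ 3 = t ^ 3 := by exact_mod_cast h7
    have h9 : t ^ 3 = 0 := by
      have : (-t) ^ 3 = -(t ^ 3) := by ring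
      linarith
    exact (ne_of_lt ht0) (pow_eq_zero_iff (by norm_num) |>.1 h9)
  obtain ⟨t, ht⟩ := h6.exists
  exact ht

/-- The base point. -/
def ptE : EE := (Pi.single 0 1, 0, 0)

theorem ptE_mem (D : Dat) : ptE ∈ D.U := by
  constructor
  · intro h
    have := congrFun h 0
    simp [ptE] at this
  · intro s hs _
    have : s ^ 2 = 0 := hs
    simpa using this

theorem not_analytic (D : Dat) :
    ¬ IsAnalyticDistribution ((D.sur ptE (ptE_mem D)).fld (Hor Jh)) := by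
  intro h
  set S := D.sur ptE (ptE_mem D) with hS
  set q₀ : S.Pt := S.p ptE with hq₀
  set y₀ : EE := chartAt EE q₀ q₀ with hy₀
  -- the point `y₀`
  have hrel : D.rel ptE y₀ := by
    have h1 : S.p ptE = S.p y₀ := (Et.p_chart_self q₀).symm
    exact (S.p_eq_iff (ptE_mem D) (Et.chart_self_mem q₀)).1 h1
  obtain ⟨-, s, n, l, hl, k, hk, hR⟩ := hrel
  have hs : s = 0 := by
    have : s ^ 2 = 0 := hR.sq
    simpa using this
  have hu : y₀.2.1 = 0 := by
    rw [hR.h2]
    simp [ptE]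
  have hv : y₀.1 0 ≠ 0 := by
    rw [hR.h1, hR.zr hs]
    simp [ptE, two_zpow_ne]
  -- the coefficient
  set c₀ : CH Jh := ⟨((Pi.single 0 1 : V3), (0 : ℂ), (0 : WW)), fun i _ => rfl⟩ with hc₀
  set lam : EE →L[ℂ] ℂ := (ContinuousLinearMap.proj (Sum.inl (0, 0))).comp
    ((ContinuousLinearMap.snd ℂ ℂ WW).comp (ContinuousLinearMap.snd ℂ V3 (ℂ × WW))) with hlam
  have hlam' : ∀ w : EE, lam w = w.2.2 (Sum.inl (0, 0)) := fun w => rfl
  obtain ⟨G, hG, hG2⟩ := Et.analytic_line (inv_Hor Jh) h q₀ (pH Jh)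
    (fun c => ⟨sH Jh _ c, sH_mem Jh _ c, pH_sH Jh _ c⟩) c₀ ((0 : V3), (1 : ℂ), (0 : WW)) lam
  rw [← hy₀] at hG hG2
  refine not_analytic_cube (c := -conj (y₀.1 0)) ?_ ?_ hG2
  · rw [neg_ne_zero]
    exact (map_ne_zero _).2 hv
  · have hline : Tendsto (fun t : ℝ => y₀ + (t : ℂ) • (((0 : V3), (1 : ℂ), (0 : WW)) : EE)) (𝓝 0)
        (𝓝 y₀) := by
      have : Continuous fun t : ℝ => y₀ + (t : ℂ) • (((0 : V3), (1 : ℂ), (0 : WW)) : EE) :=
        continuous_const.add (Complex.continuous_ofReal.smul continuous_const)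
      have h2 := this.tendsto 0
      simpa using h2
    filter_upwards [hline.eventually hG] with t ⟨ht1, ht2⟩
    set y : EE := y₀ + (t : ℂ) • (((0 : V3), (1 : ℂ), (0 : WW)) : EE) with hy
    have y1 : y.1 = y₀.1 := by simp [hy]
    have y2 : y.2.1 = (t : ℂ) := by simp [hy, hu]
    have h1 := ht1 (Sum.inl (0, 0)) (by simp [Jh])
    have h2 : G y - (0, 0, cut Jh (G y).2.2) = (Pi.single 0 1, 0, 0) := by
      have := congrArg (fun c : CH Jh => (c : EE)) ht2
      simpa [pH_coe] using this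
    have h3 : (G y).1 = Pi.single 0 1 := by
      have := congrArg (fun z : EE => z.1) h2
      simpa using this
    have h4 : (G y).2.1 = 0 := by
      have := congrArg (fun z : EE => z.2.1) h2
      simpa using this
    rw [hlam']
    unfold th at h1
    rw [h3, h4, y1, y2] at h1
    simp only [Pi.add_apply, Pi.smul_apply, bet_inl, smul_eq_mul, mul_zero, zero_mul, add_zero,
      Pi.single_eq_same, one_mul, Complex.norm_real, Real.norm_eq_abs] at h1
    linear_combination h1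

end Pool.Agent.Y331.PH
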