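import Pool.Agent.Y331.PH.EtMet
import Pool.Agent.Y331.PH.NonAn
import Pool.Agent.Y331.PH.Comp
import Pool.Agent.Y331.PH.Latt

/-!
# The example
-/

set_option autoImplicit false

open scoped Topology ComplexConjugate Manifold ContDiff
open Set Filter

namespace Pool.Agent.Y331.PH

open Dat

/-- the étale relation of the example. -/
noncomputable def SS : Et EE := dat.sur ptE (ptE_mem dat)

/-- the linear map. -/
noncomputable def FF : EE →L[ℂ] EE := Fm mu cc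
/-- its inverse. -/
noncomputable def GG : EE →L[ℂ] EE := Fm (fun i => (mu i)⁻¹) (fun i => (cc i)⁻¹)

theorem nor_F : SS.Nor FF := fun _ _ h => aut_mu.rel h
theorem nor_G : SS.Nor GG := fun _ _ h => aut_mu'.rel h
theorem GF (b : EE) : GG (FF b) = b := Fm_inv mu_ne cc_ne b
theorem FG (b : EE) : FF (GG b) = b := Fm_inv' mu_ne cc_ne b

theorem U_eq : SS.U = dat.U := rfl

/-- the compact set. -/
noncomputable def KK : Set EE := dat.K1 ∪ dat.K2

theorem isCompact_KK : IsCompact KK := isCompact_K1.union isCompact_K2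
theorem KK_sub : KK ⊆ SS.U := union_subset K1_sub K2_sub
theorem KK_cover : ∀ x ∈ SS.U, ∃ y ∈ KK, SS.rel x y := fun _ hx => cover hx

theorem mu_abs (i : Fin 3) : 0.55 ≤ |mu i| ∧ |mu i| ≤ 2.25 := by
  have m0 := mu0
  have m1 := mu1
  have m2 := mu2
  fin_cases i
  · change 0.55 ≤ |mu 0| ∧ |mu 0| ≤ 2.25
    rw [abs_of_pos (by linarith [m0.1])]
    constructor <;> linarith [m0.1, m0.2]
  · change 0.55 ≤ |mu 1| ∧ |mu 1| ≤ 2.25
    rw [abs_of_pos (by linarith [m1.1])]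
    constructor <;> linarith [m1.1, m1.2]
  · change 0.55 ≤ |mu 2| ∧ |mu 2| ≤ 2.25
    rw [abs_of_neg (by linarith [m2.2])]
    constructor <;> linarith [m2.1, m2.2]

theorem mu_small {i : Fin 3} (hi : i ≠ 0) : |mu i| ≤ 0.81 := by
  have m1 := mu1
  have m2 := mu2
  fin_cases i
  · exact (hi rfl).elim
  · change |mu 1| ≤ 0.81
    rw [abs_of_pos (by linarith [m1.1])]
    linarith [m1.2]
  · change |mu 2| ≤ 0.81
    rw [abs_of_neg (by linarith [m2.2])]
    linarith [m2.1]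

theorem bd_mu : Bd mu 2.25 0.55 where
  q_pos := by norm_num
  p_pos := by norm_num
  up i := (mu_abs i).2
  lo i := (mu_abs i).1

theorem bd_mu' : Bd (fun i => (mu i)⁻¹) (1 / 0.55) (1 / 2.25) where
  q_pos := by norm_num
  p_pos := by norm_num
  up i := by
    have h := mu_abs i
    rw [abs_inv, ← one_div]
    exact one_div_le_one_div_of_le (by norm_num) h.1
  lo i := by
    have h := mu_abs i
    have h2 : 0 < |mu i| := by linarith [h.1]
    rw [abs_inv, ← one_div]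
    exact one_div_le_one_div_of_le h2 h.2

/-- the constant of the norm. -/
noncomputable def Kc : ℝ := 3 * C0 dat 2.25 / 0.55 + 3 * C0 dat (1 / 0.55) / (1 / 2.25) + 1

theorem Kc_pos : 0 < Kc := by
  have h1 := C0_pos (D := dat) (p := 2.25) (by norm_num)
  have h2 := C0_pos (D := dat) (p := 1 / 0.55) (by norm_num)
  unfold Kc
  positivity

theorem Kc_1 : 3 * C0 dat 2.25 / 0.55 ≤ Kc * (4.5 - max 1 2.25) := by
  have h1 := C0_pos (D := dat) (p := 2.25) (by norm_num)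
  have h2 := C0_pos (D := dat) (p := 1 / 0.55) (by norm_num)
  have h3 : (1 : ℝ) ≤ 4.5 - max 1 2.25 := by norm_num
  have h4 : 3 * C0 dat 2.25 / 0.55 ≤ Kc := by
    have : 0 < 3 * C0 dat (1 / 0.55) / (1 / 2.25) + 1 := by positivity
    unfold Kc
    linarith
  calc 3 * C0 dat 2.25 / 0.55 ≤ Kc * 1 := by rw [mul_one]; exact h4
    _ ≤ _ := mul_le_mul_of_nonneg_left h3 Kc_pos.le

theorem Kc_2 : 3 * C0 dat (1 / 0.55) / (1 / 2.25) ≤ Kc * (4.5 - max 1 (1 / 0.55)) := by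
  have h1 := C0_pos (D := dat) (p := 2.25) (by norm_num)
  have h2 := C0_pos (D := dat) (p := 1 / 0.55) (by norm_num)
  have h3 : (1 : ℝ) ≤ 4.5 - max 1 (1 / 0.55) := by norm_num
  have h4 : 3 * C0 dat (1 / 0.55) / (1 / 2.25) ≤ Kc := by
    have : 0 < 3 * C0 dat 2.25 / 0.55 := by positivity
    unfold Kc
    linarith
  calc 3 * C0 dat (1 / 0.55) / (1 / 2.25) ≤ Kc * 1 := by rw [mul_one]; exact h4
    _ ≤ _ := mul_le_mul_of_nonneg_left h3 Kc_pos.le

/-- the adapted norm. -/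
noncomputable def Nc : EE → EE → ℝ := NN dat Kc

theorem inv_Nc : SS.InvFun Nc := inv_NN Kc

theorem Nc_F {b : EE} (hb : b ∈ SS.U) {w : EE} (hw : w ∈ Hor Jh b) :
    Nc (FF b) (FF w) ≤ 4.5 * Nc b w := by
  have h1 := Nb_Fm (K := Kc) (κ := 4.5) aut_mu bd_mu Kc_pos (by norm_num) Kc_1 hb w
  have h2 : ‖th (FF b) (FF w)‖ ≤ 4.5 * ‖th b w‖ := by
    rw [FF, th_Fm aut_mu.hc]
    apply norm_dil_le' (by norm_num)
    intro i hi
    have hi' : i ∉ Jh := fun h => hi (hw i h)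
    rcases i with ⟨i, j⟩ | i
    · rw [cc_inl, abs_mul]
      have ai := mu_abs i
      have aj := mu_abs j
      have hij : i ≠ 0 ∨ j ≠ 0 := by
        by_contra hcon
        push Not at hcon
        obtain ⟨rfl, rfl⟩ := hcon
        exact hi' (by simp [Jh])
      rcases hij with h | h
      · have := mu_small h
        calc |mu i| * |mu j| ≤ 0.81 * 2.25 := mul_le_mul this aj.2 (abs_nonneg _) (by norm_num)
          _ ≤ 4.5 := by norm_num
      · have := mu_small h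
        calc |mu i| * |mu j| ≤ 2.25 * 0.81 := mul_le_mul ai.2 this (abs_nonneg _) (by norm_num)
          _ ≤ 4.5 := by norm_num
    · exfalso
      apply hi'
      fin_cases i <;> simp [Jh]
  unfold Nc NN
  change Nb dat Kc (Fm mu cc b) (Fm mu cc w) + ‖th (FF b) (FF w)‖ ≤ _
  linarith

theorem Nc_G {b : EE} (hb : b ∈ SS.U) {w : EE} (hw : w ∈ Hor Jh b) :
    Nc (GG b) (GG w) ≤ 4.5 * Nc b w := by
  have h1 := Nb_Fm (K := Kc) (κ := 4.5) aut_mu' bd_mu' Kc_pos (by norm_num) Kc_2 hb w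
  have h2 : ‖th (GG b) (GG w)‖ ≤ 4.5 * ‖th b w‖ := by
    rw [GG, th_Fm aut_mu'.hc]
    apply norm_dil_le' (by norm_num)
    intro i hi
    have hi' : i ∉ Jh := fun h => hi (hw i h)
    rcases i with ⟨i, j⟩ | i
    · rw [cc_inl, abs_inv, abs_mul]
      have ai := mu_abs i
      have aj := mu_abs j
      have h3 : 0.55 * 0.55 ≤ |mu i| * |mu j| :=
        mul_le_mul ai.1 aj.1 (by norm_num) (abs_nonneg _)
      have h4 : (0 : ℝ) < 0.55 * 0.55 := by norm_num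
      rw [inv_le_comm₀ (lt_of_lt_of_le h4 h3) (by norm_num)]
      refine le_trans ?_ h3
      norm_num
    · exfalso
      apply hi'
      fin_cases i <;> simp [Jh]
  unfold Nc NN
  change Nb dat Kc (Fm _ _ b) (Fm _ _ w) + ‖th (GG b) (GG w)‖ ≤ _
  linarith

theorem Nc_lower {b : EE} (hb : b ∈ SS.U) {w : EE} (hw : w ∈ Hor Jh b) :
    (4.5 : ℝ)⁻¹ * Nc b w ≤ Nc (FF b) (FF w) := by
  have h1 : FF w ∈ Hor Jh (FF b) := (mem_Hor_Fm aut_mu.hc cc_ne Jh b w).2 hw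
  have h2 := Nc_G (nor_F.mem hb) h1
  rw [GF, GF] at h2
  rw [inv_mul_le_iff₀ (by norm_num)]
  exact h2

theorem Nc_vert {J : Finset II} {b w : EE} (hw : w ∈ Vert J b) : Nc b w = ‖th b w‖ := by
  unfold Nc NN
  rw [Nb_vert Kc b hw.1 hw.2.1, zero_add]

theorem Nc_s {b : EE} {w : EE} (hw : w ∈ Vert Js b) : Nc (FF b) (FF w) ≤ 0.2 * Nc b w := by
  have h1 : FF w ∈ Vert Js (FF b) := (mem_Vert_Fm aut_mu.hc mu_ne cc_ne Js b w).2 hw
  rw [Nc_vert h1, Nc_vert hw, FF, th_Fm aut_mu.hc]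
  apply norm_dil_le' (by norm_num)
  intro i hi
  have hi' : i ∈ Js := by
    by_contra hcon
    exact hi (hw.2.2 i hcon)
  simp only [Js, Finset.mem_singleton] at hi'
  rw [hi', cc_inr1]
  have := sqrt2_bd
  rw [abs_of_pos (by linarith [this.2])]
  linarith [this.1]

theorem Nc_u {b : EE} {w : EE} (hw : w ∈ Vert Ju b) : 4.84 * Nc b w ≤ Nc (FF b) (FF w) := by
  have h1 : FF w ∈ Vert Ju (FF b) := (mem_Vert_Fm aut_mu.hc mu_ne cc_ne Ju b w).2 hw
  rw [Nc_vert h1, Nc_vert hw, FF, th_Fm aut_mu.hc]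
  apply le_norm_dil' (by norm_num)
  intro i hi
  have hi' : i ∈ Ju := by
    by_contra hcon
    exact hi (hw.2.2 i hcon)
  simp only [Ju, Finset.mem_insert, Finset.mem_singleton] at hi'
  rcases hi' with rfl | rfl
  · rw [cc_inl]
    have m0 := mu0
    rw [abs_of_pos (by nlinarith [m0.1])]
    nlinarith [m0.1]
  · rw [cc_inr0]
    have := sqrt2_bd
    rw [abs_of_pos (by linarith [this.1])]
    linarith [this.1]

/-- **Domination.** -/
theorem dominated (g : SS.Met) :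
    ∃ n : ℕ, 1 ≤ n ∧ ∀ (q : SS.Pt) (vs vc vu : EE), vs ∈ Vert Js (chartAt EE q q) →
      vc ∈ Hor Jh (chartAt EE q q) → vu ∈ Vert Ju (chartAt EE q q) → Et.len g q vs = 1 →
      Et.len g q vc = 1 → Et.len g q vu = 1 →
      Et.len g ((Et.map FF nor_F)^[n] q)
        ((mfderiv 𝓘(ℝ, EE) 𝓘(ℝ, EE) (Et.map FF nor_F)^[n] q : EE →L[ℝ] EE) vs) <
        min 1 (Et.len g ((Et.map FF nor_F)^[n] q)
          ((mfderiv 𝓘(ℝ, EE) 𝓘(ℝ, EE) (Et.map FF nor_F)^[n] q : EE →L[ℝ] EE) vc)) ∧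
      max 1 (Et.len g ((Et.map FF nor_F)^[n] q)
          ((mfderiv 𝓘(ℝ, EE) 𝓘(ℝ, EE) (Et.map FF nor_F)^[n] q : EE →L[ℝ] EE) vc)) <
        Et.len g ((Et.map FF nor_F)^[n] q)
          ((mfderiv 𝓘(ℝ, EE) 𝓘(ℝ, EE) (Et.map FF nor_F)^[n] q : EE →L[ℝ] EE) vu) := by
  obtain ⟨c₁, hc₁, C₁, hC₁, hcomp⟩ := compare_NN (D := dat) Kc_pos
  exact Et.domination g isCompact_KK KK_sub KK_cover inv_Nc hc₁ hC₁ hcomp FF nor_F
    (As := Vert Js) (Ac := Hor Jh) (Au := Vert Ju)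
    (fun b _ w => mem_Vert_Fm aut_mu.hc mu_ne cc_ne Js b w)
    (fun b _ w => mem_Hor_Fm aut_mu.hc cc_ne Jh b w)
    (fun b _ w => mem_Vert_Fm aut_mu.hc mu_ne cc_ne Ju b w)
    (η := 0.2) (κ := 4.5) (l := 4.84) (by norm_num) (by norm_num) (by norm_num) (by norm_num)
    (by norm_num) (by norm_num)
    (fun b _ w hw => Nc_s hw) (fun b hb w hw => Nc_F hb hw) (fun b hb w hw => Nc_lower hb hw)
    (fun b _ w hw => Nc_u hw)

end Pool.Agent.Y331.PH
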