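import Pool.Agent.Y331.PH.Fmap

/-!
# An adapted norm
-/

set_option autoImplicit false

open scoped Topology ComplexConjugate
open Set Filter

namespace Pool.Agent.Y331.PH

namespace Dat

variable (D : Dat)

/-- the distance to the lattice. -/
noncomputable def rho (x : V3) : ℝ := Metric.infDist x (D.L : Set V3)

open Classical in
/-- the vector from the closest lattice point, cut off. -/
noncomputable def aa (x : V3) : V3 :=
  if h : ∃ p ∈ D.L, ‖x - p‖ < D.r / 2 then x - h.choose else 0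

theorem L_ne : (D.L : Set V3).Nonempty := ⟨0, D.L.zero_mem⟩

variable {D}

theorem near_unique {x p p' : V3} (hp : p ∈ D.L) (hp' : p' ∈ D.L) (h : ‖x - p‖ < D.r / 2)
    (h' : ‖x - p'‖ < D.r / 2) : p = p' := by
  have h1 : ‖p - p'‖ < D.r := by
    calc ‖p - p'‖ = ‖(x - p') - (x - p)‖ := by congr 1; abel
      _ ≤ ‖x - p'‖ + ‖x - p‖ := norm_sub_le _ _
      _ < D.r := by linarith
  exact sub_eq_zero.1 (D.L_sep _ (D.L.sub_mem hp hp') h1)

theorem aa_near {x p : V3} (hp : p ∈ D.L) (h : ‖x - p‖ < D.r / 2) : D.aa x = x - p := by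
  have hex : ∃ p ∈ D.L, ‖x - p‖ < D.r / 2 := ⟨p, hp, h⟩
  rw [aa, dif_pos hex, near_unique hex.choose_spec.1 hp hex.choose_spec.2 h]

theorem aa_far {x : V3} (h : ∀ p ∈ D.L, D.r / 2 ≤ ‖x - p‖) : D.aa x = 0 := by
  rw [aa, dif_neg]
  rintro ⟨p, hp, hp'⟩
  exact absurd (h p hp) (not_le.2 hp')

theorem rho_le_dist {x p : V3} (hp : p ∈ D.L) : D.rho x ≤ ‖x - p‖ := by
  rw [← dist_eq_norm]
  exact Metric.infDist_le_dist_of_mem hp

theorem le_rho {x : V3} {d : ℝ} (h : ∀ p ∈ D.L, d ≤ ‖x - p‖) : d ≤ D.rho x := by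
  rw [rho, Metric.le_infDist D.L_ne]
  intro y hy
  rw [dist_eq_norm]
  exact h y hy

theorem rho_near {x p : V3} (hp : p ∈ D.L) (h : ‖x - p‖ < D.r / 2) : D.rho x = ‖x - p‖ := by
  apply le_antisymm (rho_le_dist hp)
  apply le_rho
  intro p' hp'
  rcases eq_or_ne p' p with rfl | hne
  · exact le_rfl
  · have h1 : D.r ≤ ‖p' - p‖ := by
      by_contra hcon
      push Not at hcon
      exact hne (sub_eq_zero.1 (D.L_sep _ (D.L.sub_mem hp' hp) hcon))
    have h2 : ‖p' - p‖ ≤ ‖x - p‖ + ‖x - p'‖ := by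
      calc ‖p' - p‖ = ‖(x - p) - (x - p')‖ := by congr 1; abel
        _ ≤ _ := norm_sub_le _ _
    linarith

theorem rho_nonneg (x : V3) : 0 ≤ D.rho x := Metric.infDist_nonneg

theorem aa_le (x : V3) : ‖D.aa x‖ ≤ D.rho x := by
  by_cases hex : ∃ p ∈ D.L, ‖x - p‖ < D.r / 2
  · obtain ⟨p, hp, h⟩ := hex
    rw [aa_near hp h, rho_near hp h]
  · push Not at hex
    rw [aa_far hex, norm_zero]
    exact rho_nonneg x

theorem rho_pos {x : V3} (hx : x ∉ D.L) : 0 < D.rho x := by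
  by_cases hex : ∃ p ∈ D.L, ‖x - p‖ < D.r / 2
  · obtain ⟨p, hp, h⟩ := hex
    rw [rho_near hp h, norm_pos_iff, sub_ne_zero]
    rintro rfl
    exact hx hp
  · push Not at hex
    have := le_rho hex
    have := D.r_pos
    linarith

theorem rho_le_norm (x : V3) : D.rho x ≤ ‖x‖ := by
  have := rho_le_dist (x := x) D.L.zero_mem
  rwa [sub_zero] at this

theorem rho_add_le {l : V3} (hl : l ∈ D.L) (x : V3) : D.rho (x + l) ≤ D.rho x := by
  apply le_rho
  intro p hp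
  have := rho_le_dist (x := x + l) (D.L.add_mem hp hl)
  rwa [add_sub_add_right_eq_sub] at this

theorem rho_add {l : V3} (hl : l ∈ D.L) (x : V3) : D.rho (x + l) = D.rho x := by
  apply le_antisymm (rho_add_le hl x)
  have := rho_add_le (D.L.neg_mem hl) (x + l)
  rwa [add_neg_cancel_right] at this

theorem rho_neg_le (x : V3) : D.rho (-x) ≤ D.rho x := by
  apply le_rho
  intro p hp
  have := rho_le_dist (x := -x) (D.L.neg_mem hp)
  have e : -x - -p = -(x - p) := by abel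
  rwa [e, norm_neg] at this

theorem rho_neg (x : V3) : D.rho (-x) = D.rho x := by
  apply le_antisymm (rho_neg_le x)
  have := rho_neg_le (D := D) (-x)
  rwa [neg_neg] at this

theorem aa_add {l : V3} (hl : l ∈ D.L) (x : V3) : D.aa (x + l) = D.aa x := by
  by_cases hex : ∃ p ∈ D.L, ‖x - p‖ < D.r / 2
  · obtain ⟨p, hp, h⟩ := hex
    have e : x + l - (p + l) = x - p := by abel
    rw [aa_near hp h, aa_near (D.L.add_mem hp hl) (by rw [e]; exact h), e]
  · push Not at hex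
    rw [aa_far hex, aa_far]
    intro p hp
    have := hex (p - l) (D.L.sub_mem hp hl)
    have e : x - (p - l) = x + l - p := by abel
    rwa [e] at this

theorem aa_neg (x : V3) : D.aa (-x) = -D.aa x := by
  by_cases hex : ∃ p ∈ D.L, ‖x - p‖ < D.r / 2
  · obtain ⟨p, hp, h⟩ := hex
    have e : -x - -p = -(x - p) := by abel
    rw [aa_near hp h, aa_near (D.L.neg_mem hp) (by rw [e, norm_neg]; exact h), e]
  · push Not at hex
    rw [aa_far hex, aa_far, neg_zero]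
    intro p hp
    have := hex (-p) (D.L.neg_mem hp)
    have e : x - -p = -(-x - p) := by abel
    rwa [e, norm_neg] at this

/-- bounds for the dilation. -/
structure Bd (m : Fin 3 → ℝ) (p q : ℝ) : Prop where
  q_pos : 0 < q
  p_pos : 0 < p
  up : ∀ i, |m i| ≤ p
  lo : ∀ i, q ≤ |m i|

section dil

variable {m : Fin 3 → ℝ} {p q : ℝ}

theorem Bd.le (h : Bd m p q) (v : V3) : ‖dil m v‖ ≤ p * ‖v‖ := norm_dil_le h.p_pos.le h.up v

theorem Bd.ge (h : Bd m p q) (v : V3) : q * ‖v‖ ≤ ‖dil m v‖ :=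
  le_norm_dil' h.q_pos fun i _ => h.lo i

theorem Bd.ne (h : Bd m p q) (i : Fin 3) : m i ≠ 0 := by
  have h1 := h.lo i
  have h2 := h.q_pos
  intro h0
  rw [h0, abs_zero] at h1
  linarith

theorem rho_dil_le (h : Bd m p q) (hL : ∀ l, dil m l ∈ D.L ↔ l ∈ D.L) (x : V3) :
    D.rho (dil m x) ≤ p * D.rho x := by
  rw [← div_le_iff₀' h.p_pos]
  apply le_rho
  intro l hl
  rw [div_le_iff₀' h.p_pos]
  refine (rho_le_dist ((hL l).2 hl)).trans ?_
  rw [← dil_sub]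
  exact h.le _

theorem le_rho_dil (h : Bd m p q) (hL : ∀ l, dil m l ∈ D.L ↔ l ∈ D.L) (x : V3) :
    q * D.rho x ≤ D.rho (dil m x) := by
  apply le_rho
  intro l hl
  obtain ⟨l', rfl⟩ : ∃ l', dil m l' = l := ⟨_, dil_inv' h.ne l⟩
  rw [hL] at hl
  rw [← dil_sub]
  refine le_trans ?_ (h.ge _)
  exact mul_le_mul_of_nonneg_left (rho_le_dist hl) h.q_pos.le

/-- the power `2 / 3`. -/
noncomputable def psi (t : ℝ) : ℝ := t ^ (2 / 3 : ℝ)

theorem psi_nonneg {t : ℝ} (ht : 0 ≤ t) : 0 ≤ psi t := Real.rpow_nonneg ht _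
theorem psi_pos {t : ℝ} (ht : 0 < t) : 0 < psi t := Real.rpow_pos_of_pos ht _
theorem psi_mono {t t' : ℝ} (ht : 0 ≤ t) (h : t ≤ t') : psi t ≤ psi t' :=
  Real.rpow_le_rpow ht h (by norm_num)

theorem psi_mul_le {p t : ℝ} (hp : 0 < p) (ht : 0 ≤ t) : psi (p * t) ≤ max 1 p * psi t := by
  unfold psi
  rw [Real.mul_rpow hp.le ht]
  apply mul_le_mul_of_nonneg_right _ (Real.rpow_nonneg ht _)
  rcases le_total p 1 with h | h
  · exact (Real.rpow_le_one hp.le h (by norm_num)).trans (le_max_left _ _)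
  · calc p ^ (2 / 3 : ℝ) ≤ p ^ (1 : ℝ) := Real.rpow_le_rpow_of_exponent_le h (by norm_num)
      _ = p := Real.rpow_one p
      _ ≤ max 1 p := le_max_right _ _

/-- the threshold. -/
noncomputable def d1 (D : Dat) (p : ℝ) : ℝ := min (D.r / 2) (D.r / (2 * p))

theorem d1_pos {p : ℝ} (hp : 0 < p) : 0 < d1 D p := by
  have := D.r_pos
  exact lt_min (by positivity) (by positivity)

/-- the constant. -/
noncomputable def C0 (D : Dat) (p : ℝ) : ℝ := 2 * p / psi (d1 D p)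

theorem C0_pos {p : ℝ} (hp : 0 < p) : 0 < C0 D p := by
  have := psi_pos (d1_pos (D := D) hp)
  unfold C0
  positivity

theorem aa_dil (h : Bd m p q) (hL : ∀ l, dil m l ∈ D.L ↔ l ∈ D.L) (x : V3) :
    ‖dil m (D.aa x) - D.aa (dil m x)‖ ≤ C0 D p * D.rho x * psi (D.rho x) := by
  have hr := D.r_pos
  have hp := h.p_pos
  have hρ := rho_nonneg (D := D) x
  have hC := C0_pos (D := D) hp
  rcases lt_or_ge (D.rho x) (d1 D p) with h1 | h1
  · obtain ⟨l, hl, hl2⟩ := (Metric.infDist_lt_iff D.L_ne).1 h1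
    rw [dist_eq_norm] at hl2
    have h2 : ‖x - l‖ < D.r / 2 := lt_of_lt_of_le hl2 (min_le_left _ _)
    have h3 : ‖x - l‖ < D.r / (2 * p) := lt_of_lt_of_le hl2 (min_le_right _ _)
    have h4 : ‖dil m x - dil m l‖ < D.r / 2 := by
      rw [← dil_sub]
      refine lt_of_le_of_lt (h.le _) ?_
      calc p * ‖x - l‖ < p * (D.r / (2 * p)) := by gcongr
        _ = D.r / 2 := by field_simp
    rw [aa_near hl h2, aa_near ((hL l).2 hl) h4, dil_sub, sub_self, norm_zero]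
    have := psi_nonneg hρ
    positivity
  · have h2 : ‖dil m (D.aa x) - D.aa (dil m x)‖ ≤ 2 * p * D.rho x := by
      calc ‖dil m (D.aa x) - D.aa (dil m x)‖ ≤ ‖dil m (D.aa x)‖ + ‖D.aa (dil m x)‖ := norm_sub_le _ _
        _ ≤ p * ‖D.aa x‖ + D.rho (dil m x) := add_le_add (h.le _) (aa_le _)
        _ ≤ p * D.rho x + p * D.rho x :=
          add_le_add (mul_le_mul_of_nonneg_left (aa_le x) hp.le) (rho_dil_le h hL x)
        _ = 2 * p * D.rho x := by ring
    refine h2.trans ?_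
    have h3 := psi_pos (d1_pos (D := D) hp)
    have h4 : psi (d1 D p) ≤ psi (D.rho x) := psi_mono (d1_pos hp).le h1
    have h5 : 1 ≤ psi (D.rho x) / psi (d1 D p) := by rwa [one_le_div h3]
    calc 2 * p * D.rho x = 2 * p * D.rho x * 1 := by ring
      _ ≤ 2 * p * D.rho x * (psi (D.rho x) / psi (d1 D p)) := by gcongr
      _ = C0 D p * D.rho x * psi (D.rho x) := by unfold C0; ring

end dil

open Classical in
/-- the norm of the base part, with a square root. -/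
noncomputable def Ns (D : Dat) (K : ℝ) (b w : EE) (s : ℂ) : ℝ :=
  if s = 0 then ‖w.1‖ / ‖b.1‖ + K * (psi ‖b.1‖ * (‖w.2.1‖ / 2)) else
    ‖xd b w s - (3 * (w.2.1 / (2 * s ^ 2))) • D.aa (s ^ 3 • b.1)‖ / D.rho (s ^ 3 • b.1) +
      K * (psi (D.rho (s ^ 3 • b.1)) * ‖w.2.1 / (2 * s ^ 2)‖)

/-- the square root. -/
noncomputable def rt (u : ℂ) : ℂ := (exists_sq u).choose

theorem rt_sq (u : ℂ) : rt u ^ 2 = u := (exists_sq u).choose_spec

/-- the norm of the base part. -/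
noncomputable def Nb (D : Dat) (K : ℝ) (b w : EE) : ℝ := Ns D K b w (rt b.2.1)

theorem Ns_neg (K : ℝ) (b w : EE) (s : ℂ) : Ns D K b w (-s) = Ns D K b w s := by
  unfold Ns
  rcases eq_or_ne s 0 with hs | hs
  · simp [hs]
  · have hs' : -s ≠ 0 := neg_ne_zero.2 hs
    rw [if_neg hs, if_neg hs']
    have e1 : (-s) ^ 3 • b.1 = -(s ^ 3 • b.1) := by
      rw [← neg_smul]; congr 1; ring
    have e2 : (-s) ^ 2 = s ^ 2 := by ring
    have e3 : xd b w (-s) = -xd b w s := by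
      unfold xd
      ext i
      simp only [Pi.add_apply, Pi.smul_apply, Pi.neg_apply, smul_eq_mul]
      ring
    rw [e1, e2, e3, aa_neg, rho_neg, smul_neg]
    congr 2
    rw [← norm_neg]
    congr 1
    abel

theorem Nb_eq (K : ℝ) {b : EE} (w : EE) {s : ℂ} (hs : s ^ 2 = b.2.1) :
    Nb D K b w = Ns D K b w s := by
  unfold Nb
  have h : rt b.2.1 ^ 2 = s ^ 2 := by rw [rt_sq, hs]
  rcases sq_eq_sq_iff_eq_or_eq_neg.1 h with h1 | h1
  · rw [h1]
  · rw [h1, Ns_neg]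

theorem psi_cube {a v : ℝ} (ha : 0 ≤ a) (hv : 0 ≤ v) : psi (a ^ 3 * v) = a ^ 2 * psi v := by
  unfold psi
  rw [Real.mul_rpow (by positivity) hv]
  congr 1
  rw [← Real.rpow_natCast a 3, ← Real.rpow_mul ha]
  norm_num

theorem Ns_dphi {b b' : EE} {s : ℂ} {n : ℤ} {l : V3} {k : WW} (K : ℝ) (hl : l ∈ D.L)
    (h : Rl b b' s n l k) (w : EE) :
    Ns D K b' (dphi b s n l w) ((2 : ℂ) ^ n * s) = Ns D K b w s := by
  have h2 := two_zpow_ne n
  unfold Ns
  rcases eq_or_ne s 0 with hs | hs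
  · have hl0 := h.zr hs
    have hs' : (2 : ℂ) ^ n * s = 0 := by rw [hs, mul_zero]
    rw [if_pos hs, if_pos hs']
    have e1 : (dphi b s n l w).1 = (((2 : ℂ) ^ n) ^ 3)⁻¹ • w.1 := by
      simp [dphi, hl0]
    have e2 : (dphi b s n l w).2.1 = ((2 : ℂ) ^ n) ^ 2 * w.2.1 := rfl
    have e3 : b'.1 = (((2 : ℂ) ^ n) ^ 3)⁻¹ • b.1 := by
      rw [h.h1, hl0, smul_zero, add_zero]
    have hn : 0 < ‖(2 : ℂ) ^ n‖ := norm_pos_iff.2 h2
    rw [e1, e2, e3, norm_smul, norm_smul, norm_mul, norm_inv, norm_pow, norm_pow]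
    congr 1
    · rw [mul_div_mul_left]
      positivity
    · congr 1
      have e4 : psi ((‖(2 : ℂ) ^ n‖ ^ 3)⁻¹ * ‖b.1‖) = (‖(2 : ℂ) ^ n‖⁻¹) ^ 2 * psi ‖b.1‖ := by
        rw [← inv_pow]
        exact psi_cube (inv_nonneg.2 hn.le) (norm_nonneg _)
      rw [e4]
      field_simp
  · have hs' : (2 : ℂ) ^ n * s ≠ 0 := mul_ne_zero h2 hs
    rw [if_neg hs, if_neg hs', xd_dphi h, h.hx, aa_add hl, rho_add hl]
    have e2 : (dphi b s n l w).2.1 = ((2 : ℂ) ^ n) ^ 2 * w.2.1 := rfl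
    have e3 : ((2 : ℂ) ^ n) ^ 2 * w.2.1 / (2 * ((2 : ℂ) ^ n * s) ^ 2) = w.2.1 / (2 * s ^ 2) := by
      field_simp
    rw [e2, e3]

/-- the norm. -/
noncomputable def NN (D : Dat) (K : ℝ) (b w : EE) : ℝ := Nb D K b w + ‖th b w‖

theorem inv_NN {pt : EE} {hpt : pt ∈ D.U} (K : ℝ) : (D.sur pt hpt).InvFun (NN D K) := by
  intro φ x h w
  obtain ⟨s, n, l, hl, k, hk, h1, h2⟩ := germ_fderiv h
  rw [h2]
  unfold NN
  rw [th_dphi h1, Nb_eq K w h1.sq, Nb_eq K _ h1.sq', Ns_dphi K hl h1]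

/-- the formula near `u = 0`. -/
theorem Ns_near (K : ℝ) {b : EE} (w : EE) {s : ℂ} (hb : b.1 ≠ 0) (h : ‖s ^ 3 • b.1‖ < D.r / 2) :
    Ns D K b w s = ‖w.1‖ / ‖b.1‖ + K * (psi ‖b.1‖ * (‖w.2.1‖ / 2)) := by
  unfold Ns
  rcases eq_or_ne s 0 with hs | hs
  · rw [if_pos hs]
  · rw [if_neg hs]
    have h0 : ‖s ^ 3 • b.1 - 0‖ < D.r / 2 := by rwa [sub_zero]
    rw [aa_near D.L.zero_mem h0, rho_near D.L.zero_mem h0, sub_zero]
    have hn : 0 < ‖s‖ := norm_pos_iff.2 hs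
    have hb' : 0 < ‖b.1‖ := norm_pos_iff.2 hb
    have e1 : xd b w s - (3 * (w.2.1 / (2 * s ^ 2))) • (s ^ 3 • b.1) = s ^ 3 • w.1 := by
      unfold xd
      ext i
      simp only [Pi.add_apply, Pi.sub_apply, Pi.smul_apply, smul_eq_mul]
      field_simp
      ring
    rw [e1, norm_smul, norm_smul, norm_pow, psi_cube hn.le hb'.le, norm_div, norm_mul, norm_pow,
      Complex.norm_two]
    congr 1
    · rw [mul_div_mul_left]
      positivity
    · field_simp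

theorem psi_le_self {t : ℝ} (h : 1 ≤ t) : psi t ≤ t := by
  calc t ^ (2 / 3 : ℝ) ≤ t ^ (1 : ℝ) := Real.rpow_le_rpow_of_exponent_le h (by norm_num)
    _ = t := Real.rpow_one t

theorem one_le_psi {t : ℝ} (h : 1 ≤ t) : 1 ≤ psi t := Real.one_le_rpow h (by norm_num)

/-- **The estimate for the base part.** -/
theorem Nb_Fm {m : Fin 3 → ℝ} {c : II → ℝ} {p q κ K : ℝ} (hA : Aut D m c) (h : Bd m p q)
    (hK : 0 < K) (hpq : p / q ≤ κ) (h1 : 3 * C0 D p / q ≤ K * (κ - max 1 p)) {b : EE}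
    (hb : b ∈ D.U) (w : EE) : Nb D K (Fm m c b) (Fm m c w) ≤ κ * Nb D K b w := by
  have hq := h.q_pos
  have hp := h.p_pos
  obtain ⟨s, hs⟩ := exists_sq b.2.1
  have hs' : s ^ 2 = (Fm m c b).2.1 := hs
  rw [Nb_eq K w hs, Nb_eq K _ hs']
  have hC := C0_pos (D := D) hp
  have hκP : max 1 p ≤ κ := by
    have h2 : 0 ≤ 3 * C0 D p / q := by positivity
    have h3 : 0 ≤ K * (κ - max 1 p) := h2.trans h1
    have h4 := (mul_nonneg_iff_of_pos_left hK).1 h3
    linarith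
  have hκ : 0 < κ := lt_of_lt_of_le (by positivity) hκP
  unfold Ns
  rcases eq_or_ne s 0 with h0 | h0
  · rw [if_pos h0, if_pos h0]
    have hb' : 0 < ‖b.1‖ := norm_pos_iff.2 hb.1
    change ‖dil m w.1‖ / ‖dil m b.1‖ + K * (psi ‖dil m b.1‖ * (‖w.2.1‖ / 2)) ≤ _
    have e1 : ‖dil m w.1‖ / ‖dil m b.1‖ ≤ κ * (‖w.1‖ / ‖b.1‖) := by
      calc ‖dil m w.1‖ / ‖dil m b.1‖ ≤ (p * ‖w.1‖) / (q * ‖b.1‖) := by
            gcongr
            · exact h.le _
            · exact h.ge _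
        _ = p / q * (‖w.1‖ / ‖b.1‖) := by field_simp
        _ ≤ κ * (‖w.1‖ / ‖b.1‖) := by gcongr
    have e2 : psi ‖dil m b.1‖ ≤ κ * psi ‖b.1‖ := by
      calc psi ‖dil m b.1‖ ≤ psi (p * ‖b.1‖) := psi_mono (norm_nonneg _) (h.le _)
        _ ≤ max 1 p * psi ‖b.1‖ := psi_mul_le hp hb'.le
        _ ≤ κ * psi ‖b.1‖ := by
          have := psi_nonneg hb'.le
          gcongr
    calc ‖dil m w.1‖ / ‖dil m b.1‖ + K * (psi ‖dil m b.1‖ * (‖w.2.1‖ / 2))
        ≤ κ * (‖w.1‖ / ‖b.1‖) + K * (κ * psi ‖b.1‖ * (‖w.2.1‖ / 2)) := by gcongr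
      _ = κ * (‖w.1‖ / ‖b.1‖ + K * (psi ‖b.1‖ * (‖w.2.1‖ / 2))) := by ring
  · rw [if_neg h0, if_neg h0, xd_Fm]
    set x : V3 := s ^ 3 • b.1 with hx
    have hx' : s ^ 3 • (Fm m c b).1 = dil m x := by
      rw [hx, dil_smul]; rfl
    have hw' : (Fm m c w).2.1 = w.2.1 := rfl
    rw [hx', hw']
    set σ : ℂ := w.2.1 / (2 * s ^ 2) with hσ
    have hxL : x ∉ D.L := fun hL => h0 (hb.2 s hs hL)
    have hρ : 0 < D.rho x := rho_pos hxL
    have hρ2 := le_rho_dil h hA.hL x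
    have hρ3 := rho_dil_le h hA.hL x
    have hψ := psi_pos hρ
    have e1 : ‖dil m (xd b w s) - (3 * σ) • D.aa (dil m x)‖ ≤
        p * ‖xd b w s - (3 * σ) • D.aa x‖ + 3 * ‖σ‖ * (C0 D p * D.rho x * psi (D.rho x)) := by
      have e2 : dil m (xd b w s) - (3 * σ) • D.aa (dil m x) =
          dil m (xd b w s - (3 * σ) • D.aa x) + (3 * σ) • (dil m (D.aa x) - D.aa (dil m x)) := by
        rw [dil_sub m (xd b w s), dil_smul m (3 * σ) (D.aa x), smul_sub]
        abel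
      rw [e2]
      refine (norm_add_le _ _).trans (add_le_add (h.le _) ?_)
      rw [norm_smul, norm_mul]
      have : ‖(3 : ℂ)‖ = 3 := by norm_num
      rw [this]
      gcongr
      exact aa_dil h hA.hL x
    have e3 : ‖dil m (xd b w s) - (3 * σ) • D.aa (dil m x)‖ / D.rho (dil m x) ≤
        p / q * (‖xd b w s - (3 * σ) • D.aa x‖ / D.rho x) +
          3 * C0 D p / q * (psi (D.rho x) * ‖σ‖) := by
      calc ‖dil m (xd b w s) - (3 * σ) • D.aa (dil m x)‖ / D.rho (dil m x)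
          ≤ (p * ‖xd b w s - (3 * σ) • D.aa x‖ +
              3 * ‖σ‖ * (C0 D p * D.rho x * psi (D.rho x))) / (q * D.rho x) := by gcongr
        _ = _ := by field_simp
    have e4 : psi (D.rho (dil m x)) ≤ max 1 p * psi (D.rho x) :=
      (psi_mono (rho_nonneg _) hρ3).trans (psi_mul_le hp hρ.le)
    have hα : 0 ≤ ‖xd b w s - (3 * σ) • D.aa x‖ / D.rho x := by positivity
    have hβ : 0 ≤ psi (D.rho x) * ‖σ‖ := by positivity
    calc ‖dil m (xd b w s) - (3 * σ) • D.aa (dil m x)‖ / D.rho (dil m x) +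
          K * (psi (D.rho (dil m x)) * ‖σ‖)
        ≤ (p / q * (‖xd b w s - (3 * σ) • D.aa x‖ / D.rho x) +
          3 * C0 D p / q * (psi (D.rho x) * ‖σ‖)) + K * (max 1 p * psi (D.rho x) * ‖σ‖) := by
          gcongr
      _ = p / q * (‖xd b w s - (3 * σ) • D.aa x‖ / D.rho x) +
          (3 * C0 D p / q + K * max 1 p) * (psi (D.rho x) * ‖σ‖) := by ring
      _ ≤ κ * (‖xd b w s - (3 * σ) • D.aa x‖ / D.rho x) + (K * κ) * (psi (D.rho x) * ‖σ‖) := by
          gcongr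
          linarith
      _ = κ * (‖xd b w s - (3 * σ) • D.aa x‖ / D.rho x + K * (psi (D.rho x) * ‖σ‖)) := by ring

/-- the base part vanishes on vertical vectors. -/
theorem Nb_vert (K : ℝ) (b : EE) {w : EE} (h1 : w.1 = 0) (h2 : w.2.1 = 0) : Nb D K b w = 0 := by
  unfold Nb Ns xd
  simp [h1, h2]

theorem Ns_nonneg {K : ℝ} (hK : 0 ≤ K) (b w : EE) (s : ℂ) : 0 ≤ Ns D K b w s := by
  unfold Ns
  split_ifs
  · have := psi_nonneg (norm_nonneg b.1)
    positivity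
  · have h1 := rho_nonneg (D := D) (s ^ 3 • b.1)
    have := psi_nonneg h1
    positivity

end Dat

end Pool.Agent.Y331.PH
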