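import Pool.Agent.Y331.PH.Et

/-!
# The equivalence relation of the surgery

The points of the space `E = ℂ³ × ℂ × ℂ¹¹` are written `(v, u, w)`. Outside of `u = 0` the point is
given by a square root `s` of `u` and by `x = s³ v`, up to sign.
-/

set_option autoImplicit false

open scoped Topology ComplexConjugate
open Set Filter

namespace Pool.Agent.Y331.PH

/-- the space `ℂ³`. -/
abbrev V3 : Type := Fin 3 → ℂ
/-- the indices of the coordinates of the fibre. -/
abbrev II : Type := (Fin 3 × Fin 3) ⊕ Fin 2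
/-- the fibre. -/
abbrev WW : Type := II → ℂ
/-- the model space. -/
abbrev EE : Type := V3 × ℂ × WW

/-- the map `(x, y) ↦ x yᴴ`. -/
def bet (x y : V3) : WW := Sum.elim (fun i => x i.1 * conj (y i.2)) 0

@[simp] theorem bet_inl (x y : V3) (i : Fin 3 × Fin 3) : bet x y (Sum.inl i) = x i.1 * conj (y i.2) :=
  rfl
@[simp] theorem bet_inr (x y : V3) (i : Fin 2) : bet x y (Sum.inr i) = 0 := rfl

theorem bet_add_left (x x' y : V3) : bet (x + x') y = bet x y + bet x' y := by
  ext i
  rcases i with i | i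
  · simp [add_mul]
  · simp

theorem bet_add_right (x y y' : V3) : bet x (y + y') = bet x y + bet x y' := by
  ext i
  rcases i with i | i
  · simp [mul_add]
  · simp

theorem bet_smul_left (c : ℂ) (x y : V3) : bet (c • x) y = c • bet x y := by
  ext i
  rcases i with i | i
  · simp [mul_assoc]
  · simp

theorem bet_smul_right (c : ℂ) (x y : V3) : bet x (c • y) = conj c • bet x y := by
  ext i
  rcases i with i | i
  · simp [mul_left_comm]
  · simp

@[simp] theorem bet_zero_left (y : V3) : bet 0 y = 0 := by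
  ext i
  rcases i with i | i <;> simp

@[simp] theorem bet_zero_right (x : V3) : bet x 0 = 0 := by
  ext i
  rcases i with i | i <;> simp

theorem bet_neg_left (x y : V3) : bet (-x) y = -bet x y := by
  ext i
  rcases i with i | i <;> simp

theorem bet_neg_right (x y : V3) : bet x (-y) = -bet x y := by
  ext i
  rcases i with i | i <;> simp

theorem continuous_bet : Continuous fun z : V3 × V3 => bet z.1 z.2 := by
  rw [continuous_pi_iff]
  rintro (i | i)
  · simp only [bet_inl]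
    fun_prop
  · simp only [bet_inr]
    fun_prop

/-- The data: two lattices. -/
structure Dat where
  /-- the lattice of the base -/
  L : AddSubgroup V3
  /-- the lattice of the fibre -/
  Lam : AddSubgroup WW
  /-- separation -/
  r : ℝ
  r_pos : 0 < r
  L_sep : ∀ l ∈ L, ‖l‖ < r → l = 0
  Lam_sep : ∀ k ∈ Lam, ‖k‖ < r → k = 0
  /-- density -/
  R : ℝ
  L_cov : ∀ x, ∃ l ∈ L, ‖x + l‖ ≤ R
  Lam_cov : ∀ w, ∃ k ∈ Lam, ‖w + k‖ ≤ R
  bet_mem : ∀ l ∈ L, ∀ l' ∈ L, bet l l' ∈ Lam

/-- the relation with data. -/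
structure Rl (b b' : EE) (s : ℂ) (n : ℤ) (l : V3) (k : WW) : Prop where
  sq : s ^ 2 = b.2.1
  zr : s = 0 → l = 0
  h1 : b'.1 = (((2 : ℂ) ^ n) ^ 3)⁻¹ • (b.1 + (s ^ 3)⁻¹ • l)
  h2 : b'.2.1 = ((2 : ℂ) ^ n) ^ 2 * b.2.1
  h3 : b'.2.2 = b.2.2 - bet (s ^ 3 • b.1) l + k

theorem two_zpow_ne (n : ℤ) : ((2 : ℂ) ^ n) ≠ 0 := zpow_ne_zero n two_ne_zero

namespace Rl

variable {b b' b'' : EE} {s s' : ℂ} {n n' : ℤ} {l l' : V3} {k k' : WW}

/-- the new square root. -/
theorem sq' (h : Rl b b' s n l k) : ((2 : ℂ) ^ n * s) ^ 2 = b'.2.1 := by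
  rw [h.h2, ← h.sq]; ring

/-- the new value of `x`. -/
theorem hx (h : Rl b b' s n l k) : ((2 : ℂ) ^ n * s) ^ 3 • b'.1 = s ^ 3 • b.1 + l := by
  rw [h.h1]
  rcases eq_or_ne s 0 with h0 | h0
  · simp [h0, h.zr h0]
  · have h2 := two_zpow_ne n
    rw [smul_smul, smul_add, smul_smul]
    congr 1
    · congr 1
      field_simp
    · have : ((2 : ℂ) ^ n * s) ^ 3 * (((2 : ℂ) ^ n) ^ 3)⁻¹ * (s ^ 3)⁻¹ = 1 := by field_simp
      rw [this, one_smul]

theorem refl (b : EE) {s : ℂ} (hs : s ^ 2 = b.2.1) : Rl b b s 0 0 0 where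
  sq := hs
  zr _ := rfl
  h1 := by simp
  h2 := by simp
  h3 := by simp

theorem symm (h : Rl b b' s n l k) : Rl b' b ((2 : ℂ) ^ n * s) (-n) (-l) (-k - bet l l) where
  sq := h.sq'
  zr h0 := by
    have : s = 0 := by simpa [two_zpow_ne n] using h0
    simp [h.zr this]
  h1 := by
    have h2 := two_zpow_ne n
    rw [h.h1]
    rcases eq_or_ne s 0 with h0 | h0
    · simp only [h0, h.zr h0, smul_zero, add_zero, neg_zero]
      rw [smul_smul, zpow_neg]
      have : ((((2 : ℂ) ^ n)⁻¹) ^ 3)⁻¹ * (((2 : ℂ) ^ n) ^ 3)⁻¹ = 1 := by field_simp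
      rw [this, one_smul]
    · rw [zpow_neg]
      ext i
      simp only [Pi.smul_apply, Pi.add_apply, smul_eq_mul, Pi.neg_apply]
      field_simp
      ring
  h2 := by
    rw [h.h2, zpow_neg]
    have h2 := two_zpow_ne n
    field_simp
  h3 := by
    rw [h.h3, h.hx]
    rcases eq_or_ne s 0 with h0 | h0
    · simp [h0, h.zr h0]
    · rw [bet_neg_right, bet_add_left]
      abel

theorem trans (h : Rl b b' s n l k) (h' : Rl b' b'' s' n' l' k') :
    ∃ e : ℂ, (e = 1 ∨ e = -1) ∧ Rl b b'' s (n + n') (l + e • l') (k + k' - bet l (e • l')) := by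
  have h2 := two_zpow_ne n
  have h2' := two_zpow_ne n'
  obtain ⟨e, he, hs'⟩ : ∃ e : ℂ, (e = 1 ∨ e = -1) ∧ s' = e * ((2 : ℂ) ^ n * s) := by
    have := h'.sq
    rw [← h.sq'] at this
    rcases sq_eq_sq_iff_eq_or_eq_neg.1 this with h3 | h3
    · exact ⟨1, Or.inl rfl, by rw [h3, one_mul]⟩
    · exact ⟨-1, Or.inr rfl, by rw [h3]; ring⟩
  have he2 : e ^ 2 = 1 := by rcases he with rfl | rfl <;> norm_num
  have he0 : e ≠ 0 := by rcases he with rfl | rfl <;> norm_num
  have hec : conj e = e := by rcases he with rfl | rfl <;> simp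
  refine ⟨e, he, ?_⟩
  constructor
  · exact h.sq
  · intro h0
    have h0' : s' = 0 := by rw [hs', h0]; simp
    rw [h.zr h0, h'.zr h0']
    simp
  · rw [h'.h1, h.h1, hs', zpow_add₀ (two_ne_zero)]
    rcases eq_or_ne s 0 with h0 | h0
    · have h0' : s' = 0 := by rw [hs', h0]; simp
      rw [h.zr h0, h'.zr h0']
      simp only [smul_zero, add_zero]
      rw [smul_smul]
      congr 1
      field_simp
    · have he4 : (e ^ 3)⁻¹ = e := by
        rw [inv_eq_iff_eq_inv, ← mul_eq_one_iff_eq_inv₀ he0]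
        calc e ^ 3 * e = (e ^ 2) ^ 2 := by ring
          _ = 1 := by rw [he2]; norm_num
      rw [mul_pow e, mul_inv, he4]
      ext i
      simp only [Pi.smul_apply, Pi.add_apply, smul_eq_mul]
      field_simp
      ring
  · rw [h'.h2, h.h2, zpow_add₀ (two_ne_zero)]
    ring
  · have he3 : e ^ 3 = e := by
      calc e ^ 3 = e ^ 2 * e := by ring
        _ = e := by rw [he2, one_mul]
    rw [h'.h3, h.h3, hs', mul_pow, mul_smul, h.hx, he3, bet_smul_left e, bet_add_right,
      bet_smul_right e, bet_smul_right e, hec, bet_add_left (s ^ 3 • b.1) l l', smul_add]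
    abel

end Rl

end Pool.Agent.Y331.PH
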