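import Pool.Agent.Y331.PH.Deck
import Pool.Agent.Y331.PH.EtAna

/-!
# The connection form and the invariant distributions
-/

set_option autoImplicit false

open scoped Topology ComplexConjugate ContDiff
open Set Filter

namespace Pool.Agent.Y331.PH

/-- the form `θ = dw + dx xᴴ` in the coordinates `(v, u, w)`. -/
noncomputable def th (b w : EE) : WW :=
  w.2.2 + ((‖b.2.1‖ ^ 3 : ℝ) : ℂ) • bet w.1 b.1 +
    (3 / 2 * w.2.1 * (‖b.2.1‖ : ℂ) * conj b.2.1) • bet b.1 b.1

theorem th_add (b w w' : EE) : th b (w + w') = th b w + th b w' := by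
  unfold th
  simp only [Prod.fst_add, Prod.snd_add, bet_add_left]
  ext i
  simp only [Pi.add_apply, Pi.smul_apply, smul_eq_mul]
  ring

theorem th_smul (b : EE) (c : ℂ) (w : EE) : th b (c • w) = c • th b w := by
  unfold th
  simp only [Prod.smul_fst, Prod.smul_snd, bet_smul_left]
  ext i
  simp only [Pi.add_apply, Pi.smul_apply, smul_eq_mul]
  ring

theorem th_zero (b : EE) : th b 0 = 0 := by
  have := th_smul b 0 0
  simpa using this

theorem th_sub (b w w' : EE) : th b (w - w') = th b w - th b w' := by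
  have h := th_add b (w - w') w'
  rw [sub_add_cancel] at h
  rw [h]
  abel

theorem th_vert (b : EE) (t : WW) : th b (0, 0, t) = t := by
  simp [th]

/-- the velocity of `x`. -/
noncomputable def xd (b w : EE) (s : ℂ) : V3 := s ^ 3 • w.1 + (3 / 2 * s * w.2.1) • b.1

theorem th_eq {b w : EE} {s : ℂ} (hs : s ^ 2 = b.2.1) :
    th b w = w.2.2 + bet (xd b w s) (s ^ 3 • b.1) := by
  unfold th xd
  rw [← hs, bet_smul_right, bet_add_left, bet_smul_left, bet_smul_left, smul_add, smul_smul,
    smul_smul, add_assoc]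
  congr 2
  · congr 1
    rw [norm_pow]
    push_cast
    have : (‖s‖ : ℂ) ^ 2 = s * conj s := by rw [← Complex.mul_conj' s]
    calc ((‖s‖ : ℂ) ^ 2) ^ 3 = (s * conj s) ^ 3 := by rw [this]
      _ = conj (s ^ 3) * s ^ 3 := by rw [map_pow]; ring
  · congr 1
    rw [norm_pow]
    push_cast
    have : (‖s‖ : ℂ) ^ 2 = s * conj s := by rw [← Complex.mul_conj' s]
    rw [this]
    simp only [map_pow]
    ring

theorem xd_dphi {b b' : EE} {s : ℂ} {n : ℤ} {l : V3} {k : WW} (h : Rl b b' s n l k) (w : EE) :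
    xd b' (dphi b s n l w) ((2 : ℂ) ^ n * s) = xd b w s := by
  unfold xd dphi
  rcases eq_or_ne s 0 with hs | hs
  · simp [hs]
  · rw [h.h1]
    have h2 := two_zpow_ne n
    ext i
    simp only [Pi.add_apply, Pi.smul_apply, Pi.sub_apply, smul_eq_mul]
    field_simp
    ring

theorem th_dphi {b b' : EE} {s : ℂ} {n : ℤ} {l : V3} {k : WW} (h : Rl b b' s n l k) (w : EE) :
    th b' (dphi b s n l w) = th b w := by
  rw [th_eq h.sq', th_eq h.sq, xd_dphi h, h.hx, bet_add_right]
  change w.2.2 - bet (xd b w s) l + _ = _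
  abel

/-- the restriction of a vector to a set of coordinates. -/
def cut (J : Finset II) (t : WW) : WW := fun i => if i ∈ J then t i else 0

theorem cut_mem {J : Finset II} {t : WW} {i : II} (hi : i ∈ J) : cut J t i = t i := if_pos hi
theorem cut_not_mem {J : Finset II} {t : WW} {i : II} (hi : i ∉ J) : cut J t i = 0 := if_neg hi

theorem cut_add (J : Finset II) (t t' : WW) : cut J (t + t') = cut J t + cut J t' := by
  ext i
  by_cases hi : i ∈ J <;> simp [cut, hi]

theorem cut_smul (J : Finset II) (c : ℂ) (t : WW) : cut J (c • t) = c • cut J t := by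
  ext i
  by_cases hi : i ∈ J <;> simp [cut, hi]

theorem cut_sub (J : Finset II) (t t' : WW) : cut J (t - t') = cut J t - cut J t' := by
  ext i
  by_cases hi : i ∈ J <;> simp [cut, hi]

theorem continuous_cut (J : Finset II) : Continuous (cut J) := by
  rw [continuous_pi_iff]
  intro i
  by_cases hi : i ∈ J
  · simp only [cut, hi, if_true]; fun_prop
  · simp only [cut, hi, if_false]; fun_prop

/-- vertical distributions. -/
noncomputable def Vert (J : Finset II) (b : EE) : Submodule ℂ EE where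
  carrier := {w | w.1 = 0 ∧ w.2.1 = 0 ∧ ∀ i ∉ J, th b w i = 0}
  add_mem' := by
    rintro w w' ⟨h1, h2, h3⟩ ⟨h1', h2', h3'⟩
    refine ⟨by simp [h1, h1'], by simp [h2, h2'], fun i hi => ?_⟩
    rw [th_add, Pi.add_apply, h3 i hi, h3' i hi, add_zero]
  zero_mem' := ⟨rfl, rfl, fun i _ => by rw [th_zero]; rfl⟩
  smul_mem' := by
    rintro c w ⟨h1, h2, h3⟩
    refine ⟨by simp [h1], by simp [h2], fun i hi => ?_⟩
    rw [th_smul, Pi.smul_apply, h3 i hi, smul_zero]

/-- horizontal distributions. -/
noncomputable def Hor (J : Finset II) (b : EE) : Submodule ℂ EE where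
  carrier := {w | ∀ i ∈ J, th b w i = 0}
  add_mem' := by
    intro w w' h h' i hi
    rw [th_add, Pi.add_apply, h i hi, h' i hi, add_zero]
  zero_mem' := fun i _ => by rw [th_zero]; rfl
  smul_mem' := by
    intro c w h i hi
    rw [th_smul, Pi.smul_apply, h i hi, smul_zero]

theorem mem_Vert {J : Finset II} {b w : EE} :
    w ∈ Vert J b ↔ w.1 = 0 ∧ w.2.1 = 0 ∧ ∀ i ∉ J, th b w i = 0 := Iff.rfl

theorem mem_Hor {J : Finset II} {b w : EE} : w ∈ Hor J b ↔ ∀ i ∈ J, th b w i = 0 := Iff.rfl

theorem eq_of_Vert {J : Finset II} {b w : EE} (h : w ∈ Vert J b) : w = (0, 0, th b w) := by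
  obtain ⟨h1, h2, -⟩ := h
  refine Prod.ext h1 (Prod.ext h2 ?_)
  simp [th, h1, h2]

variable {D : Dat} {pt : EE} {hpt : pt ∈ D.U}

theorem inv_Vert (J : Finset II) : (D.sur pt hpt).InvSub (Vert J) := by
  intro φ x h w hw
  obtain ⟨s, n, l, hl, k, hk, h1, h2⟩ := Dat.germ_fderiv h
  rw [h2]
  obtain ⟨a1, a2, a3⟩ := hw
  refine ⟨?_, ?_, fun i hi => ?_⟩
  · simp [dphi, a1, a2]
  · simp [dphi, a2]
  · rw [th_dphi h1]
    exact a3 i hi

theorem inv_Hor (J : Finset II) : (D.sur pt hpt).InvSub (Hor J) := by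
  intro φ x h w hw
  obtain ⟨s, n, l, hl, k, hk, h1, h2⟩ := Dat.germ_fderiv h
  rw [h2]
  intro i hi
  rw [th_dphi h1]
  exact hw i hi

theorem continuous_th (w : EE) : Continuous fun b : EE => th b w := by
  unfold th
  have h1 : Continuous fun b : EE => bet w.1 b.1 :=
    continuous_bet.comp (continuous_const.prodMk continuous_fst)
  have h2 : Continuous fun b : EE => bet b.1 b.1 :=
    continuous_bet.comp (continuous_fst.prodMk continuous_fst)
  have h3 : Continuous fun b : EE => b.2.1 := continuous_fst.comp continuous_snd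
  have h4 : Continuous fun b : EE => ((‖b.2.1‖ ^ 3 : ℝ) : ℂ) :=
    Complex.continuous_ofReal.comp (h3.norm.pow 3)
  have h5 : Continuous fun b : EE => 3 / 2 * w.2.1 * (‖b.2.1‖ : ℂ) * conj b.2.1 :=
    (continuous_const.mul (Complex.continuous_ofReal.comp h3.norm)).mul
      (Complex.continuous_conj.comp h3)
  have h6 : Continuous fun b : EE => ((‖b.2.1‖ ^ 3 : ℝ) : ℂ) • bet w.1 b.1 := h4.smul h1
  have h7 : Continuous fun b : EE => (3 / 2 * w.2.1 * (‖b.2.1‖ : ℂ) * conj b.2.1) • bet b.1 b.1 :=
    h5.smul h2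
  exact (continuous_const.add h6).add h7

/-- the parameters of the vertical frames. -/
def CV (J : Finset II) : Submodule ℂ WW where
  carrier := {t | ∀ i ∉ J, t i = 0}
  add_mem' := by
    intro t t' h h' i hi
    simp [h i hi, h' i hi]
  zero_mem' := fun _ _ => rfl
  smul_mem' := by
    intro c t h i hi
    simp [h i hi]

/-- the parameters of the horizontal frames. -/
def CH (J : Finset II) : Submodule ℂ EE where
  carrier := {w | ∀ i ∈ J, w.2.2 i = 0}
  add_mem' := by
    intro t t' h h' i hi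
    simp [h i hi, h' i hi]
  zero_mem' := fun _ _ => rfl
  smul_mem' := by
    intro c t h i hi
    simp [h i hi]

theorem continuous_Vert (J : Finset II) : IsContinuousDistribution ((D.sur pt hpt).fld (Vert J)) := by
  refine Et.continuous_fld (C := CV J) (inv_Vert J)
    (fun _ => ((LinearMap.inr ℂ V3 (ℂ × WW)).comp (LinearMap.inr ℂ ℂ WW)).comp (CV J).subtype)
    (fun c => continuousOn_const) ?_ ?_
  · intro x _ c c' h
    have h1 : ((0, 0, (c : WW)) : EE) = (0, 0, (c' : WW)) := h
    have h2 := congrArg (fun z : EE => z.2.2) h1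
    exact Subtype.ext h2
  · intro x _ w
    constructor
    · intro hw
      have h1 := eq_of_Vert hw
      exact ⟨⟨th x w, hw.2.2⟩, h1.symm⟩
    · rintro ⟨c, rfl⟩
      refine ⟨rfl, rfl, fun i hi => ?_⟩
      change th x (0, 0, (c : WW)) i = 0
      rw [th_vert]
      exact c.2 i hi

/-- the horizontal frames. -/
noncomputable def sH (J : Finset II) (b : EE) : CH J →ₗ[ℂ] EE where
  toFun c := (c : EE) - (0, 0, cut J (th b c))
  map_add' c c' := by
    simp only [Submodule.coe_add, th_add, cut_add]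
    refine Prod.ext ?_ (Prod.ext ?_ ?_)
    · simp
    · simp
    · simp only [Prod.snd_sub, Prod.snd_add]
      abel
  map_smul' a c := by
    simp only [Submodule.coe_smul, th_smul, cut_smul, RingHom.id_apply]
    refine Prod.ext ?_ (Prod.ext ?_ ?_)
    · simp
    · simp
    · simp [smul_sub]

theorem sH_apply (J : Finset II) (b : EE) (c : CH J) : sH J b c = (c : EE) - (0, 0, cut J (th b c)) :=
  rfl

theorem sH_mem (J : Finset II) (b : EE) (c : CH J) : sH J b c ∈ Hor J b := by
  intro i hi
  rw [sH_apply, th_sub, th_vert, Pi.sub_apply, cut_mem hi, sub_self]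

/-- the projection onto the parameters. -/
noncomputable def pH (J : Finset II) : EE →L[ℂ] CH J :=
  LinearMap.toContinuousLinearMap
    { toFun := fun w => ⟨w - (0, 0, cut J w.2.2), fun i hi => by simp [cut, hi]⟩
      map_add' := fun w w' => by
        apply Subtype.ext
        refine Prod.ext ?_ (Prod.ext ?_ ?_)
        · simp
        · simp
        · simp only [Prod.snd_sub, Prod.snd_add, cut_add, Submodule.coe_add]
          abel
      map_smul' := fun c w => by
        apply Subtype.ext
        refine Prod.ext ?_ (Prod.ext ?_ ?_)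
        · simp
        · simp
        · simp [cut_smul, smul_sub] }

theorem pH_coe (J : Finset II) (w : EE) : (pH J w : EE) = w - (0, 0, cut J w.2.2) := rfl

theorem cut_idem (J : Finset II) (t : WW) : cut J (cut J t) = cut J t := by
  ext i
  by_cases hi : i ∈ J <;> simp [cut, hi]

theorem cut_CH {J : Finset II} (c : CH J) : cut J (c : EE).2.2 = 0 := by
  ext i
  by_cases hi : i ∈ J
  · rw [cut_mem hi, c.2 i hi]; rfl
  · rw [cut_not_mem hi]; rfl

theorem pH_sH (J : Finset II) (b : EE) (c : CH J) : pH J (sH J b c) = c := by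
  apply Subtype.ext
  rw [pH_coe, sH_apply]
  refine Prod.ext ?_ (Prod.ext ?_ ?_)
  · simp
  · simp
  · simp only [Prod.snd_sub, cut_sub, cut_idem, cut_CH]
    abel

theorem sH_pH {J : Finset II} {b w : EE} (hw : w ∈ Hor J b) : sH J b (pH J w) = w := by
  rw [sH_apply, pH_coe, th_sub, th_vert, cut_sub, cut_idem]
  have : cut J (th b w) = 0 := by
    ext i
    by_cases hi : i ∈ J
    · rw [cut_mem hi, hw i hi]; rfl
    · rw [cut_not_mem hi]; rfl
  rw [this]
  refine Prod.ext ?_ (Prod.ext ?_ ?_)
  · simp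
  · simp
  · simp only [Prod.snd_sub]
    abel

theorem continuous_Hor (J : Finset II) : IsContinuousDistribution ((D.sur pt hpt).fld (Hor J)) := by
  refine Et.continuous_fld (C := CH J) (inv_Hor J) (sH J) (fun c => ?_) ?_ ?_
  · apply Continuous.continuousOn
    have h1 : Continuous fun b : EE => cut J (th b c) := (continuous_cut J).comp (continuous_th _)
    exact continuous_const.sub (continuous_const.prodMk (continuous_const.prodMk h1))
  · intro x _ c c' h
    rw [← pH_sH J x c, ← pH_sH J x c', h]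
  · intro x _ w
    constructor
    · intro hw
      exact ⟨pH J w, sH_pH hw⟩
    · rintro ⟨c, rfl⟩
      exact sH_mem J x c

/-! ### The three distributions -/

/-- the index of the stable direction. -/
def Js : Finset II := {Sum.inr 1}
/-- the indices of the unstable directions. -/
def Ju : Finset II := {Sum.inl (0, 0), Sum.inr 0}
/-- the complement of the central indices. -/
def Jh : Finset II := {Sum.inl (0, 0), Sum.inr 0, Sum.inr 1}

theorem mem_Jh {i : II} : i ∈ Jh ↔ i ∈ Js ∨ i ∈ Ju := by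
  simp only [Jh, Js, Ju, Finset.mem_insert, Finset.mem_singleton]
  tauto

theorem Js_Ju {i : II} (h : i ∈ Js) : i ∉ Ju := by
  simp only [Js, Ju, Finset.mem_insert, Finset.mem_singleton] at h ⊢
  subst h
  simp

theorem splitting (b w : EE) : ∃! z : EE × EE × EE, z.1 ∈ Vert Js b ∧ z.2.1 ∈ Hor Jh b ∧
    z.2.2 ∈ Vert Ju b ∧ z.1 + z.2.1 + z.2.2 = w := by
  refine ⟨((0, 0, cut Js (th b w)), w - (0, 0, cut Js (th b w)) - (0, 0, cut Ju (th b w)),
    (0, 0, cut Ju (th b w))), ⟨?_, ?_, ?_, ?_⟩, ?_⟩
  · exact ⟨rfl, rfl, fun i hi => by rw [th_vert, cut_not_mem hi]⟩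
  · intro i hi
    rw [th_sub, th_sub, th_vert, th_vert, Pi.sub_apply, Pi.sub_apply]
    rcases mem_Jh.1 hi with h | h
    · rw [cut_mem h, cut_not_mem (Js_Ju h)]
      ring
    · rw [cut_mem h, cut_not_mem (fun h' => Js_Ju h' h)]
      ring
  · exact ⟨rfl, rfl, fun i hi => by rw [th_vert, cut_not_mem hi]⟩
  · simp only
    abel
  · rintro ⟨s, c, u⟩ ⟨hs, hc, hu, hw⟩
    simp only at hs hc hu hw
    have e1 : th b w = th b s + th b c + th b u := by rw [← hw, th_add, th_add]
    have e2 : th b s = cut Js (th b w) := by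
      ext i
      by_cases hi : i ∈ Js
      · rw [cut_mem hi, e1, Pi.add_apply, Pi.add_apply, hc i (mem_Jh.2 (Or.inl hi)),
          hu.2.2 i (Js_Ju hi)]
        ring
      · rw [cut_not_mem hi, hs.2.2 i hi]
    have e3 : th b u = cut Ju (th b w) := by
      ext i
      by_cases hi : i ∈ Ju
      · rw [cut_mem hi, e1, Pi.add_apply, Pi.add_apply, hc i (mem_Jh.2 (Or.inr hi)),
          hs.2.2 i (fun h => Js_Ju h hi)]
        ring
      · rw [cut_not_mem hi, hu.2.2 i hi]
    have e4 : s = (0, 0, cut Js (th b w)) := by rw [← e2]; exact eq_of_Vert hs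
    have e5 : u = (0, 0, cut Ju (th b w)) := by rw [← e3]; exact eq_of_Vert hu
    have e6 : c = w - (0, 0, cut Js (th b w)) - (0, 0, cut Ju (th b w)) := by
      rw [← e4, ← e5, ← hw]
      abel
    rw [← e4, ← e5] at e6
    rw [← e4, ← e5, ← e6]

theorem ne_bot_Vert {J : Finset II} {i : II} (hi : i ∈ J) (b : EE) : Vert J b ≠ ⊥ := by
  rw [Submodule.ne_bot_iff]
  refine ⟨(0, 0, cut J 1), ⟨rfl, rfl, fun j hj => by rw [th_vert, cut_not_mem hj]⟩, ?_⟩
  intro h
  have h1 := congrArg (fun z : EE => z.2.2 i) h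
  simp [cut, hi] at h1

theorem ne_bot_Hor (b : EE) : Hor Jh b ≠ ⊥ := by
  rw [Submodule.ne_bot_iff]
  refine ⟨(0, 0, fun i => if i = Sum.inl (0, 1) then 1 else 0), fun j hj => ?_, ?_⟩
  · rw [th_vert]
    simp only [Jh, Finset.mem_insert, Finset.mem_singleton] at hj
    rcases hj with rfl | rfl | rfl <;> simp
  · intro h
    have h1 := congrArg (fun z : EE => z.2.2 (Sum.inl (0, 1))) h
    simp at h1

end Pool.Agent.Y331.PH
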